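import Mathlib

set_option autoImplicit false

/-!
Integral chains on lists of points: boundary, cones, prisms, the action of a self map, the
minimal resolution system of a cyclic group, and products of cochains in low degree.
-/

namespace Pool.Agent.Helper46.MeanDim

open FreeAbelianGroup

/-- Integral chains on lists. -/
abbrev Ch (E : Type*) := FreeAbelianGroup (List E)

variable {E : Type*}

/-- Put the vertex `w` in front. -/
noncomputable def cone (w : E) : Ch E →+ Ch E :=
  FreeAbelianGroup.lift fun l => of (w :: l)

@[simp] theorem cone_of (w : E) (l : List E) : cone w (of l) = of (w :: l) := by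
  simp [cone]

/-- The boundary of a list. -/
noncomputable def bdL : List E → Ch E
  | [] => 0
  | (w :: l) => of l - cone w (bdL l)

/-- The boundary of a chain. -/
noncomputable def bd : Ch E →+ Ch E := FreeAbelianGroup.lift bdL

@[simp] theorem bd_nil : bd (of ([] : List E)) = 0 := by
  simp [bd, bdL]

@[simp] theorem bd_cons (w : E) (l : List E) :
    bd (of (w :: l)) = of l - cone w (bd (of l)) := by
  simp [bd, bdL]

theorem bd_cone (w : E) (c : Ch E) : bd (cone w c) = c - cone w (bd c) := by
  have : (bd.comp (cone w)) = (AddMonoidHom.id (Ch E)) - (cone w).comp bd := by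
    apply FreeAbelianGroup.lift_ext
    intro l
    simp
  exact DFunLike.congr_fun this c

theorem bd_bd (c : Ch E) : bd (bd c) = 0 := by
  have : (bd.comp bd) = (0 : Ch E →+ Ch E) := by
    apply FreeAbelianGroup.lift_ext
    intro l
    induction l with
    | nil => simp
    | cons w l ih =>
      simp only [AddMonoidHom.comp_apply, AddMonoidHom.zero_apply] at ih ⊢
      rw [bd_cons, map_sub, bd_cone, ih]
      simp
  exact DFunLike.congr_fun this c

/-- The action of a self map on chains. -/
noncomputable def act (f : E → E) : Ch E →+ Ch E :=
  FreeAbelianGroup.lift fun l => of (l.map f)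

@[simp] theorem act_of (f : E → E) (l : List E) : act f (of l) = of (l.map f) := by
  simp [act]

theorem act_cone (f : E → E) (w : E) (c : Ch E) : act f (cone w c) = cone (f w) (act f c) := by
  have : (act f).comp (cone w) = (cone (f w)).comp (act f) := by
    apply FreeAbelianGroup.lift_ext
    intro l
    simp
  exact DFunLike.congr_fun this c

theorem bd_act (f : E → E) (c : Ch E) : bd (act f c) = act f (bd c) := by
  have : bd.comp (act f) = (act f).comp bd := by
    apply FreeAbelianGroup.lift_ext
    intro l
    induction l with
    | nil => simp
    | cons w l ih =>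
      simp only [AddMonoidHom.comp_apply, act_of] at ih ⊢
      rw [List.map_cons, bd_cons, ih, bd_cons, map_sub, act_cone, act_of]
  exact DFunLike.congr_fun this c

/-- The prism between two self maps, on lists. -/
noncomputable def prismL (f g : E → E) : List E → Ch E
  | [] => 0
  | (x :: l) => of (f x :: g x :: l.map g) - cone (f x) (prismL f g l)

/-- The prism between two self maps. -/
noncomputable def prism (f g : E → E) : Ch E →+ Ch E := FreeAbelianGroup.lift (prismL f g)

@[simp] theorem prism_nil (f g : E → E) : prism f g (of []) = 0 := by
  simp [prism, prismL]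

@[simp] theorem prism_cons (f g : E → E) (x : E) (l : List E) :
    prism f g (of (x :: l)) = of (f x :: g x :: l.map g) - cone (f x) (prism f g (of l)) := by
  simp [prism, prismL]

theorem prism_cone (f g : E → E) (x : E) (c : Ch E) :
    prism f g (cone x c) = cone (f x) (cone (g x) (act g c)) - cone (f x) (prism f g c) := by
  have : (prism f g).comp (cone x) =
      ((cone (f x)).comp ((cone (g x)).comp (act g))) - (cone (f x)).comp (prism f g) := by
    apply FreeAbelianGroup.lift_ext
    intro l
    simp
  exact DFunLike.congr_fun this c

theorem bd_prism (f g : E → E) (c : Ch E) :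
    bd (prism f g c) = act g c - act f c - prism f g (bd c) := by
  have : bd.comp (prism f g) = act g - act f - (prism f g).comp bd := by
    apply FreeAbelianGroup.lift_ext
    intro l
    induction l with
    | nil => simp
    | cons x l ih =>
      simp only [AddMonoidHom.comp_apply, AddMonoidHom.sub_apply, act_of] at ih ⊢
      rw [prism_cons, map_sub, bd_cons, bd_cons, bd_cone, ih, bd_cons, map_sub (prism f g), prism_cone]
      have h1 : bd (of (l.map g)) = act g (bd (of l)) := by
        rw [← act_of, bd_act]
      rw [h1]
      simp only [map_sub, cone_of, List.map_cons]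
      abel
  exact DFunLike.congr_fun this c

/-- Evaluation of a function on lists at a chain. -/
noncomputable def ev {A : Type*} [AddCommGroup A] (P : List E → A) : Ch E →+ A :=
  FreeAbelianGroup.lift P

@[simp] theorem ev_of {A : Type*} [AddCommGroup A] (P : List E → A) (l : List E) :
    ev P (of l) = P l := by
  simp [ev]

/-- Two evaluations agree on chains supported on lists where the functions agree. -/
theorem ev_congr {A : Type*} [AddCommGroup A] {P Q : List E → A} {S : Set (List E)}
    (h : ∀ l ∈ S, P l = Q l) {c : Ch E} (hc : c ∈ AddSubgroup.closure (of '' S)) :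
    ev P c = ev Q c := by
  induction hc using AddSubgroup.closure_induction with
  | mem x hx =>
    obtain ⟨l, hl, rfl⟩ := hx
    simp [h l hl]
  | zero => simp
  | add x y _ _ hx hy => simp [hx, hy]
  | neg x _ hx => simp [hx]

/-- A map of chain groups sends chains supported in `S` to chains supported in `S'`. -/
theorem map_mem_closure {S S' : Set (List E)} (φ : Ch E →+ Ch E)
    (h : ∀ l ∈ S, φ (of l) ∈ AddSubgroup.closure (of '' S')) {c : Ch E}
    (hc : c ∈ AddSubgroup.closure (of '' S)) : φ c ∈ AddSubgroup.closure (of '' S') := by
  induction hc using AddSubgroup.closure_induction with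
  | mem x hx =>
    obtain ⟨l, hl, rfl⟩ := hx
    exact h l hl
  | zero => simp
  | add x y _ _ hx hy => rw [map_add]; exact add_mem hx hy
  | neg x _ hx => rw [map_neg]; exact neg_mem hx

/-! ### Products of cochains -/

/-- Product of a `0`-cochain with a cochain. -/
def cup0 {A : Type*} [CommRing A] (κ : E → A) (P : List E → A) : List E → A
  | [] => 0
  | (x :: r) => κ x * P (x :: r)

/-- Product of a `1`-cochain with a cochain. -/
def cup1 {A : Type*} [CommRing A] (b : E → E → A) (P : List E → A) : List E → A
  | (x :: y :: r) => b x y * P (y :: r)
  | _ => 0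

/-- Product of a `2`-cochain with a cochain. -/
def cup2 {A : Type*} [CommRing A] (β : E → E → E → A) (P : List E → A) : List E → A
  | (x :: y :: z :: r) => β x y z * P (z :: r)
  | _ => 0

/-- `P` is a cocycle. -/
def Cocyc {A : Type*} [CommRing A] (P : List E → A) : Prop := ∀ l : List E, ev P (bd (of l)) = 0

section

variable {A : Type*} [CommRing A]

theorem ev_cone (P : List E → A) (w : E) (c : Ch E) :
    ev P (cone w c) = ev (fun l => P (w :: l)) c := by
  have : (ev P).comp (cone w) = ev (fun l => P (w :: l)) := by
    apply FreeAbelianGroup.lift_ext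
    intro l
    simp
  exact DFunLike.congr_fun this c

theorem ev_mul_left (a : A) (P : List E → A) (c : Ch E) :
    ev (fun l => a * P l) c = a * ev P c := by
  have : ev (fun l => a * P l) = (AddMonoidHom.mulLeft a).comp (ev P) := by
    apply FreeAbelianGroup.lift_ext
    intro l
    simp
  exact DFunLike.congr_fun this c

theorem ev_cup0 (κ : E → A) {P : List E → A} (hP : Cocyc P) (l : List E) :
    ev (cup0 κ P) (bd (of l)) = cup1 (fun x y => κ y - κ x) P l := by
  match l with
  | [] => simp [cup1]
  | [x] => simp [cup1, cup0]
  | (x :: y :: r) =>
    have h := hP (x :: y :: r)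
    simp only [bd_cons, map_sub, cone_of, ev_of, ev_cone] at h ⊢
    simp only [cup0, cup1]
    rw [ev_mul_left]
    linear_combination (κ x) * h

theorem ev_cup1 (b : E → E → A) {P : List E → A} (hP : Cocyc P) (l : List E) :
    ev (cup1 b P) (bd (of l)) = cup2 (fun x y z => b y z - b x z + b x y) P l := by
  match l with
  | [] => simp [cup2]
  | [x] => simp [cup1, cup2]
  | [x, y] =>
    simp [cup1, cup2]
  | (x :: y :: z :: r) =>
    have h := hP (y :: z :: r)
    simp only [bd_cons, map_sub, cone_of, ev_of, ev_cone] at h ⊢
    simp only [cup1, cup2]
    rw [ev_mul_left]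
    linear_combination (-b x y) * h

theorem cup2_cocyc {β : E → E → E → A}
    (hβ : ∀ x y z w, β y z w - β x z w + β x y w - β x y z = 0) {P : List E → A}
    (hP : Cocyc P) : Cocyc (cup2 β P) := by
  intro l
  match l with
  | [] => simp
  | [x] => simp [cup2]
  | [x, y] => simp [cup2]
  | [x, y, z] => simp [cup2]
  | (x :: y :: z :: w :: r) =>
    have h := hP (z :: w :: r)
    have h2 := hβ x y z w
    simp only [bd_cons, map_sub, cone_of, ev_of, ev_cone] at h ⊢
    simp only [cup2]
    rw [ev_mul_left]
    linear_combination (β x y z) * h + P (w :: r) * h2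

/-- The unit cochain: `1` on singletons. -/
def unitC : List E → A
  | [_] => 1
  | _ => 0

theorem unitC_cocyc : Cocyc (unitC : List E → A) := by
  intro l
  match l with
  | [] => simp
  | [x] => simp [unitC]
  | [x, y] => simp [unitC]
  | (x :: y :: z :: r) =>
    simp only [bd_cons, map_sub, cone_of, ev_of, ev_cone, unitC]
    have : ev (fun _ : List E => (0 : A)) (bd (of r)) = 0 := by
      have : ev (fun _ : List E => (0 : A)) = 0 := by
        apply FreeAbelianGroup.lift_ext
        intro l
        simp
      rw [this]; simp
    simp [this]

theorem cup2_mul_left (a : A) (β : E → E → E → A) (P : List E → A) (l : List E) :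
    cup2 (fun x y z => a * β x y z) P l = a * cup2 β P l := by
  match l with
  | [] => simp [cup2]
  | [x] => simp [cup2]
  | [x, y] => simp [cup2]
  | (x :: y :: z :: r) => simp [cup2, mul_assoc]

end

end Pool.Agent.Helper46.MeanDim
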