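import Mathlib
import Pool.Agent.Helper46.MeanDim.Chains

set_option autoImplicit false

/-!
The minimal resolution system of a cyclic group inside the chains on lists, and the evaluation
of the product cocycles on it.
-/

namespace Pool.Agent.Helper46.MeanDim

open FreeAbelianGroup

variable {E : Type*}

theorem act_act (f g : E → E) (c : Ch E) : act f (act g c) = act (f ∘ g) c := by
  have : (act f).comp (act g) = act (f ∘ g) := by
    apply FreeAbelianGroup.lift_ext
    intro l
    simp
  exact DFunLike.congr_fun this c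

theorem act_id (c : Ch E) : act (id : E → E) c = c := by
  have : act (id : E → E) = AddMonoidHom.id _ := by
    apply FreeAbelianGroup.lift_ext
    intro l
    simp
  exact DFunLike.congr_fun this c

/-- The two operators of the minimal resolution: `τ - 1` in odd degrees and the norm in even
degrees. -/
noncomputable def Xop (τ : E → E) (p : ℕ) (a : ℕ) : Ch E →+ Ch E :=
  if Even a then ∑ i ∈ Finset.range p, act (τ^[i]) else act τ - AddMonoidHom.id _

theorem Xop_bd (τ : E → E) (p a : ℕ) (c : Ch E) : bd (Xop τ p a c) = Xop τ p a (bd c) := by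
  unfold Xop
  split_ifs
  · simp [AddMonoidHom.finsetSum_apply, map_sum, bd_act]
  · simp [bd_act]

theorem Xop_Xop (τ : E → E) (p a : ℕ) (hτ : τ^[p] = id) (c : Ch E) :
    Xop τ p (a + 1) (Xop τ p a c) = 0 := by
  have key : ∑ i ∈ Finset.range p, (act (τ^[i+1]) c - act (τ^[i]) c) = 0 := by
    rw [Finset.sum_range_sub (fun i => act (τ^[i]) c), hτ]
    simp
  unfold Xop
  by_cases h : Even a
  · have h1 : ¬ Even (a + 1) := by simpa [Nat.even_add_one] using h
    rw [if_neg h1, if_pos h]
    simp only [AddMonoidHom.sub_apply, AddMonoidHom.finsetSum_apply, map_sum, act_act,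
      AddMonoidHom.id_apply]
    convert key using 2
    rw [Function.iterate_succ']
  · have h1 : Even (a + 1) := by simpa [Nat.even_add_one] using h
    rw [if_pos h1, if_neg h]
    simp only [AddMonoidHom.sub_apply, AddMonoidHom.finsetSum_apply, map_sub, act_act,
      AddMonoidHom.id_apply]
    rw [← Finset.sum_sub_distrib]
    convert key using 2
    rw [Function.iterate_succ]

/-- Filling a cycle by prisms and a final cone. -/
noncomputable def fill (w : E) (H : ℕ → E → E) (R : ℕ) : Ch E →+ Ch E :=
  (cone w).comp (act (H R)) - ∑ k ∈ Finset.range R, prism (H k) (H (k + 1))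

theorem bd_fill (w : E) (H : ℕ → E → E) (R : ℕ) (h0 : H 0 = id) {c : Ch E} (hc : bd c = 0) :
    bd (fill w H R c) = c := by
  unfold fill
  simp only [AddMonoidHom.sub_apply, AddMonoidHom.comp_apply, AddMonoidHom.finsetSum_apply,
    map_sub, map_sum, bd_cone, bd_act, bd_prism, hc, map_zero, sub_zero]
  rw [Finset.sum_range_sub (fun i => act (H i) c), h0, act_id]
  abel

/-- The minimal resolution system. -/
noncomputable def es (τ : E → E) (p : ℕ) (v : ℕ → E) (H : E → ℕ → E → E) (R : ℕ) : ℕ → Ch E
  | 0 => of [v 0]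
  | (a + 1) => fill (v (a + 1)) (H (v (a + 1))) R (Xop τ p (a + 1) (es τ p v H R a))

theorem bd_es (τ : E → E) (p : ℕ) (hτ : τ^[p] = id) (v : ℕ → E) (H : E → ℕ → E → E)
    (hH : ∀ w, H w 0 = id) (R : ℕ) (a : ℕ) :
    bd (es τ p v H R (a + 1)) = Xop τ p (a + 1) (es τ p v H R a) := by
  rw [es]
  apply bd_fill _ _ _ (hH _)
  induction a with
  | zero =>
    rw [Xop_bd, es]
    simp [Xop]
  | succ a ih =>
    rw [Xop_bd]
    have : bd (es τ p v H R (a + 1)) = Xop τ p (a + 1) (es τ p v H R a) := by
      rw [es]
      exact bd_fill _ _ _ (hH _) ih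
    rw [this, Xop_Xop τ p (a + 1) hτ]

/-! ### The cochains -/

section cochains

variable {p : ℕ}

/-- The integral difference cochain attached to a labelling. -/
def bCo (κ : E → ZMod p) (x y : E) : ℤ := (κ y - κ x).valMinAbs

/-- The integral `2`-cocycle attached to a labelling. -/
def βCo (κ : E → ZMod p) (x y z : E) : ℤ := (bCo κ y z - bCo κ x z + bCo κ x y) / p

theorem p_mul_βCo [NeZero p] (κ : E → ZMod p) (x y z : E) :
    (p : ℤ) * βCo κ x y z = bCo κ y z - bCo κ x z + bCo κ x y := by
  unfold βCo
  apply Int.mul_ediv_cancel'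
  rw [← ZMod.intCast_zmod_eq_zero_iff_dvd]
  simp only [bCo, Int.cast_add, Int.cast_sub, ZMod.coe_valMinAbs]
  ring

theorem βCo_cocyc [NeZero p] (κ : E → ZMod p) (x y z w : E) :
    βCo κ y z w - βCo κ x z w + βCo κ x y w - βCo κ x y z = 0 := by
  have hp : (p : ℤ) ≠ 0 := by exact_mod_cast NeZero.ne p
  apply mul_left_cancel₀ hp
  have h1 := p_mul_βCo κ y z w
  have h2 := p_mul_βCo κ x z w
  have h3 := p_mul_βCo κ x y w
  have h4 := p_mul_βCo κ x y z
  linear_combination h1 - h2 + h3 - h4

/-- The product cocycles. -/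
def Pc (κ : ℕ → E → ZMod p) : ℕ → List E → ℤ
  | 0 => unitC
  | (j + 1) => cup2 (βCo (κ j)) (Pc κ j)

theorem Pc_cocyc [NeZero p] (κ : ℕ → E → ZMod p) (j : ℕ) : Cocyc (Pc κ j) := by
  induction j with
  | zero => exact unitC_cocyc
  | succ j ih => exact cup2_cocyc (βCo_cocyc (κ j)) ih

theorem Pc_nil (κ : ℕ → E → ZMod p) (j : ℕ) : Pc κ j [] = 0 := by
  cases j <;> simp [Pc, unitC, cup2]

/-- Equivariance of the labellings at the points of a list. -/
def EqvAt (τ : E → E) (κ : ℕ → E → ZMod p) (x : E) : Prop :=
  ∀ j i : ℕ, κ j (τ^[i] x) = κ j x + i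

theorem Pc_map (τ : E → E) (κ : ℕ → E → ZMod p) (i j : ℕ) (l : List E)
    (hl : ∀ x ∈ l, EqvAt τ κ x) : Pc κ j (l.map (τ^[i])) = Pc κ j l := by
  induction j generalizing l with
  | zero =>
    match l with
    | [] => simp [Pc, unitC]
    | [x] => simp [Pc, unitC]
    | (x :: y :: r) => simp [Pc, unitC]
  | succ j ih =>
    match l with
    | [] => simp [Pc, cup2]
    | [x] => simp [Pc, cup2]
    | [x, y] => simp [Pc, cup2]
    | (x :: y :: z :: r) =>
      have hx := hl x (by simp) j i
      have hy := hl y (by simp) j i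
      have hz := hl z (by simp) j i
      have ih' := ih (z :: r) (fun w hw => hl w (by simp at hw ⊢; tauto))
      simp only [List.map_cons] at ih'
      simp only [Pc, cup2, List.map_cons, ih']
      congr 1
      unfold βCo bCo
      rw [hx, hy, hz]
      simp

theorem ev_cast {p : ℕ} (P : List E → ℤ) (c : Ch E) :
    ((ev P c : ℤ) : ZMod p) = ev (fun l => (P l : ZMod p)) c := by
  have : (Int.castAddHom (ZMod p)).comp (ev P) = ev (fun l => (P l : ZMod p)) := by
    apply FreeAbelianGroup.lift_ext
    intro l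
    simp
  exact DFunLike.congr_fun this c

theorem Cocyc.cast {P : List E → ℤ} (h : Cocyc P) : Cocyc (fun l => (P l : ZMod p)) := by
  intro l
  rw [← ev_cast, h l, Int.cast_zero]

theorem ev_cup1_chain {A : Type*} [CommRing A] (b : E → E → A) {P : List E → A} (hP : Cocyc P)
    (c : Ch E) :
    ev (cup1 b P) (bd c) = ev (cup2 (fun x y z => b y z - b x z + b x y) P) c := by
  have : (ev (cup1 b P)).comp bd = ev (cup2 (fun x y z => b y z - b x z + b x y) P) := by
    apply FreeAbelianGroup.lift_ext
    intro l
    simp only [AddMonoidHom.comp_apply, ev_cup1 b hP, ev_of]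
  exact DFunLike.congr_fun this c

theorem ev_cup0_chain {A : Type*} [CommRing A] (κ : E → A) {P : List E → A} (hP : Cocyc P)
    (c : Ch E) :
    ev (cup0 κ P) (bd c) = ev (cup1 (fun x y => κ y - κ x) P) c := by
  have : (ev (cup0 κ P)).comp bd = ev (cup1 (fun x y => κ y - κ x) P) := by
    apply FreeAbelianGroup.lift_ext
    intro l
    simp only [AddMonoidHom.comp_apply, ev_cup0 κ hP, ev_of]
  exact DFunLike.congr_fun this c

theorem ev_act {A : Type*} [AddCommGroup A] (P : List E → A) (f : E → E) (c : Ch E) :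
    ev P (act f c) = ev (fun l => P (l.map f)) c := by
  have : (ev P).comp (act f) = ev (fun l => P (l.map f)) := by
    apply FreeAbelianGroup.lift_ext
    intro l
    simp
  exact DFunLike.congr_fun this c

/-- The evaluation of the product cocycle on the resolution system is `1` modulo `p`. -/
theorem ev_Pc_es [NeZero p] (τ : E → E) (hτ : τ^[p] = id) (v : ℕ → E) (H : E → ℕ → E → E)
    (hH : ∀ w, H w 0 = id) (R : ℕ) (κ : ℕ → E → ZMod p) (N : ℕ) (S : Set (List E))
    (hS : ∀ l ∈ S, ∀ x ∈ l, EqvAt τ κ x)
    (hes : ∀ a ≤ 2 * N, es τ p v H R a ∈ AddSubgroup.closure (of '' S)) :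
    ∀ j ≤ N, ((ev (Pc κ j) (es τ p v H R (2 * j)) : ℤ) : ZMod p) = 1 := by
  intro j
  induction j with
  | zero =>
    intro _
    simp [es, Pc, unitC]
  | succ j ih =>
    intro hj
    have ih' := ih (by omega)
    have hp : (p : ℤ) ≠ 0 := by exact_mod_cast NeZero.ne p
    have hco := Pc_cocyc κ j
    -- first step
    have h1 : ev (cup1 (bCo (κ j)) (Pc κ j)) (bd (es τ p v H R (2 * j + 1 + 1)))
        = (p : ℤ) * ev (Pc κ (j + 1)) (es τ p v H R (2 * j + 1 + 1)) := by
      rw [ev_cup1_chain _ hco]
      have : cup2 (fun x y z => bCo (κ j) y z - bCo (κ j) x z + bCo (κ j) x y) (Pc κ j)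
          = fun l => (p : ℤ) * Pc κ (j + 1) l := by
        funext l
        rw [Pc, ← cup2_mul_left]
        congr 1
        funext x y z
        rw [p_mul_βCo]
      rw [this, ev_mul_left]
    have h2 : ev (cup1 (bCo (κ j)) (Pc κ j)) (bd (es τ p v H R (2 * j + 1 + 1)))
        = (p : ℤ) * ev (cup1 (bCo (κ j)) (Pc κ j)) (es τ p v H R (2 * j + 1)) := by
      rw [bd_es τ p hτ v H hH]
      have hev : Even (2 * j + 1 + 1) := ⟨j + 1, by ring⟩
      unfold Xop
      rw [if_pos hev, AddMonoidHom.finsetSum_apply, map_sum]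
      have : ∀ i ∈ Finset.range p, ev (cup1 (bCo (κ j)) (Pc κ j))
          (act (τ^[i]) (es τ p v H R (2 * j + 1)))
          = ev (cup1 (bCo (κ j)) (Pc κ j)) (es τ p v H R (2 * j + 1)) := by
        intro i _
        rw [ev_act]
        apply ev_congr (S := S) _ (hes _ (by omega))
        intro l hl
        match l, hl with
        | [], _ => simp [cup1]
        | [x], _ => simp [cup1]
        | (x :: y :: r), hl =>
          have hx := hS _ hl x (by simp) j i
          have hy := hS _ hl y (by simp) j i
          have hm := Pc_map τ κ i j (y :: r) (fun w hw => hS _ hl w (by simp at hw ⊢; tauto))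
          simp only [List.map_cons] at hm
          simp only [List.map_cons, cup1, hm]
          congr 1
          unfold bCo
          rw [hx, hy]
          simp
      rw [Finset.sum_congr rfl this]
      simp
    have h3 : ev (Pc κ (j + 1)) (es τ p v H R (2 * (j + 1)))
        = ev (cup1 (bCo (κ j)) (Pc κ j)) (es τ p v H R (2 * j + 1)) := by
      have : 2 * (j + 1) = 2 * j + 1 + 1 := by ring
      rw [this]
      apply mul_left_cancel₀ hp
      rw [← h1, h2]
    rw [h3, ev_cast]
    have h4 : (fun l => ((cup1 (bCo (κ j)) (Pc κ j) l : ℤ) : ZMod p))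
        = cup1 (fun x y => κ j y - κ j x) (fun l => (Pc κ j l : ZMod p)) := by
      funext l
      match l with
      | [] => simp [cup1]
      | [x] => simp [cup1]
      | (x :: y :: r) => simp [cup1, bCo]
    rw [h4, ← ev_cup0_chain _ hco.cast, bd_es τ p hτ v H hH]
    have hodd : ¬ Even (2 * j + 1) := by simp
    unfold Xop
    rw [if_neg hodd, AddMonoidHom.sub_apply, map_sub, ev_act, AddMonoidHom.id_apply]
    rw [ev_cast] at ih'
    rw [← ih']
    have h5 : ev (fun l => cup0 (κ j) (fun l => (Pc κ j l : ZMod p)) (l.map τ))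
        (es τ p v H R (2 * j)) =
        ev (fun l => cup0 (κ j) (fun l => (Pc κ j l : ZMod p)) l + (Pc κ j l : ZMod p))
        (es τ p v H R (2 * j)) := by
      apply ev_congr (S := S) _ (hes _ (by omega))
      intro l hl
      match l, hl with
      | [], _ => simp [cup0, Pc_nil]
      | (x :: r), hl =>
        have hx := hS _ hl x (by simp) j 1
        have hm := Pc_map τ κ 1 j (x :: r) (fun w hw => hS _ hl w hw)
        simp only [List.map_cons, Function.iterate_one] at hm hx
        simp only [List.map_cons, cup0, hm, hx]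
        push_cast
        ring
    rw [h5]
    have h6 : ev (fun l => cup0 (κ j) (fun l => (Pc κ j l : ZMod p)) l + (Pc κ j l : ZMod p))
        = ev (cup0 (κ j) (fun l => (Pc κ j l : ZMod p))) + ev (fun l => (Pc κ j l : ZMod p)) := by
      apply FreeAbelianGroup.lift_ext
      intro l
      simp
    rw [h6]
    simp

/-- The product cocycle vanishes on lists where one of the factors vanishes. -/
theorem Pc_eq_zero (κ : ℕ → E → ZMod p) (j : ℕ) (l : List E)
    (h : ∀ x ∈ l, ∀ y ∈ l, ∀ z ∈ l, βCo (κ j) x y z = 0) (n : ℕ) (hn : j < n) :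
    Pc κ n l = 0 := by
  induction n generalizing l with
  | zero => omega
  | succ n ih =>
    match l with
    | [] => simp [Pc, cup2]
    | [x] => simp [Pc, cup2]
    | [x, y] => simp [Pc, cup2]
    | (x :: y :: z :: r) =>
      by_cases hjn : j = n
      · subst hjn
        simp only [Pc, cup2]
        rw [h x (by simp) y (by simp) z (by simp), zero_mul]
      · simp only [Pc, cup2]
        rw [ih (z :: r) (fun a ha b hb c hc => h a (by simp at ha ⊢; tauto) b
          (by simp at hb ⊢; tauto) c (by simp at hc ⊢; tauto)) (by omega), mul_zero]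

end cochains

end Pool.Agent.Helper46.MeanDim
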