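import Mathlib
import Pool.Agent.Helper46.MeanDim.Resol

set_option autoImplicit false

/-!
Sectors of the plane with labels in the cyclic group.
-/

namespace Pool.Agent.Helper46.MeanDim

open Real

/-- The primitive `p`-th root of unity. -/
noncomputable def ζr (p : ℕ) : ℂ := Complex.exp (((2 * π / p : ℝ) : ℂ) * Complex.I)

theorem ζr_ne_zero (p : ℕ) : ζr p ≠ 0 := Complex.exp_ne_zero _

/-- The sector label of a complex number. -/
noncomputable def sec (p : ℕ) (z : ℂ) : ZMod p := ((⌊(p : ℝ) * z.arg / (2 * π)⌋ : ℤ) : ZMod p)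

theorem sec_rot (p : ℕ) (hp : 0 < p) {z : ℂ} (hz : z ≠ 0) : sec p (ζr p * z) = sec p z + 1 := by
  have h1 : (((ζr p * z).arg : ℝ) : Real.Angle) = ((2 * π / p + z.arg : ℝ) : Real.Angle) := by
    rw [Complex.arg_mul_coe_angle (ζr_ne_zero p) hz]
    have : ((ζr p).arg : Real.Angle) = ((2 * π / p : ℝ) : Real.Angle) := by
      unfold ζr
      rw [Complex.arg_exp_mul_I, Real.Angle.coe_toIocMod]
    rw [this, ← Real.Angle.coe_add]
  obtain ⟨k, hk⟩ := Real.Angle.angle_eq_iff_two_pi_dvd_sub.1 h1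
  have h2 : (p : ℝ) * (ζr p * z).arg / (2 * π) = (p : ℝ) * z.arg / (2 * π) + ((1 + p * k : ℤ) : ℝ) := by
    have hp' : (p : ℝ) ≠ 0 := by positivity
    have : (ζr p * z).arg = 2 * π / p + z.arg + 2 * π * k := by linarith
    rw [this]
    push_cast
    field_simp
    ring
  unfold sec
  rw [h2, Int.floor_add_intCast]
  push_cast
  simp

theorem sec_rot_pow (p : ℕ) (hp : 0 < p) {z : ℂ} (hz : z ≠ 0) (i : ℕ) :
    sec p (ζr p ^ i * z) = sec p z + i := by
  induction i with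
  | zero => simp
  | succ i ih =>
    have : ζr p ^ (i + 1) * z = ζr p * (ζr p ^ i * z) := by ring
    rw [this, sec_rot p hp (mul_ne_zero (pow_ne_zero _ (ζr_ne_zero p)) hz), ih]
    push_cast
    ring

theorem exists_near_one (p : ℕ) (hp : 0 < p) :
    ∃ η > 0, ∀ w : ℂ, ‖w - 1‖ < η → |w.arg| < 2 * π / p := by
  have hcont : ContinuousAt Complex.arg 1 := Complex.continuousAt_arg (by simp)
  have hpos : 0 < 2 * π / (p : ℝ) := by positivity
  obtain ⟨η, hη, h⟩ := Metric.continuousAt_iff.1 hcont (2 * π / p) hpos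
  refine ⟨η, hη, fun w hw => ?_⟩
  have := h (x := w) (by rwa [dist_eq_norm])
  simpa using this

theorem sec_near (p : ℕ) [NeZero p] (hp : 3 ≤ p) {z w : ℂ} (hz : z ≠ 0) (hw : w ≠ 0)
    (h : |(w / z).arg| < 2 * π / p) : |(sec p w - sec p z).valMinAbs| ≤ 1 := by
  have hp0 : (0 : ℝ) < p := by exact_mod_cast (by omega : 0 < p)
  have h1 : ((w.arg : ℝ) : Real.Angle) = (((w / z).arg + z.arg : ℝ) : Real.Angle) := by
    have : w = (w / z) * z := by field_simp
    conv_lhs => rw [this]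
    rw [Complex.arg_mul_coe_angle (div_ne_zero hw hz) hz, Real.Angle.coe_add]
  obtain ⟨k, hk⟩ := Real.Angle.angle_eq_iff_two_pi_dvd_sub.1 h1
  set δ : ℝ := (p : ℝ) * (w / z).arg / (2 * π) with hδ
  have hδ1 : |δ| < 1 := by
    rw [hδ, abs_div, abs_mul, abs_of_pos hp0, abs_of_pos (by positivity : (0:ℝ) < 2 * π),
      div_lt_one (by positivity)]
    calc (p : ℝ) * |(w / z).arg| < p * (2 * π / p) := by gcongr
    _ = 2 * π := by field_simp
  have h2 : (p : ℝ) * w.arg / (2 * π) = ((p : ℝ) * z.arg / (2 * π) + δ) + ((p * k : ℤ) : ℝ) := by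
    have : w.arg = (w / z).arg + z.arg + 2 * π * k := by linarith
    rw [this, hδ]
    push_cast
    field_simp
    ring
  have h3 : sec p w - sec p z = ((⌊(p : ℝ) * z.arg / (2 * π) + δ⌋ - ⌊(p : ℝ) * z.arg / (2 * π)⌋ : ℤ) : ZMod p) := by
    unfold sec
    rw [h2, Int.floor_add_intCast]
    push_cast
    simp
  rw [h3]
  set x : ℝ := (p : ℝ) * z.arg / (2 * π) with hx
  rw [abs_lt] at hδ1
  have h4 : ⌊x + δ⌋ - ⌊x⌋ ≤ 1 := by
    have : ⌊x + δ⌋ ≤ ⌊x⌋ + 1 := by
      have e : ⌊x + δ⌋ < ⌊x⌋ + 2 := by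
        rw [Int.floor_lt]
        push_cast
        have := Int.lt_floor_add_one x
        linarith
      omega
    omega
  have h5 : -1 ≤ ⌊x + δ⌋ - ⌊x⌋ := by
    have : ⌊x⌋ - 1 ≤ ⌊x + δ⌋ := by
      rw [Int.le_floor]
      push_cast
      have := Int.floor_le x
      linarith
    omega
  have h6 : ((⌊x + δ⌋ - ⌊x⌋ : ℤ) : ZMod p).valMinAbs = ⌊x + δ⌋ - ⌊x⌋ := by
    rw [ZMod.valMinAbs_spec]
    refine ⟨rfl, ?_⟩
    constructor <;> omega
  rw [h6, abs_le]
  exact ⟨h5, h4⟩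

end Pool.Agent.Helper46.MeanDim
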