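import Mathlib
import Pool.Agent.Helper46.MeanDim.Resol

set_option autoImplicit false

/-!
The resolution system is supported on short lists in convex hulls.
-/

namespace Pool.Agent.Helper46.MeanDim

open FreeAbelianGroup

variable {E : Type*} [NormedAddCommGroup E] [NormedSpace ℝ E]

/-- The contraction towards `w`, in `R + 1` steps. -/
noncomputable def Hc (R : ℕ) (w : E) (k : ℕ) (x : E) : E :=
  (1 - (k : ℝ) / (R + 1)) • x + ((k : ℝ) / (R + 1)) • w

theorem Hc_zero (R : ℕ) (w : E) : Hc R w 0 = id := by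
  funext x
  simp [Hc]

theorem Hc_mem {C : Set E} (hC : Convex ℝ C) {w x : E} (hw : w ∈ C) (hx : x ∈ C) {R k : ℕ}
    (hk : k ≤ R + 1) : Hc R w k x ∈ C := by
  unfold Hc
  have h1 : (0 : ℝ) ≤ (k : ℝ) / (R + 1) := by positivity
  have h2 : (k : ℝ) / (R + 1) ≤ 1 := by
    rw [div_le_one (by positivity)]
    exact_mod_cast hk
  exact hC hx hw (by linarith) h1 (by ring)

theorem Hc_dist_le {w x y : E} {R k : ℕ} (hk : k ≤ R + 1) :
    dist (Hc R w k x) (Hc R w k y) ≤ dist x y := by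
  unfold Hc
  have h1 : (0 : ℝ) ≤ (k : ℝ) / (R + 1) := by positivity
  have h2 : (k : ℝ) / (R + 1) ≤ 1 := by
    rw [div_le_one (by positivity)]
    exact_mod_cast hk
  rw [dist_add_right, dist_eq_norm, ← smul_sub, norm_smul, dist_eq_norm,
    Real.norm_of_nonneg (by linarith)]
  have := norm_nonneg (x - y)
  nlinarith

theorem Hc_dist_step {w x : E} {R k : ℕ} (hx : ‖x‖ ≤ 1) (hw : ‖w‖ ≤ 1) :
    dist (Hc R w k x) (Hc R w (k + 1) x) ≤ 2 / (R + 1) := by
  have : Hc R w k x - Hc R w (k + 1) x = (1 / ((R : ℝ) + 1)) • (x - w) := by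
    unfold Hc
    push_cast
    rw [add_div, smul_sub]
    module
  rw [dist_eq_norm, this, norm_smul, Real.norm_of_nonneg (by positivity)]
  have h : ‖x - w‖ ≤ 2 := by
    calc ‖x - w‖ ≤ ‖x‖ + ‖w‖ := norm_sub_le _ _
    _ ≤ 2 := by linarith
  calc 1 / ((R : ℝ) + 1) * ‖x - w‖ ≤ 1 / ((R : ℝ) + 1) * 2 := by gcongr
  _ = 2 / (R + 1) := by ring

theorem Hc_dist_end {w x : E} {R : ℕ} (hx : ‖x‖ ≤ 1) (hw : ‖w‖ ≤ 1) :
    dist w (Hc R w R x) ≤ 2 / (R + 1) := by
  have : w - Hc R w R x = (1 / ((R : ℝ) + 1)) • (w - x) := by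
    unfold Hc
    have h0 : ((R : ℝ) + 1) ≠ 0 := by positivity
    have h : (R : ℝ) / (R + 1) = 1 - 1 / (R + 1) := by field_simp; ring
    rw [h]
    module
  rw [dist_eq_norm, this, norm_smul, Real.norm_of_nonneg (by positivity)]
  have h : ‖w - x‖ ≤ 2 := by
    calc ‖w - x‖ ≤ ‖w‖ + ‖x‖ := norm_sub_le _ _
    _ ≤ 2 := by linarith
  calc 1 / ((R : ℝ) + 1) * ‖w - x‖ ≤ 1 / ((R : ℝ) + 1) * 2 := by gcongr
  _ = 2 / (R + 1) := by ring

/-- The convex hull of the first `a + 1` vertices, rotated by the exponents `i`. -/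
def Hull (τ : E → E) (v : ℕ → E) (i : ℕ → ℕ) (a : ℕ) : Set E :=
  convexHull ℝ ((fun j => (τ^[i j]) (v j)) '' Set.Iic a)

/-- Lists of diameter at most `δ` in one of the hulls. -/
def GoodL (τ : E → E) (v : ℕ → E) (a : ℕ) (δ : ℝ) : Set (List E) :=
  {l | ∃ i : ℕ → ℕ, (∀ x ∈ l, x ∈ Hull τ v i a) ∧ ∀ x ∈ l, ∀ y ∈ l, dist x y ≤ δ}

theorem Hull_norm (τ : E →ₗᵢ[ℝ] E) (v : ℕ → E) (hv : ∀ j, ‖v j‖ ≤ 1) (i : ℕ → ℕ) (a : ℕ) {x : E}
    (hx : x ∈ Hull τ v i a) : ‖x‖ ≤ 1 := by
  have : Hull τ v i a ⊆ Metric.closedBall 0 1 := by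
    apply convexHull_min _ (convex_closedBall 0 1)
    rintro _ ⟨j, _, rfl⟩
    rw [mem_closedBall_zero_iff]
    have : ∀ n (y : E), ‖(τ^[n]) y‖ = ‖y‖ := by
      intro n
      induction n with
      | zero => intro y; rfl
      | succ n ih => intro y; rw [Function.iterate_succ_apply', τ.norm_map, ih]
    simpa [this] using hv j
  simpa using this hx

theorem Hull_act (τ : E →ₗᵢ[ℝ] E) (v : ℕ → E) (i : ℕ → ℕ) (a n : ℕ) {x : E}
    (hx : x ∈ Hull τ v i a) : (τ^[n]) x ∈ Hull τ v (fun j => n + i j) a := by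
  have h1 : ((τ : E → E)^[n]) = ((τ.toLinearMap ^ n : E →ₗ[ℝ] E) : E → E) := by
    rw [Module.End.coe_pow]; rfl
  rw [h1]
  have : (τ.toLinearMap ^ n) '' (Hull τ v i a) = Hull τ v (fun j => n + i j) a := by
    unfold Hull
    rw [LinearMap.image_convexHull, Set.image_image]
    congr 1
    apply Set.image_congr
    intro j _
    rw [← h1, Function.iterate_add_apply]
  rw [← this]
  exact Set.mem_image_of_mem _ hx

theorem isometry_iter (τ : E →ₗᵢ[ℝ] E) (n : ℕ) : Isometry ((τ : E → E)^[n]) := by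
  induction n with
  | zero => exact isometry_id
  | succ n ih =>
    rw [Function.iterate_succ]
    exact ih.comp τ.isometry

theorem GoodL_act (τ : E →ₗᵢ[ℝ] E) (v : ℕ → E) (a n : ℕ) (δ : ℝ) {l : List E}
    (hl : l ∈ GoodL τ v a δ) : l.map (τ^[n]) ∈ GoodL τ v a δ := by
  obtain ⟨i, h1, h2⟩ := hl
  refine ⟨fun j => n + i j, ?_, ?_⟩
  · intro x hx
    obtain ⟨y, hy, rfl⟩ := List.mem_map.1 hx
    exact Hull_act τ v i a n (h1 y hy)
  · intro x hx y hy
    obtain ⟨x', hx', rfl⟩ := List.mem_map.1 hx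
    obtain ⟨y', hy', rfl⟩ := List.mem_map.1 hy
    rw [(isometry_iter τ n).dist_eq]
    exact h2 x' hx' y' hy'

omit [NormedAddCommGroup E] [NormedSpace ℝ E] in
theorem prism_mem (f g : E → E) (S : Set E) (l : List E) (h : ∀ x ∈ l, f x ∈ S ∧ g x ∈ S) :
    prism f g (of l) ∈ AddSubgroup.closure (of '' {m : List E | ∀ z ∈ m, z ∈ S}) := by
  induction l with
  | nil => simp
  | cons x l ih =>
    rw [prism_cons]
    apply sub_mem
    · apply AddSubgroup.subset_closure
      refine ⟨_, ?_, rfl⟩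
      intro z hz
      simp only [List.mem_cons, List.mem_map] at hz
      rcases hz with rfl | rfl | ⟨y, hy, rfl⟩
      · exact (h x (by simp)).1
      · exact (h x (by simp)).2
      · exact (h y (by simp [hy])).2
    · apply map_mem_closure (cone (f x)) _ (ih (fun y hy => h y (by simp [hy])))
      intro m hm
      rw [cone_of]
      apply AddSubgroup.subset_closure
      refine ⟨_, ?_, rfl⟩
      intro z hz
      rcases List.mem_cons.1 hz with rfl | hz
      · exact (h x (by simp)).1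
      · exact hm z hz

theorem fill_mem (τ : E →ₗᵢ[ℝ] E) (v : ℕ → E) (hv : ∀ j, ‖v j‖ ≤ 1) (R a : ℕ) (δ : ℝ)
    (hδ : 0 ≤ δ) {c : Ch E} (hc : c ∈ AddSubgroup.closure (of '' GoodL τ v a δ)) :
    fill (v (a + 1)) (Hc R (v (a + 1))) R c ∈
      AddSubgroup.closure (of '' GoodL τ v (a + 1) (δ + 2 / (R + 1))) := by
  apply map_mem_closure _ _ hc
  intro l hl
  obtain ⟨i, h1, h2⟩ := hl
  set w := v (a + 1) with hw
  set i' : ℕ → ℕ := Function.update i (a + 1) 0 with hi'
  have hwH : w ∈ Hull τ v i' (a + 1) := by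
    apply subset_convexHull
    refine ⟨a + 1, by simp, ?_⟩
    simp [hi', hw]
  have hsub : Hull τ v i a ⊆ Hull τ v i' (a + 1) := by
    apply convexHull_mono
    rintro _ ⟨j, hj, rfl⟩
    have hja : j ≤ a := hj
    refine ⟨j, by simp; omega, ?_⟩
    have : j ≠ a + 1 := by omega
    simp [hi', this]
  have hconv : Convex ℝ (Hull τ v i' (a + 1)) := convex_convexHull _ _
  have hn : ∀ x ∈ l, ‖x‖ ≤ 1 := fun x hx => Hull_norm τ v hv i a (h1 x hx)
  have hwn : ‖w‖ ≤ 1 := hv _
  have hstep : (0 : ℝ) ≤ 2 / (R + 1) := by positivity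
  unfold fill
  rw [AddMonoidHom.sub_apply, AddMonoidHom.finsetSum_apply]
  apply sub_mem
  · rw [AddMonoidHom.comp_apply, act_of, cone_of]
    apply AddSubgroup.subset_closure
    refine ⟨_, ⟨i', ?_, ?_⟩, rfl⟩
    · intro x hx
      rcases List.mem_cons.1 hx with rfl | hx
      · exact hwH
      · obtain ⟨y, hy, rfl⟩ := List.mem_map.1 hx
        exact Hc_mem hconv hwH (hsub (h1 y hy)) (by omega)
    · intro x hx y hy
      rcases List.mem_cons.1 hx with rfl | hx
      · rcases List.mem_cons.1 hy with rfl | hy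
        · rw [dist_self]; positivity
        · obtain ⟨y', hy', rfl⟩ := List.mem_map.1 hy
          exact (Hc_dist_end (hn y' hy') hwn).trans (by linarith)
      · obtain ⟨x', hx', rfl⟩ := List.mem_map.1 hx
        rcases List.mem_cons.1 hy with rfl | hy
        · rw [dist_comm]
          exact (Hc_dist_end (hn x' hx') hwn).trans (by linarith)
        · obtain ⟨y', hy', rfl⟩ := List.mem_map.1 hy
          exact ((Hc_dist_le (by omega)).trans (h2 x' hx' y' hy')).trans (by linarith)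
  · apply AddSubgroup.sum_mem
    intro k hk
    rw [Finset.mem_range] at hk
    set S : Set E := {z | ∃ x ∈ l, z = Hc R w k x ∨ z = Hc R w (k + 1) x} with hS
    have hm := prism_mem (Hc R w k) (Hc R w (k + 1)) S l
      (fun x hx => ⟨⟨x, hx, Or.inl rfl⟩, ⟨x, hx, Or.inr rfl⟩⟩)
    refine AddSubgroup.closure_mono ?_ hm
    apply Set.image_mono
    intro m hm
    have hmem : ∀ z ∈ S, z ∈ Hull τ v i' (a + 1) := by
      rintro z ⟨x, hx, rfl | rfl⟩
      · exact Hc_mem hconv hwH (hsub (h1 x hx)) (by omega)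
      · exact Hc_mem hconv hwH (hsub (h1 x hx)) (by omega)
    have hdist : ∀ z ∈ S, ∀ z' ∈ S, dist z z' ≤ δ + 2 / (R + 1) := by
      have e1 : ∀ x ∈ l, ∀ y ∈ l, dist (Hc R w k x) (Hc R w k y) ≤ δ := fun x hx y hy =>
        (Hc_dist_le (by omega)).trans (h2 x hx y hy)
      have e2 : ∀ x ∈ l, ∀ y ∈ l, dist (Hc R w (k + 1) x) (Hc R w (k + 1) y) ≤ δ :=
        fun x hx y hy => (Hc_dist_le (by omega)).trans (h2 x hx y hy)
      have e3 : ∀ x ∈ l, ∀ y ∈ l, dist (Hc R w k x) (Hc R w (k + 1) y) ≤ δ + 2 / (R + 1) := by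
        intro x hx y hy
        calc dist (Hc R w k x) (Hc R w (k + 1) y)
            ≤ dist (Hc R w k x) (Hc R w k y) + dist (Hc R w k y) (Hc R w (k + 1) y) :=
              dist_triangle _ _ _
          _ ≤ δ + 2 / (R + 1) := add_le_add (e1 x hx y hy) (Hc_dist_step (hn y hy) hwn)
      rintro z ⟨x, hx, rfl | rfl⟩ z' ⟨y, hy, rfl | rfl⟩
      · exact (e1 x hx y hy).trans (by linarith)
      · exact e3 x hx y hy
      · rw [dist_comm]; exact e3 y hy x hx
      · exact (e2 x hx y hy).trans (by linarith)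
    exact ⟨i', fun x hx => hmem x (hm x hx), fun x hx y hy => hdist x (hm x hx) y (hm y hy)⟩

theorem es_mem (τ : E →ₗᵢ[ℝ] E) (p : ℕ) (v : ℕ → E) (hv : ∀ j, ‖v j‖ ≤ 1) (R a : ℕ) :
    es τ p v (Hc R) R a ∈ AddSubgroup.closure (of '' GoodL τ v a (a * (2 / (R + 1)))) := by
  induction a with
  | zero =>
    rw [es]
    apply AddSubgroup.subset_closure
    refine ⟨_, ⟨fun _ => 0, ?_, ?_⟩, rfl⟩
    · intro x hx
      simp only [List.mem_singleton] at hx
      subst hx
      apply subset_convexHull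
      exact ⟨0, by simp, by simp⟩
    · intro x hx y hy
      simp only [List.mem_singleton] at hx hy
      subst hx hy
      simp
  | succ a ih =>
    rw [es]
    have hX : Xop τ p (a + 1) (es τ p v (Hc R) R a) ∈
        AddSubgroup.closure (of '' GoodL τ v a (a * (2 / (R + 1)))) := by
      have hact : ∀ n, act (τ^[n]) (es τ p v (Hc R) R a) ∈
          AddSubgroup.closure (of '' GoodL τ v a (a * (2 / (R + 1)))) := by
        intro n
        apply map_mem_closure _ _ ih
        intro l hl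
        rw [act_of]
        exact AddSubgroup.subset_closure ⟨_, GoodL_act τ v a n _ hl, rfl⟩
      unfold Xop
      split_ifs
      · rw [AddMonoidHom.finsetSum_apply]
        exact AddSubgroup.sum_mem _ (fun i _ => hact i)
      · rw [AddMonoidHom.sub_apply]
        exact sub_mem (by simpa using hact 1) ih
    have := fill_mem τ v hv R a _ (by positivity) hX
    have e : ((a + 1 : ℕ) : ℝ) * (2 / ((R : ℝ) + 1)) = a * (2 / ((R : ℝ) + 1)) + 2 / ((R : ℝ) + 1) := by
      push_cast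
      ring
    rw [e]
    exact this

end Pool.Agent.Helper46.MeanDim
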