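import Mathlib
import Pool.Agent.Helper46.MeanDim.Small
import Pool.Agent.Helper46.MeanDim.Sector

set_option autoImplicit false

/-!
A theorem of Borsuk-Ulam type for the cyclic group of prime order.
-/

namespace Pool.Agent.Helper46.MeanDim

open FreeAbelianGroup

variable {E : Type*} [NormedAddCommGroup E] [NormedSpace ℝ E]

omit [NormedAddCommGroup E] [NormedSpace ℝ E] in
theorem iterate_mod_eq (τ : E → E) (p : ℕ) (hτ : τ^[p] = id) (i : ℕ) : τ^[i] = τ^[i % p] := by
  conv_lhs => rw [← Nat.mod_add_div i p]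
  rw [Function.iterate_add, Function.iterate_mul, hτ, Function.iterate_id]
  rfl

theorem Hull_congr (τ : E → E) (v : ℕ → E) (i i' : ℕ → ℕ) (a : ℕ)
    (h : ∀ j ≤ a, (τ^[i j]) (v j) = (τ^[i' j]) (v j)) : Hull τ v i a = Hull τ v i' a := by
  unfold Hull
  congr 1
  apply Set.image_congr
  intro j hj
  exact h j hj

theorem union_Hull_compact (τ : E → E) (p : ℕ) (hp : 0 < p) (hτ : τ^[p] = id) (v : ℕ → E)
    (a : ℕ) : IsCompact (⋃ i : ℕ → ℕ, Hull τ v i a) := by
  have h : (⋃ i : ℕ → ℕ, Hull τ v i a) =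
      ⋃ f : Fin (a + 1) → Fin p, Hull τ v (fun j => if hj : j < a + 1 then (f ⟨j, hj⟩ : ℕ) else 0) a := by
    apply Set.Subset.antisymm
    · apply Set.iUnion_subset
      intro i
      apply Set.subset_iUnion_of_subset (fun j => ⟨i j % p, Nat.mod_lt _ hp⟩)
      apply le_of_eq
      apply Hull_congr
      intro j hj
      have : j < a + 1 := by omega
      simp only [this, dite_true]
      rw [iterate_mod_eq τ p hτ (i j)]
    · apply Set.iUnion_subset
      intro f
      exact Set.subset_iUnion_of_subset _ le_rfl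
  rw [h]
  apply isCompact_iUnion
  intro f
  apply Set.Finite.isCompact_convexHull
  exact (Set.finite_Iic a).image _

theorem Hull_mono (τ : E → E) (v : ℕ → E) (i : ℕ → ℕ) {a b : ℕ} (h : a ≤ b) :
    Hull τ v i a ⊆ Hull τ v i b :=
  convexHull_mono (Set.image_mono (Set.Iic_subset_Iic.2 h))

theorem GoodL_mono (τ : E → E) (v : ℕ → E) {a b : ℕ} (h : a ≤ b) {δ δ' : ℝ} (hδ : δ ≤ δ') :
    GoodL τ v a δ ⊆ GoodL τ v b δ' := by
  rintro l ⟨i, h1, h2⟩
  exact ⟨i, fun x hx => Hull_mono τ v i h (h1 x hx), fun x hx y hy => (h2 x hx y hy).trans hδ⟩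

/-- **Borsuk-Ulam for the cyclic group of prime order `p ≥ 5`.** -/
theorem borsuk_ulam (p : ℕ) (hp : 5 ≤ p) (τ : E →ₗᵢ[ℝ] E) (hτ : (τ : E → E)^[p] = id)
    (N : ℕ) (v : ℕ → E) (hv : ∀ j, ‖v j‖ ≤ 1)
    (h0 : ∀ i : ℕ → ℕ, (0 : E) ∉ Hull τ v i (2 * N)) (h : E → Fin N → ℂ)
    (hc : ContinuousOn h {0}ᶜ) (heq : ∀ x ≠ 0, h (τ x) = ζr p • h x) :
    ∃ x ≠ 0, h x = 0 := by
  classical
  have : NeZero p := ⟨by omega⟩
  have hp0 : 0 < p := by omega
  by_contra hcon
  push Not at hcon
  -- the compact set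
  set K : Set E := ⋃ i : ℕ → ℕ, Hull τ v i (2 * N) with hK
  have hKc : IsCompact K := union_Hull_compact τ p hp0 hτ v (2 * N)
  have hK0 : ∀ x ∈ K, x ≠ 0 := by
    intro x hx hx0
    subst hx0
    obtain ⟨i, hi⟩ := Set.mem_iUnion.1 hx
    exact h0 i hi
  have hv0 : v 0 ∈ K := by
    apply Set.mem_iUnion.2 ⟨fun _ => 0, ?_⟩
    apply subset_convexHull
    exact ⟨0, by simp, by simp⟩
  have hcK : ContinuousOn h K := hc.mono (fun x hx => by simpa using hK0 x hx)
  -- lower bound
  obtain ⟨x₀, hx₀, hmin⟩ := hKc.exists_isMinOn ⟨v 0, hv0⟩ hcK.norm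
  set c₀ : ℝ := ‖h x₀‖ with hc₀
  have hc₀pos : 0 < c₀ := norm_pos_iff.2 (hcon x₀ (hK0 x₀ hx₀))
  have hlow : ∀ x ∈ K, c₀ ≤ ‖h x‖ := fun x hx => hmin hx
  have hN : 0 < N := by
    rcases Nat.eq_zero_or_pos N with hN | hN
    · subst hN
      exact absurd (Subsingleton.elim _ _) (hcon x₀ (hK0 x₀ hx₀))
    · exact hN
  obtain ⟨η, hη, hnear⟩ := exists_near_one p hp0
  -- uniform continuity
  set κ₀ : ℝ := min (c₀ / 4) (η * c₀ / 4) with hκ₀
  have hκ₀pos : 0 < κ₀ := by positivity
  have huc := hKc.uniformContinuousOn_of_continuous hcK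
  rw [Metric.uniformContinuousOn_iff] at huc
  obtain ⟨δ, hδ, huc⟩ := huc κ₀ hκ₀pos
  obtain ⟨R, hR⟩ : ∃ R : ℕ, (2 * N : ℕ) * (2 / ((R : ℝ) + 1)) < δ := by
    obtain ⟨R, hR⟩ := exists_nat_gt ((2 * N : ℕ) * 2 / δ)
    refine ⟨R, ?_⟩
    rw [← mul_div_assoc, div_lt_iff₀ (by positivity)]
    rw [div_lt_iff₀ hδ] at hR
    nlinarith
  set S : Set (List E) := GoodL τ v (2 * N) ((2 * N : ℕ) * (2 / ((R : ℝ) + 1))) with hS
  have hSK : ∀ l ∈ S, ∀ x ∈ l, x ∈ K := by
    rintro l ⟨i, h1, _⟩ x hx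
    exact Set.mem_iUnion.2 ⟨i, h1 x hx⟩
  have hes : ∀ a ≤ 2 * N, es τ p v (Hc R) R a ∈ AddSubgroup.closure (of '' S) := by
    intro a ha
    refine AddSubgroup.closure_mono (Set.image_mono ?_) (es_mem τ p v hv R a)
    apply GoodL_mono τ v ha
    gcongr
  -- the labellings
  set c : Set (Fin N) → ℕ → Fin N := fun S j =>
    if hj : ∃ h' : j < N, (⟨j, h'⟩ : Fin N) ∈ S then ⟨j, hj.choose⟩
    else if h2 : S.Nonempty then h2.some else ⟨0, hN⟩ with hcdef
  have hcmem : ∀ S : Set (Fin N), S.Nonempty → ∀ j, c S j ∈ S := by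
    intro S hS j
    simp only [hcdef]
    split_ifs with h1
    · exact h1.choose_spec
    · exact hS.some_mem
  have hcj : ∀ (S : Set (Fin N)) (j : Fin N), j ∈ S → c S j = j := by
    intro S j hj
    simp only [hcdef]
    have : ∃ h' : (j : ℕ) < N, (⟨j, h'⟩ : Fin N) ∈ S := ⟨j.2, hj⟩
    rw [dif_pos this]
  set Sx : E → Set (Fin N) := fun x => {j | h x j ≠ 0} with hSx
  have hSxne : ∀ x ≠ 0, (Sx x).Nonempty := by
    intro x hx
    by_contra hne
    apply hcon x hx
    funext j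
    by_contra hj
    exact hne ⟨j, hj⟩
  set κ : ℕ → E → ZMod p := fun j x => sec p (h x (c (Sx x) j)) with hκ
  have hiter : ∀ x ≠ 0, ∀ i : ℕ, (τ : E → E)^[i] x ≠ 0 ∧ h ((τ : E → E)^[i] x) = ζr p ^ i • h x := by
    intro x hx i
    induction i with
    | zero => simpa using hx
    | succ i ih =>
      rw [Function.iterate_succ_apply']
      refine ⟨?_, ?_⟩
      · intro h00
        apply ih.1
        rw [← norm_eq_zero, ← τ.norm_map, h00, norm_zero]
      · rw [heq _ ih.1, ih.2, smul_smul, pow_succ']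
  have heqv : ∀ x ≠ 0, EqvAt τ κ x := by
    intro x hx j i
    obtain ⟨_, h2⟩ := hiter x hx i
    have hSeq : Sx ((τ : E → E)^[i] x) = Sx x := by
      ext j'
      simp only [hSx, Set.mem_ofPred_eq, h2, Pi.smul_apply, smul_eq_mul]
      have : ζr p ^ i ≠ 0 := pow_ne_zero _ (ζr_ne_zero p)
      simp [this]
    simp only [hκ, hSeq, h2, Pi.smul_apply, smul_eq_mul]
    apply sec_rot_pow p hp0
    exact hcmem _ (hSxne x hx) j
  have hmain := ev_Pc_es τ hτ v (Hc R) (fun w => Hc_zero R w) R κ N S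
    (fun l hl x hx => heqv x (hK0 x (hSK l hl x hx))) hes N le_rfl
  have hzero : ev (Pc κ N) (es τ p v (Hc R) R (2 * N)) = 0 := by
    have : ev (Pc κ N) (es τ p v (Hc R) R (2 * N)) = ev (fun _ => (0 : ℤ))
        (es τ p v (Hc R) R (2 * N)) := by
      apply ev_congr (S := S) _ (hes _ le_rfl)
      intro l hl
      match l, hl with
      | [], _ => exact Pc_nil κ N
      | (x₁ :: r), hl =>
        have hx₁ : x₁ ∈ K := hSK _ hl x₁ (by simp)
        have hclose : ∀ x ∈ x₁ :: r, ∀ y ∈ x₁ :: r, dist (h x) (h y) < κ₀ := by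
          intro x hx y hy
          obtain ⟨i, _, hd⟩ := id hl
          exact huc x (hSK _ hl x hx) y (hSK _ hl y hy) (lt_of_le_of_lt (hd x hx y hy) hR)
        obtain ⟨j, hj⟩ : ∃ j : Fin N, c₀ ≤ ‖h x₁ j‖ := by
          by_contra hj
          push Not at hj
          have : ‖h x₁‖ < c₀ := (pi_norm_lt_iff hc₀pos).2 hj
          exact absurd (hlow x₁ hx₁) (not_le.2 this)
        have hlj : ∀ x ∈ x₁ :: r, c₀ / 2 ≤ ‖h x j‖ := by
          intro x hx
          have h1 : dist (h x j) (h x₁ j) < κ₀ :=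
            lt_of_le_of_lt (dist_le_pi_dist _ _ j) (hclose x hx x₁ (by simp))
          have h2 : κ₀ ≤ c₀ / 4 := min_le_left _ _
          rw [dist_eq_norm] at h1
          have h3 : ‖h x₁ j‖ ≤ ‖h x j‖ + ‖h x j - h x₁ j‖ := by
            have := norm_sub_norm_le (h x₁ j) (h x j)
            rw [norm_sub_rev] at this
            linarith
          linarith
        have hne : ∀ x ∈ x₁ :: r, h x j ≠ 0 := by
          intro x hx h00
          have := hlj x hx
          rw [h00, norm_zero] at this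
          linarith
        have hκj : ∀ x ∈ x₁ :: r, κ j x = sec p (h x j) := by
          intro x hx
          simp only [hκ]
          rw [hcj (Sx x) j (hne x hx)]
        have hb : ∀ x ∈ x₁ :: r, ∀ y ∈ x₁ :: r, |bCo (κ j) x y| ≤ 1 := by
          intro x hx y hy
          unfold bCo
          rw [hκj x hx, hκj y hy]
          apply sec_near p (by omega) (hne x hx) (hne y hy)
          apply hnear
          have h1 : h y j / h x j - 1 = (h y j - h x j) / h x j := by
            have := hne x hx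
            field_simp
          rw [h1, norm_div, div_lt_iff₀ (norm_pos_iff.2 (hne x hx))]
          have h2 : ‖h y j - h x j‖ < κ₀ := by
            rw [← dist_eq_norm]
            exact lt_of_le_of_lt (dist_le_pi_dist _ _ j) (hclose y hy x hx)
          have h3 : κ₀ ≤ η * c₀ / 4 := min_le_right _ _
          have h4 := hlj x hx
          nlinarith
        apply Pc_eq_zero κ j (x₁ :: r) _ N j.2
        intro x hx y hy z hz
        have e := p_mul_βCo (κ j) x y z
        have b1 := abs_le.1 (hb y hy z hz)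
        have b2 := abs_le.1 (hb x hx z hz)
        have b3 := abs_le.1 (hb x hx y hy)
        have hp5 : (5 : ℤ) ≤ p := by exact_mod_cast hp
        by_contra hβ
        rcases lt_or_gt_of_ne hβ with hlt | hgt
        · have : βCo (κ ↑j) x y z ≤ -1 := by omega
          nlinarith
        · have : 1 ≤ βCo (κ ↑j) x y z := by omega
          nlinarith
    rw [this]
    have : ev (fun _ : List E => (0 : ℤ)) = 0 := by
      apply FreeAbelianGroup.lift_ext
      intro l
      simp
    rw [this]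
    rfl
  rw [hzero] at hmain
  have : Nontrivial (ZMod p) := by
    have : Fact (1 < p) := ⟨by omega⟩
    infer_instance
  simp at hmain

end Pool.Agent.Helper46.MeanDim
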