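import Mathlib

set_option autoImplicit false

/-!
An open cover of a finite-dimensional real vector space whose multiplicity at a point is controlled
by the number of distinct nonzero fractional parts of its coordinates.
-/

namespace Pool.Agent.Helper46.MeanDim

open Finset

variable {ι : Type*} [Fintype ι]

/-- The cell with index `v`. -/
def cell (v : ι → ℤ) : Set (ι → ℝ) :=
  {y | ∃ θ : ℝ, (0 < θ ∧ θ < 1) ∧ ∀ i, (v i : ℝ) < y i + θ ∧ y i + θ < v i + 1}

theorem isOpen_cell (v : ι → ℤ) : IsOpen (cell v) := by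
  have e : cell v = ⋃ θ ∈ Set.Ioo (0 : ℝ) 1,
      (Set.univ.pi fun i => Set.Ioo ((v i : ℝ) - θ) (v i + 1 - θ)) := by
    ext y
    simp only [cell, Set.mem_ofPred_eq, Set.mem_iUnion, Set.mem_Ioo, exists_prop, Set.mem_pi,
      Set.mem_univ, forall_const]
    constructor
    · rintro ⟨θ, h1, h2⟩
      refine ⟨θ, h1, fun i => ⟨?_, ?_⟩⟩
      · have := (h2 i).1
        linarith
      · have := (h2 i).2
        linarith
    · rintro ⟨θ, h1, h2⟩
      refine ⟨θ, h1, fun i => ⟨?_, ?_⟩⟩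
      · have := (h2 i).1
        linarith
      · have := (h2 i).2
        linarith
  rw [e]
  apply isOpen_biUnion
  intro θ _
  exact isOpen_set_pi Set.finite_univ fun i _ => isOpen_Ioo

theorem exists_cell (y : ι → ℝ) : ∃ v, y ∈ cell v := by
  classical
  have h1 : (Set.Ioo (0 : ℝ) 1 \ ((univ.image fun i => 1 - Int.fract (y i) : Finset ℝ) : Set ℝ)).Nonempty := by
    apply Set.Infinite.nonempty
    exact (Set.Ioo_infinite zero_lt_one).sdiff (Finset.finite_toSet _)
  obtain ⟨θ, hθ, hθ2⟩ := h1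
  refine ⟨fun i => ⌊y i + θ⌋, θ, hθ, fun i => ⟨?_, Int.lt_floor_add_one _⟩⟩
  apply lt_of_le_of_ne (Int.floor_le _)
  intro hcon
  apply hθ2
  rw [Finset.coe_image]
  refine ⟨i, by simp, ?_⟩
  change 1 - Int.fract (y i) = θ
  have h3 := Int.floor_add_fract (y i)
  have h4 : ((⌊y i + θ⌋ - ⌊y i⌋ : ℤ) : ℝ) = Int.fract (y i) + θ := by
    push_cast
    rw [hcon]
    linarith
  have h5 := Int.fract_nonneg (y i)
  have h6 := Int.fract_lt_one (y i)
  have h7 : (0 : ℝ) < ((⌊y i + θ⌋ - ⌊y i⌋ : ℤ) : ℝ) := by rw [h4]; linarith [hθ.1]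
  have h8 : ((⌊y i + θ⌋ - ⌊y i⌋ : ℤ) : ℝ) < 2 := by rw [h4]; linarith [hθ.2]
  have h9 : 0 < ⌊y i + θ⌋ - ⌊y i⌋ := by exact_mod_cast h7
  have h10 : ⌊y i + θ⌋ - ⌊y i⌋ < 2 := by exact_mod_cast h8
  have h11 : ⌊y i + θ⌋ - ⌊y i⌋ = 1 := by omega
  rw [h11] at h4
  push_cast at h4
  linarith

theorem cell_close {v : ι → ℤ} {y y' : ι → ℝ} (h : y ∈ cell v) (h' : y' ∈ cell v) (i : ι) :
    |y i - y' i| < 2 := by
  obtain ⟨θ, h1, h2⟩ := h
  obtain ⟨θ', h1', h2'⟩ := h'
  have a := h2 i
  have b := h2' i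
  rw [abs_lt]
  constructor <;> linarith [a.1, a.2, b.1, b.2, h1.1, h1.2, h1'.1, h1'.2]

open Classical in
/-- The nonzero fractional parts of the coordinates. -/
noncomputable def frs (y : ι → ℝ) : Finset ℝ := (univ.image fun i => Int.fract (y i)).erase 0

theorem cell_index {v : ι → ℤ} {y : ι → ℝ} {θ : ℝ} (h1 : 0 < θ ∧ θ < 1)
    (h2 : ∀ i, (v i : ℝ) < y i + θ ∧ y i + θ < v i + 1) (i : ι) :
    v i = ⌊y i⌋ + if 1 - θ < Int.fract (y i) then 1 else 0 := by
  have h3 := Int.floor_add_fract (y i)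
  have h5 := Int.fract_nonneg (y i)
  have h6 := Int.fract_lt_one (y i)
  have h7 := h2 i
  split_ifs with h
  · have h8 : ((v i - ⌊y i⌋ : ℤ) : ℝ) < 2 := by push_cast; linarith [h1.2, h7.1]
    have h9 : (0 : ℝ) < ((v i - ⌊y i⌋ : ℤ) : ℝ) := by push_cast; linarith [h7.2]
    have h10 : v i - ⌊y i⌋ < 2 := by exact_mod_cast h8
    have h11 : 0 < v i - ⌊y i⌋ := by exact_mod_cast h9
    omega
  · have h8 : ((v i - ⌊y i⌋ : ℤ) : ℝ) < 1 := by push_cast; linarith [h7.1]
    have h9 : (-1 : ℝ) < ((v i - ⌊y i⌋ : ℤ) : ℝ) := by push_cast; linarith [h7.2, h1.1]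
    have h10 : v i - ⌊y i⌋ < 1 := by exact_mod_cast h8
    have h11 : -1 < v i - ⌊y i⌋ := by exact_mod_cast h9
    omega

theorem cell_mult (y : ι → ℝ) :
    {v : ι → ℤ | y ∈ cell v}.Finite ∧ {v : ι → ℤ | y ∈ cell v}.ncard ≤ (frs y).card + 1 := by
  classical
  set k : (ι → ℤ) → ℕ := fun v => if h : y ∈ cell v then
    ((frs y).filter (fun f => 1 - h.choose < f)).card else 0 with hk
  have hmap : ∀ v ∈ {v : ι → ℤ | y ∈ cell v}, k v ∈ ((range ((frs y).card + 1) : Finset ℕ) : Set ℕ) := by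
    intro v hv
    have hv' : y ∈ cell v := hv
    rw [Finset.mem_coe, mem_range, Nat.lt_succ_iff]
    simp only [hk, dif_pos hv']
    exact card_filter_le _ _
  have hinj : Set.InjOn k {v : ι → ℤ | y ∈ cell v} := by
    intro v hv w hw hvw
    have hv' : y ∈ cell v := hv
    have hw' : y ∈ cell w := hw
    simp only [hk, dif_pos hv', dif_pos hw'] at hvw
    obtain ⟨a1, a2⟩ := hv'.choose_spec
    obtain ⟨b1, b2⟩ := hw'.choose_spec
    set θ := hv'.choose with hθ
    set θ' := hw'.choose with hθ'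
    have hset : (frs y).filter (fun f => 1 - θ < f) = (frs y).filter (fun f => 1 - θ' < f) := by
      rcases le_total θ θ' with hle | hle
      · apply Finset.eq_of_subset_of_card_le
        · intro f hf
          rw [mem_filter] at hf ⊢
          exact ⟨hf.1, by linarith [hf.2]⟩
        · exact hvw.ge
      · symm
        apply Finset.eq_of_subset_of_card_le
        · intro f hf
          rw [mem_filter] at hf ⊢
          exact ⟨hf.1, by linarith [hf.2]⟩
        · exact hvw.le
    funext i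
    rw [cell_index a1 a2 i, cell_index b1 b2 i]
    congr 1
    by_cases h0 : Int.fract (y i) = 0
    · rw [h0, if_neg (by linarith [a1.2]), if_neg (by linarith [b1.2])]
    · have hmem : Int.fract (y i) ∈ frs y := by
        unfold frs
        rw [mem_erase]
        exact ⟨h0, mem_image_of_mem _ (mem_univ i)⟩
      have h3 : Int.fract (y i) ∈ (frs y).filter (fun f => 1 - θ < f) ↔
          Int.fract (y i) ∈ (frs y).filter (fun f => 1 - θ' < f) := by rw [hset]
      rw [mem_filter, mem_filter] at h3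
      simp only [hmem, true_and] at h3
      simp only [h3]
  have hfin : ((range ((frs y).card + 1) : Finset ℕ) : Set ℕ).Finite := Finset.finite_toSet _
  refine ⟨Set.Finite.of_injOn hmap hinj hfin, ?_⟩
  have := Set.ncard_le_ncard_of_injOn k hmap hinj hfin
  rw [Set.ncard_coe_finset, card_range] at this
  exact this

end Pool.Agent.Helper46.MeanDim
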