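import Mathlib

set_option autoImplicit false

/-!
Two elementary lemmas: a union bound and a Vandermonde argument.
-/

namespace Pool.Agent.Helper46.MeanDim

open Finset

theorem exists_theta {κ ι' : Type*} [Fintype κ] [DecidableEq κ] {R B h M : ℕ} (hR : R = 68 * B)
    (hB : 1 ≤ B) (F : Finset ι') (S : ι' → Finset κ) (hS : ∀ A ∈ F, (S A).card = M)
    (hM : M ≤ 2 * h) (bad : ι' → κ → Finset (Fin R))
    (hbad : ∀ A ∈ F, ∀ k ∈ S A, (bad A k).card ≤ 17) (hF : F.card < B ^ h) :
    ∃ θ : κ → Fin R, ∀ A ∈ F, ((S A).filter (fun k => θ k ∈ bad A k)).card < h := by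
  classical
  have hR0 : 0 < R := by omega
  by_cases hh : h ≤ Fintype.card κ
  swap
  · refine ⟨fun _ => ⟨0, hR0⟩, fun A _ => ?_⟩
    have := card_le_univ ((S A).filter (fun k => (⟨0, hR0⟩ : Fin R) ∈ bad A k))
    exact lt_of_le_of_lt this (not_le.1 hh)
  by_contra hcon
  push Not at hcon
  set Q : ι' → Finset κ → Finset (κ → Fin R) := fun A T =>
    Fintype.piFinset (fun k => if k ∈ T then bad A k else univ) with hQ
  have hsub : (univ : Finset (κ → Fin R)) ⊆
      F.biUnion (fun A => (powersetCard h (S A)).biUnion (fun T => Q A T)) := by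
    intro θ _
    obtain ⟨A, hA, hA2⟩ := hcon θ
    obtain ⟨T, hT, hTc⟩ := exists_subset_card_eq hA2
    rw [mem_biUnion]
    refine ⟨A, hA, ?_⟩
    rw [mem_biUnion]
    refine ⟨T, ?_, ?_⟩
    · rw [mem_powersetCard]
      exact ⟨hT.trans (filter_subset _ _), hTc⟩
    · rw [hQ, Fintype.mem_piFinset]
      intro k
      split_ifs with hk
      · exact (mem_filter.1 (hT hk)).2
      · exact mem_univ _
  have hQc : ∀ A ∈ F, ∀ T ∈ powersetCard h (S A),
      (Q A T).card ≤ 17 ^ h * R ^ (Fintype.card κ - h) := by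
    intro A hA T hT
    rw [mem_powersetCard] at hT
    rw [hQ, Fintype.card_piFinset]
    have e : ∏ k, (if k ∈ T then bad A k else univ).card ≤
        ∏ k, (if k ∈ T then 17 else R) := by
      apply prod_le_prod' (fun k _ => ?_)
      split_ifs with hk
      · exact hbad A hA k (hT.1 hk)
      · simp
    refine e.trans ?_
    rw [prod_ite]
    simp only [prod_const]
    have e1 : (univ.filter (fun k => k ∈ T)).card = h := by
      rw [filter_mem_eq_inter, univ_inter, hT.2]
    have e2 : (univ.filter (fun k => ¬ k ∈ T)).card = Fintype.card κ - h := by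
      rw [filter_not, card_sdiff, filter_mem_eq_inter, univ_inter, inter_univ, hT.2, card_univ]
    rw [e1, e2]
  have h1 : R ^ Fintype.card κ ≤ F.card * (4 ^ h * (17 ^ h * R ^ (Fintype.card κ - h))) := by
    calc R ^ Fintype.card κ = (univ : Finset (κ → Fin R)).card := by
          rw [card_univ, Fintype.card_fun, Fintype.card_fin]
      _ ≤ _ := card_le_card hsub
      _ ≤ F.card * (4 ^ h * (17 ^ h * R ^ (Fintype.card κ - h))) := by
          apply card_biUnion_le_card_mul
          intro A hA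
          refine (card_biUnion_le_card_mul _ _ _ (hQc A hA)).trans ?_
          apply Nat.mul_le_mul_right
          rw [card_powersetCard, hS A hA]
          calc M.choose h ≤ 2 ^ M := Nat.choose_le_two_pow _ _
            _ ≤ 2 ^ (2 * h) := Nat.pow_le_pow_right (by norm_num) hM
            _ = 4 ^ h := by rw [pow_mul]; norm_num
  have h2 : F.card * (4 ^ h * (17 ^ h * R ^ (Fintype.card κ - h))) < R ^ Fintype.card κ := by
    calc F.card * (4 ^ h * (17 ^ h * R ^ (Fintype.card κ - h)))
        < B ^ h * (4 ^ h * (17 ^ h * R ^ (Fintype.card κ - h))) := by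
          apply Nat.mul_lt_mul_of_pos_right hF
          positivity
      _ = (68 * B) ^ h * R ^ (Fintype.card κ - h) := by
          rw [mul_pow, show (68 : ℕ) = 4 * 17 by norm_num, mul_pow]
          ring
      _ = R ^ Fintype.card κ := by
          rw [← hR, ← pow_add, Nat.add_sub_cancel' hh]
  omega

theorem vander {κ : Type*} [DecidableEq κ] (P : Finset κ) (a z : κ → ℂ)
    (ha : Set.InjOn a P) {M : ℕ}
    (hP : P.card ≤ M) (h : ∀ j < M, ∑ q ∈ P, a q ^ j * z q = 0) : ∀ q ∈ P, z q = 0 := by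
  intro q hq
  set Q : Polynomial ℂ := ∏ q' ∈ P.erase q, (Polynomial.X - Polynomial.C (a q')) with hQ
  have hdeg : Q.natDegree < M := by
    rw [hQ, Polynomial.natDegree_prod_of_monic _ _ (fun q' _ => Polynomial.monic_X_sub_C _)]
    simp only [Polynomial.natDegree_X_sub_C, sum_const, smul_eq_mul, mul_one]
    rw [card_erase_of_mem hq]
    have : 0 < P.card := card_pos.2 ⟨q, hq⟩
    omega
  have h1 : ∑ q' ∈ P, Q.eval (a q') * z q' = 0 := by
    have e : ∀ q' ∈ P, Q.eval (a q') * z q' = ∑ j ∈ range M, Q.coeff j * (a q' ^ j * z q') := by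
      intro q' _
      rw [Polynomial.eval_eq_sum_range' hdeg, sum_mul]
      apply sum_congr rfl
      intro j _
      ring
    rw [sum_congr rfl e, sum_comm]
    apply sum_eq_zero
    intro j hj
    rw [← mul_sum, h j (mem_range.1 hj), mul_zero]
  rw [sum_eq_single_of_mem q hq] at h1
  · rcases mul_eq_zero.1 h1 with h2 | h2
    · exfalso
      rw [hQ, Polynomial.eval_prod, prod_eq_zero_iff] at h2
      obtain ⟨q', hq', h3⟩ := h2
      rw [Polynomial.eval_sub, Polynomial.eval_X, Polynomial.eval_C, sub_eq_zero] at h3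
      rw [mem_erase] at hq'
      exact hq'.1 (ha (mem_coe.2 hq'.2) (mem_coe.2 hq) h3.symm)
    · exact h2
  · intro q' hq' hne
    have : Q.eval (a q') = 0 := by
      rw [hQ, Polynomial.eval_prod]
      apply prod_eq_zero (mem_erase.2 ⟨hne, hq'⟩)
      simp
    rw [this, zero_mul]

theorem bad_card {R : ℕ} (hR : 68 ≤ R) {a b : ℂ} (hab : 1 / 4 < ‖a‖ ^ 2 + ‖b‖ ^ 2) :
    (univ.filter (fun t : Fin R => ‖a + ((t : ℕ) / R : ℝ) * b‖ ≤ 2 / R)).card ≤ 17 := by
  classical
  have hR' : (68 : ℝ) ≤ R := by exact_mod_cast hR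
  have hR0 : (0 : ℝ) < R := by linarith
  set Bs := univ.filter (fun t : Fin R => ‖a + ((t : ℕ) / R : ℝ) * b‖ ≤ 2 / R) with hBs
  by_cases hb : 1 / 4 ≤ ‖b‖
  · rcases Bs.eq_empty_or_nonempty with he | hne
    · rw [he]; simp
    · set t0 := Bs.min' hne with ht0
      have ht0m : t0 ∈ Bs := min'_mem _ _
      have hsub : Bs.image (fun t : Fin R => (t : ℕ)) ⊆ Icc (t0 : ℕ) (t0 + 16) := by
        intro s hs
        rw [mem_image] at hs
        obtain ⟨t, ht, rfl⟩ := hs
        have hle : t0 ≤ t := min'_le _ _ ht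
        rw [mem_Icc]
        refine ⟨hle, ?_⟩
        rw [hBs, mem_filter] at ht ht0m
        have h1 : ‖(((t : ℕ) - (t0 : ℕ)) / R : ℝ) * b‖ ≤ 4 / R := by
          have e : ((((t : ℕ) - (t0 : ℕ)) / R : ℝ) : ℂ) * b =
              (a + ((t : ℕ) / R : ℝ) * b) - (a + ((t0 : ℕ) / R : ℝ) * b) := by
            push_cast
            ring
          rw [e]
          refine (norm_sub_le _ _).trans ?_
          have := add_le_add ht.2 ht0m.2
          refine this.trans (le_of_eq ?_)
          ring
        rw [norm_mul, Complex.norm_real, Real.norm_eq_abs] at h1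
        have h2 : ((t0 : ℕ) : ℝ) ≤ (t : ℕ) := by exact_mod_cast hle
        rw [abs_of_nonneg (by apply div_nonneg _ hR0.le; linarith)] at h1
        have h3 : (((t : ℕ) : ℝ) - (t0 : ℕ)) / R * (1 / 4) ≤ 4 / R := by
          refine le_trans ?_ h1
          apply mul_le_mul_of_nonneg_left hb
          apply div_nonneg _ hR0.le
          linarith
        have h4 : (((t : ℕ) : ℝ) - (t0 : ℕ)) ≤ 16 := by
          rw [div_mul_eq_mul_div, div_le_div_iff_of_pos_right hR0] at h3
          linarith
        have h5 : ((t : ℕ) : ℝ) ≤ ((t0 + 16 : ℕ) : ℝ) := by push_cast; linarith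
        exact_mod_cast h5
      have h1 := card_le_card hsub
      rw [card_image_of_injective _ Fin.val_injective, Nat.card_Icc] at h1
      omega
  · push Not at hb
    have : Bs = ∅ := by
      rw [eq_empty_iff_forall_notMem]
      intro t ht
      rw [hBs, mem_filter] at ht
      have h1 : (0 : ℝ) ≤ (t : ℕ) / R := by positivity
      have h2 : ((t : ℕ) : ℝ) / R ≤ 1 := by
        rw [div_le_one hR0]
        exact_mod_cast t.2.le
      have h3 : ‖a‖ - ‖b‖ ≤ ‖a + ((t : ℕ) / R : ℝ) * b‖ := by
        have e : a = (a + ((t : ℕ) / R : ℝ) * b) - ((t : ℕ) / R : ℝ) * b := by ring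
        have h4 : ‖a‖ ≤ ‖a + ((t : ℕ) / R : ℝ) * b‖ + ‖(((t : ℕ) / R : ℝ) : ℂ) * b‖ := by
          conv_lhs => rw [e]
          exact norm_sub_le _ _
        have h5 : ‖(((t : ℕ) / R : ℝ) : ℂ) * b‖ ≤ ‖b‖ := by
          rw [norm_mul, Complex.norm_real, Real.norm_eq_abs, abs_of_nonneg h1]
          exact mul_le_of_le_one_left (norm_nonneg _) h2
        linarith
      have h4 : (2 : ℝ) / R ≤ 2 / 68 := by
        apply div_le_div_of_nonneg_left _ _ hR' <;> norm_num
      have h5 : ‖a‖ ≤ 1 / 4 + 2 / 68 := by linarith [ht.2]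
      have h6 := norm_nonneg a
      have h7 := norm_nonneg b
      nlinarith
    rw [this]
    simp

end Pool.Agent.Helper46.MeanDim
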