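import Pool.Agent.Helper46.MeanDim.Space
import Pool.Agent.Helper46.MeanDim.Cells

set_option autoImplicit false

/-!
Efficient open covers of the subshift.
-/

namespace Pool.Agent.Helper46.MeanDim

open Finset

/-- Offset. -/
def A0 (i : ℕ) : ℕ := 4 * 2 ^ i + 2

/-- The gate. -/
noncomputable def aa (i : ℕ) (s : ℤ) (x : Om) : ℝ :=
  (2 * A0 i + 4 : ℕ) * min 1 (4 * ti i (tr s x))

/-- The value. -/
noncomputable def gg (i : ℕ) (s : ℤ) (n : ℕ) (c : Fin 2) (x : Om) : ℝ :=
  gam (rp i) (x (n + s) c * 2 ^ i - n / rp i) + A0 i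

theorem continuous_aa (i : ℕ) (s : ℤ) : Continuous (aa i s) := by
  unfold aa
  have h := (continuous_ti i).comp (continuous_tr s)
  exact continuous_const.mul (continuous_const.min (continuous_const.mul h))

theorem continuous_gg (i : ℕ) (s : ℤ) (n : ℕ) (c : Fin 2) : Continuous (gg i s n c) := by
  unfold gg
  have h := continuous_gam (one_le_rp i)
  have h2 : Continuous fun x : Om => x ((n : ℤ) + s) c :=
    (continuous_apply c).comp (continuous_apply ((n : ℤ) + s))
  apply Continuous.add _ continuous_const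
  apply h.comp
  fun_prop

theorem gg_bounds {i : ℕ} {s : ℤ} {n : ℕ} (hn : n < rp i) {c : Fin 2} {x : Om}
    (hx : ∀ n c, |x n c| ≤ 4) : 0 ≤ gg i s n c x ∧ gg i s n c x ≤ 2 * A0 i := by
  have h1 := abs_gam_sub_le (rp i) (x (n + s) c * 2 ^ i - n / rp i)
  have h2 := hx (n + s) c
  have hr : (0 : ℝ) < rp i := by exact_mod_cast one_le_rp i
  have h3 : (n : ℝ) / rp i ≤ 1 := by
    rw [div_le_one hr]
    exact_mod_cast hn.le
  have h4 : (0 : ℝ) ≤ (n : ℝ) / rp i := by positivity
  have h5 : (0 : ℝ) < 2 ^ i := by positivity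
  rw [abs_le] at h1 h2
  have h6 : x (n + s) c * 2 ^ i ≤ 4 * 2 ^ i := mul_le_mul_of_nonneg_right h2.2 h5.le
  have h7 : -4 * 2 ^ i ≤ x (n + s) c * 2 ^ i := by
    apply mul_le_mul_of_nonneg_right _ h5.le
    linarith [h2.1]
  unfold gg A0
  push_cast
  constructor <;> linarith [h1.1, h1.2]

/-- The coordinates attached to one base point. -/
noncomputable def co (i : ℕ) (s : ℤ) (x : Om) : Option (Fin (rp i) × Fin 2) → ℝ
  | none => aa i s x
  | some q => min (gg i s q.1 q.2 x) (aa i s x)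

theorem continuous_co (i : ℕ) (s : ℤ) (o : Option (Fin (rp i) × Fin 2)) :
    Continuous fun x => co i s x o := by
  cases o with
  | none => exact continuous_aa i s
  | some q => exact (continuous_gg i s q.1 q.2).min (continuous_aa i s)

theorem frs_co {i : ℕ} {s : ℤ} {x : Om} (hx : ∀ n c, |x n c| ≤ 4) :
    (frs (co i s x)).card ≤ 4 := by
  classical
  by_cases ht : ti i (tr s x) = 0
  · have ha : aa i s x = 0 := by
      unfold aa
      rw [ht, mul_zero, min_eq_right zero_le_one, mul_zero]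
    have hco : ∀ o, co i s x o = 0 := by
      intro o
      cases o with
      | none => exact ha
      | some q =>
        change min (gg i s q.1 q.2 x) (aa i s x) = 0
        rw [ha]
        exact min_eq_right (gg_bounds q.1.2 hx).1
    have he : frs (co i s x) = ∅ := by
      rw [eq_empty_iff_forall_notMem]
      intro f hf
      unfold frs at hf
      rw [mem_erase, mem_image] at hf
      obtain ⟨hf0, o, _, ho⟩ := hf
      rw [hco, Int.fract_zero] at ho
      exact hf0 ho.symm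
    rw [he]
    simp
  · have hu : uu (rp i) (2 ^ i) (tr s x) < 4 := by
      by_contra hcon
      apply ht
      unfold ti tt
      apply max_eq_left
      linarith
    set P : Finset (Fin (rp i) × Fin 2) :=
      univ.filter (fun q => rho (rp i) (x ((q.1 : ℕ) + s) q.2 * 2 ^ i - (q.1 : ℕ) / rp i) = 1) with hP
    have hPc : P.card ≤ 3 := by
      have h1 : (P.card : ℝ) ≤ uu (rp i) (2 ^ i) (tr s x) := by
        have h2 : (P.card : ℝ) = ∑ q ∈ P,
            rho (rp i) (x ((q.1 : ℕ) + s) q.2 * 2 ^ i - (q.1 : ℕ) / rp i) := by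
          rw [sum_congr rfl (g := fun _ => (1 : ℝ)) (fun q hq => (mem_filter.1 hq).2)]
          rw [sum_const, nsmul_eq_mul, mul_one]
        rw [h2]
        have h3 : uu (rp i) (2 ^ i) (tr s x) = ∑ q : Fin (rp i) × Fin 2,
            rho (rp i) (x ((q.1 : ℕ) + s) q.2 * 2 ^ i - (q.1 : ℕ) / rp i) := by
          unfold uu
          rw [Fintype.sum_prod_type]
          rw [Finset.sum_range]
          rfl
        rw [h3]
        apply sum_le_sum_of_subset_of_nonneg (subset_univ _)
        intro q _ _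
        exact rho_nonneg _ _
      have h4 : (P.card : ℝ) < 4 := lt_of_le_of_lt h1 hu
      have h5 : P.card < 4 := by exact_mod_cast h4
      omega
    have hsub : frs (co i s x) ⊆ insert (Int.fract (aa i s x))
        (P.image (fun q => Int.fract (gg i s q.1 q.2 x))) := by
      intro f hf
      unfold frs at hf
      rw [mem_erase, mem_image] at hf
      obtain ⟨hf0, o, _, rfl⟩ := hf
      cases o with
      | none => exact mem_insert_self _ _
      | some q =>
        change Int.fract (min (gg i s q.1 q.2 x) (aa i s x)) ≠ 0 at hf0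
        change Int.fract (min (gg i s q.1 q.2 x) (aa i s x)) ∈ _
        rcases min_choice (gg i s q.1 q.2 x) (aa i s x) with h | h
        · rw [h] at hf0 ⊢
          apply mem_insert_of_mem
          rw [mem_image]
          refine ⟨q, ?_, rfl⟩
          rw [hP, mem_filter]
          refine ⟨mem_univ _, ?_⟩
          apply rho_eq_one_of_gam
          intro k hk
          apply hf0
          unfold gg
          rw [hk]
          have : ((k : ℝ) + (A0 i : ℝ)) = ((k + (A0 i : ℤ) : ℤ) : ℝ) := by push_cast; rfl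
          rw [this]
          exact Int.fract_intCast _
        · rw [h]
          exact mem_insert_self _ _
    calc (frs (co i s x)).card ≤ _ := card_le_card hsub
      _ ≤ (P.image (fun q => Int.fract (gg i s q.1 q.2 x))).card + 1 := card_insert_le _ _
      _ ≤ P.card + 1 := Nat.add_le_add_right card_image_le _
      _ ≤ 4 := by omega

/-- Decoding. -/
theorem decode {i : ℕ} {s : ℤ} {x x' : Om} (hx : ∀ n c, |x n c| ≤ 4)
    (hc : ∀ o, |co i s x o - co i s x' o| < 2) (ht : 1 / 4 ≤ ti i (tr s x))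
    {n : ℕ} (hn : n < rp i) (c : Fin 2) : |x (n + s) c - x' (n + s) c| * 2 ^ i < 4 := by
  have ha : aa i s x = 2 * A0 i + 4 := by
    unfold aa
    rw [min_eq_left (by linarith), mul_one]
    push_cast
    rfl
  have h1 := hc none
  have h2 := hc (some (⟨n, hn⟩, c))
  change |aa i s x - aa i s x'| < 2 at h1
  change |min (gg i s n c x) (aa i s x) - min (gg i s n c x') (aa i s x')| < 2 at h2
  have h3 := (gg_bounds (s := s) (c := c) hn hx).2
  rw [ha] at h1 h2
  rw [min_eq_left (by linarith)] at h2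
  rw [abs_lt] at h1 h2
  have h4 : min (gg i s n c x') (aa i s x') = gg i s n c x' := by
    rcases min_choice (gg i s n c x') (aa i s x') with h | h
    · exact h
    · rw [h] at h2
      linarith [h1.1, h1.2, h2.1, h2.2]
  rw [h4] at h2
  unfold gg at h2
  have h5 := abs_gam_sub_le (rp i) (x (n + s) c * 2 ^ i - n / rp i)
  have h6 := abs_gam_sub_le (rp i) (x' (n + s) c * 2 ^ i - n / rp i)
  rw [abs_le] at h5 h6
  have h7 : |x (n + s) c - x' (n + s) c| * 2 ^ i = |x (n + s) c * 2 ^ i - x' (n + s) c * 2 ^ i| := by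
    rw [← sub_mul, abs_mul, abs_of_pos (by positivity : (0 : ℝ) < 2 ^ i)]
  rw [h7, abs_lt]
  constructor <;> linarith [h5.1, h5.2, h6.1, h6.2, h2.1, h2.2]

/-- The step length. -/
def Dp (i : ℕ) : ℕ := (2 ^ i * 8 - 1) * Gp i

theorem rp_eq (i : ℕ) : rp i = Dp i + Gp i := by
  unfold rp Dp
  have h : 1 ≤ 2 ^ i * 8 := by
    have : 1 ≤ 2 ^ i := Nat.one_le_two_pow
    omega
  obtain ⟨k, hk⟩ := Nat.exists_eq_add_of_le h
  rw [hk, Nat.add_sub_cancel_left]
  ring

theorem Dp_pos (i : ℕ) : 0 < Dp i := by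
  unfold Dp
  have h : 1 ≤ 2 ^ i := Nat.one_le_two_pow
  have h2 := one_le_Gp i
  apply Nat.mul_pos <;> omega

/-- The full coordinate map. -/
noncomputable def Ph (i J : ℕ) (b : ℤ) (x : Om) :
    (Fin J × Fin (Gp i)) × Option (Fin (rp i) × Fin 2) → ℝ :=
  fun q => co i (b + (q.1.1 : ℕ) * (Dp i : ℤ) + (q.1.2 : ℕ)) x q.2

theorem continuous_Ph (i J : ℕ) (b : ℤ) : Continuous (Ph i J b) :=
  continuous_pi fun q => continuous_co _ _ q.2

theorem frs_Ph {i J : ℕ} {b : ℤ} {x : Om} (hx : ∀ n c, |x n c| ≤ 4) :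
    (frs (Ph i J b x)).card ≤ 4 * J * Gp i := by
  classical
  have hsub : frs (Ph i J b x) ⊆ (univ : Finset (Fin J × Fin (Gp i))).biUnion
      (fun q => frs (co i (b + (q.1 : ℕ) * (Dp i : ℤ) + (q.2 : ℕ)) x)) := by
    intro f hf
    unfold frs at hf
    rw [mem_erase, mem_image] at hf
    obtain ⟨hf0, q, _, rfl⟩ := hf
    rw [mem_biUnion]
    refine ⟨q.1, mem_univ _, ?_⟩
    unfold frs
    rw [mem_erase]
    refine ⟨hf0, ?_⟩
    rw [mem_image]
    exact ⟨q.2, mem_univ _, rfl⟩
  have h2 := card_biUnion_le_card_mul (univ : Finset (Fin J × Fin (Gp i)))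
    (fun q => frs (co i (b + (q.1 : ℕ) * (Dp i : ℤ) + (q.2 : ℕ)) x)) 4 (fun q _ => frs_co hx)
  rw [card_univ, Fintype.card_prod, Fintype.card_fin, Fintype.card_fin] at h2
  calc _ ≤ _ := card_le_card hsub
    _ ≤ _ := h2
    _ = _ := by ring

/-- The efficient cover. -/
theorem exists_cover (i J : ℕ) (b : ℤ) : ∃ β : Finset (Set XS), (∀ V ∈ β, IsOpen V) ∧
    ⋃₀ (β : Set (Set XS)) = Set.univ ∧
    (∀ V ∈ β, ∀ x ∈ V, ∀ x' ∈ V, ∀ τ : ℤ, b + Gp i ≤ τ → τ < b + Gp i + J * (Dp i : ℤ) →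
      ∀ c, |x.1 τ c - x'.1 τ c| * 2 ^ i < 4) ∧
    ∀ x : XS, Set.ncard {V | V ∈ β ∧ x ∈ V} ≤ 4 * J * Gp i + 1 := by
  classical
  set Φ : XS → ((Fin J × Fin (Gp i)) × Option (Fin (rp i) × Fin 2) → ℝ) :=
    fun x => Ph i J b x.1 with hΦ
  have hΦc : Continuous Φ := (continuous_Ph i J b).comp continuous_subtype_val
  obtain ⟨t, ht⟩ := (isCompact_univ : IsCompact (Set.univ : Set XS)).elim_finite_subcover
    (fun v => Φ ⁻¹' cell v) (fun v => (isOpen_cell v).preimage hΦc) (by
      intro x _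
      obtain ⟨v, hv⟩ := exists_cell (Φ x)
      exact Set.mem_iUnion.2 ⟨v, hv⟩)
  refine ⟨t.image (fun v => Φ ⁻¹' cell v), ?_, ?_, ?_, ?_⟩
  · intro V hV
    rw [mem_image] at hV
    obtain ⟨v, _, rfl⟩ := hV
    exact (isOpen_cell v).preimage hΦc
  · rw [Set.eq_univ_iff_forall]
    intro x
    have := ht (Set.mem_univ x)
    simp only [Set.mem_iUnion] at this
    obtain ⟨v, hv, hxv⟩ := this
    exact ⟨_, mem_coe.2 (mem_image_of_mem _ hv), hxv⟩
  · intro V hV x hx x' hx' τ h1 h2 c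
    rw [mem_image] at hV
    obtain ⟨v, _, rfl⟩ := hV
    have hD := Dp_pos i
    have hD' : (0 : ℤ) < Dp i := by exact_mod_cast hD
    obtain ⟨j, hj⟩ : ∃ j : ℤ, j = (τ - b - Gp i) / Dp i := ⟨_, rfl⟩
    have hj0 : 0 ≤ j := by
      rw [hj]
      exact Int.ediv_nonneg (by omega) hD'.le
    have hjJ : j < J := by
      rw [hj]
      apply Int.ediv_lt_of_lt_mul hD'
      omega
    have hm0 := Int.emod_nonneg (τ - b - Gp i) hD'.ne'
    have hm1 := Int.emod_lt_of_pos (τ - b - Gp i) hD'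
    have hdiv := Int.mul_ediv_add_emod (τ - b - Gp i) (Dp i)
    rw [← hj] at hdiv
    obtain ⟨s, hs1, hs2, hs3⟩ := x.2.2 i (b + j * Dp i)
    obtain ⟨j', rfl⟩ : ∃ j' : ℕ, j = j' := ⟨j.toNat, by omega⟩
    obtain ⟨s', hs'⟩ : ∃ s' : ℕ, s = b + j' * Dp i + s' := ⟨(s - (b + j' * Dp i)).toNat, by omega⟩
    obtain ⟨n, hn⟩ : ∃ n : ℕ, τ = n + s := by
      refine ⟨(τ - s).toNat, ?_⟩
      have : 0 ≤ τ - s := by
        have : (Dp i : ℤ) * j' = j' * Dp i := mul_comm _ _
        omega
      omega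
    have hnr : n < rp i := by
      rw [rp_eq]
      have : (Dp i : ℤ) * j' = j' * Dp i := mul_comm _ _
      omega
    have hs'G : s' < Gp i := by omega
    have hj'J : j' < J := by omega
    rw [hn]
    apply decode x.2.1 _ hs3 hnr
    intro o
    have := cell_close hx hx' ((⟨j', hj'J⟩, ⟨s', hs'G⟩), o)
    rw [hs']
    exact this
  · intro x
    have hfin := (cell_mult (Φ x)).1
    have hcard := (cell_mult (Φ x)).2
    have hsub : {V | V ∈ t.image (fun v => Φ ⁻¹' cell v) ∧ x ∈ V} ⊆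
        (fun v => Φ ⁻¹' cell v) '' {v | Φ x ∈ cell v} := by
      rintro V ⟨hV, hxV⟩
      rw [mem_image] at hV
      obtain ⟨v, _, rfl⟩ := hV
      exact ⟨v, hxV, rfl⟩
    calc Set.ncard {V | V ∈ t.image (fun v => Φ ⁻¹' cell v) ∧ x ∈ V}
        ≤ ((fun v => Φ ⁻¹' cell v) '' {v | Φ x ∈ cell v}).ncard :=
          Set.ncard_le_ncard hsub (hfin.image _)
      _ ≤ {v | Φ x ∈ cell v}.ncard := Set.ncard_image_le hfin
      _ ≤ (frs (Φ x)).card + 1 := hcard
      _ ≤ _ := Nat.add_le_add_right (frs_Ph x.2.1) _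

end Pool.Agent.Helper46.MeanDim
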