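import Pool.Agent.Helper46.MeanDim.Fourier

set_option autoImplicit false

/-!
The tail of the Fejer kernel and the gap lemma.
-/

namespace Pool.Agent.Helper46.MeanDim

open Finset

variable {p : ℕ} [NeZero p]

theorem norm_one_sub_ψc (j : ZMod p) : 4 * |(j.valMinAbs : ℝ)| / p ≤ ‖1 - (ψc j : ℂ)‖ := by
  have hp : (0 : ℝ) < p := by exact_mod_cast Nat.pos_of_ne_zero (NeZero.ne p)
  set v : ℤ := j.valMinAbs with hv
  have hj : (v : ZMod p) = j := by rw [hv]; exact ZMod.coe_valMinAbs j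
  have h1 : (ψc j : ℂ) = Complex.exp (Complex.I * ((2 * Real.pi * v / p : ℝ) : ℂ)) := by
    rw [← hj]
    unfold ψc
    rw [ZMod.stdAddChar_coe]
    congr 1
    push_cast
    ring
  rw [h1, norm_sub_rev, Complex.norm_exp_I_mul_ofReal_sub_one]
  have h2 : |(2 * Real.pi * v / p / 2 : ℝ)| ≤ Real.pi / 2 := by
    have h3 := ZMod.natAbs_valMinAbs_le j
    rw [← hv] at h3
    have h4 : |(v : ℝ)| ≤ p / 2 := by
      have h5 : ((v.natAbs : ℕ) : ℝ) ≤ ((p / 2 : ℕ) : ℝ) := by exact_mod_cast h3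
      rw [Nat.cast_natAbs, Int.cast_abs] at h5
      exact h5.trans Nat.cast_div_le
    have h6 : (2 * Real.pi * v / p / 2 : ℝ) = (Real.pi / p) * v := by field_simp
    rw [h6, abs_mul, abs_of_pos (div_pos Real.pi_pos hp)]
    calc Real.pi / p * |(v : ℝ)| ≤ Real.pi / p * (p / 2) := by
          apply mul_le_mul_of_nonneg_left h4
          exact (div_pos Real.pi_pos hp).le
      _ = Real.pi / 2 := by field_simp
  have h3 := Real.mul_abs_le_abs_sin h2
  rw [norm_mul, Real.norm_eq_abs, Real.norm_eq_abs, abs_two]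
  have h6 : (2 * Real.pi * v / p / 2 : ℝ) = (Real.pi / p) * v := by field_simp
  have h7 : 2 / Real.pi * |(2 * Real.pi * v / p / 2 : ℝ)| = 2 * |(v : ℝ)| / p := by
    rw [h6, abs_mul, abs_of_pos (div_pos Real.pi_pos hp)]
    have := Real.pi_pos.ne'
    field_simp
  rw [h7] at h3
  calc 4 * |(v : ℝ)| / p = 2 * (2 * |(v : ℝ)| / p) := by ring
    _ ≤ _ := by linarith

theorem fej_le (m : ℕ) (j : ZMod p) (hj : j ≠ 0) :
    fej p m j ≤ p / (4 * (m + 1)) * ((j.valMinAbs.natAbs : ℝ) ^ 2)⁻¹ := by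
  have hp : (0 : ℝ) < p := by exact_mod_cast Nat.pos_of_ne_zero (NeZero.ne p)
  have hm : (0 : ℝ) < m + 1 := by positivity
  have hv0 : j.valMinAbs ≠ 0 := by
    intro h
    exact hj ((ZMod.valMinAbs_eq_zero j).1 h)
  have hv : (0 : ℝ) < |(j.valMinAbs : ℝ)| := by
    rw [abs_pos]
    exact_mod_cast hv0
  have h1 := norm_one_sub_ψc j
  have h2 : (∑ a ∈ range (m + 1), (ψc ((a : ZMod p) * j) : ℂ)) * (1 - ψc j) =
      1 - ψc (((m + 1 : ℕ) : ZMod p) * j) := by
    have e : ∀ a : ℕ, (ψc ((a : ZMod p) * j) : ℂ) = (ψc j) ^ a := by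
      intro a
      rw [← AddChar.map_nsmul_eq_pow, nsmul_eq_mul]
    rw [sum_congr rfl (fun a _ => e a), e]
    exact geom_sum_mul_neg _ _
  have h3 : ‖∑ a ∈ range (m + 1), (ψc ((a : ZMod p) * j) : ℂ)‖ * ‖1 - (ψc j : ℂ)‖ ≤ 2 := by
    rw [← norm_mul, h2]
    calc _ ≤ ‖(1 : ℂ)‖ + ‖(ψc (((m + 1 : ℕ) : ZMod p) * j) : ℂ)‖ := norm_sub_le _ _
      _ = 2 := by rw [norm_ψc]; norm_num
  set S := ‖∑ a ∈ range (m + 1), (ψc ((a : ZMod p) * j) : ℂ)‖ with hS
  have hS0 : 0 ≤ S := norm_nonneg _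
  have h4 : S * (4 * |(j.valMinAbs : ℝ)| / p) ≤ 2 :=
    (mul_le_mul_of_nonneg_left h1 hS0).trans h3
  have h5 : S ≤ p / (2 * |(j.valMinAbs : ℝ)|) := by
    rw [le_div_iff₀ (by positivity)]
    have : S * (4 * |(j.valMinAbs : ℝ)| / p) * p ≤ 2 * p :=
      mul_le_mul_of_nonneg_right h4 hp.le
    have e : S * (4 * |(j.valMinAbs : ℝ)| / p) * p = 2 * (S * (2 * |(j.valMinAbs : ℝ)|)) := by
      field_simp
      ring
    linarith
  have h6 : S ^ 2 ≤ (p / (2 * |(j.valMinAbs : ℝ)|)) ^ 2 := pow_le_pow_left₀ hS0 h5 2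
  unfold fej
  rw [← hS]
  rw [Nat.cast_natAbs, Int.cast_abs]
  calc S ^ 2 / (p * (m + 1)) ≤ (p / (2 * |(j.valMinAbs : ℝ)|)) ^ 2 / (p * (m + 1)) := by
        gcongr
    _ = _ := by
        field_simp
        ring

theorem ft_one {k : ℕ} (h1 : 1 ≤ k) (h2 : k < p) : ft (fun _ : ZMod p => (1 : ℝ)) (k : ZMod p) = 0 := by
  unfold ft
  have h3 := sum_ψc (-(k : ZMod p))
  have h4 : (k : ZMod p) ≠ 0 := by
    intro h
    rw [ZMod.natCast_eq_zero_iff] at h
    have := Nat.le_of_dvd (by omega) h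
    omega
  rw [if_neg (by simpa using h4)] at h3
  rw [← h3]
  apply sum_congr rfl
  intro n _
  simp only [Complex.ofReal_one, one_mul]
  congr 1
  ring

theorem fej_sum {m : ℕ} (hm : m < p) : ∑ j, fej p m j = 1 := by
  have hp : (p : ℝ) ≠ 0 := by exact_mod_cast NeZero.ne p
  have h := fej_conv (p := p) (y := fun _ => 1) (m := m)
    (by intro k h1 h2; exact ft_one h1 (by omega)) 0
  simp only [mul_one, sum_const, card_univ, ZMod.card, nsmul_eq_mul] at h
  rw [h, div_self hp]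

/-- Tail bound. -/
theorem fej_tail {m M L : ℕ} (hM : 0 < M) (hL : p ≤ L * (m + 1)) :
    ∑ j ∈ univ.filter (fun j : ZMod p => M < j.valMinAbs.natAbs), fej p m j ≤ L / (2 * M) := by
  classical
  have hp : (0 : ℝ) < p := by exact_mod_cast Nat.pos_of_ne_zero (NeZero.ne p)
  set S := univ.filter (fun j : ZMod p => M < j.valMinAbs.natAbs) with hS
  set C : ℝ := p / (4 * (m + 1)) with hC
  have hC0 : 0 ≤ C := by positivity
  have h1 : ∑ j ∈ S, fej p m j ≤ ∑ j ∈ S, C * (((j.valMinAbs.natAbs : ℕ) : ℝ) ^ 2)⁻¹ := by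
    apply sum_le_sum
    intro j hj
    rw [hS, mem_filter] at hj
    apply fej_le
    rintro rfl
    simp at hj
  have h2 : ∑ j ∈ S, C * (((j.valMinAbs.natAbs : ℕ) : ℝ) ^ 2)⁻¹ =
      ∑ b ∈ S.image (fun j : ZMod p => j.valMinAbs.natAbs),
        (S.filter (fun j : ZMod p => j.valMinAbs.natAbs = b)).card • (C * ((b : ℝ) ^ 2)⁻¹) :=
    sum_comp (fun b : ℕ => C * ((b : ℝ) ^ 2)⁻¹) (fun j : ZMod p => j.valMinAbs.natAbs)
  have h3 : ∑ b ∈ S.image (fun j : ZMod p => j.valMinAbs.natAbs),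
        (S.filter (fun j : ZMod p => j.valMinAbs.natAbs = b)).card • (C * ((b : ℝ) ^ 2)⁻¹) ≤
      ∑ b ∈ S.image (fun j : ZMod p => j.valMinAbs.natAbs), 2 * (C * ((b : ℝ) ^ 2)⁻¹) := by
    apply sum_le_sum
    intro b _
    rw [nsmul_eq_mul]
    apply mul_le_mul_of_nonneg_right _ (by positivity)
    have : (S.filter (fun j : ZMod p => j.valMinAbs.natAbs = b)).card ≤
        ({((b : ℤ) : ZMod p), ((-(b : ℤ) : ℤ) : ZMod p)} : Finset (ZMod p)).card := by
      apply card_le_card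
      intro j hj
      rw [mem_filter] at hj
      have h4 : j.valMinAbs = b ∨ j.valMinAbs = -(b : ℤ) := by
        have := hj.2
        omega
      rw [mem_insert, mem_singleton]
      rcases h4 with h4 | h4
      · left
        rw [← h4, ZMod.coe_valMinAbs]
      · right
        rw [← h4, ZMod.coe_valMinAbs]
    have h5 := this.trans card_le_two
    exact_mod_cast h5
  have h4 : ∑ b ∈ S.image (fun j : ZMod p => j.valMinAbs.natAbs), 2 * (C * ((b : ℝ) ^ 2)⁻¹) ≤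
      ∑ b ∈ Ioc M (max M p), 2 * (C * ((b : ℝ) ^ 2)⁻¹) := by
    apply sum_le_sum_of_subset_of_nonneg
    · intro b hb
      rw [mem_image] at hb
      obtain ⟨j, hj, rfl⟩ := hb
      rw [hS, mem_filter] at hj
      rw [mem_Ioc]
      refine ⟨hj.2, ?_⟩
      have := ZMod.natAbs_valMinAbs_le j
      exact (this.trans (Nat.div_le_self _ _)).trans (le_max_right _ _)
    · intro b _ _
      positivity
  have h5 : ∑ b ∈ Ioc M (max M p), 2 * (C * ((b : ℝ) ^ 2)⁻¹) ≤ 2 * C * (M : ℝ)⁻¹ := by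
    have h6 := sum_Ioc_inv_sq_le_sub (α := ℝ) (k := M) (n := max M p) hM.ne' (le_max_left _ _)
    have h7 : ∑ b ∈ Ioc M (max M p), 2 * (C * ((b : ℝ) ^ 2)⁻¹) =
        2 * C * ∑ b ∈ Ioc M (max M p), ((b : ℝ) ^ 2)⁻¹ := by
      rw [mul_sum]
      apply sum_congr rfl
      intro b _
      ring
    rw [h7]
    apply mul_le_mul_of_nonneg_left _ (by positivity)
    have h8 : (0 : ℝ) ≤ ((max M p : ℕ) : ℝ)⁻¹ := by positivity
    linarith
  have h6 : 2 * C * (M : ℝ)⁻¹ ≤ L / (2 * M) := by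
    have hM' : (0 : ℝ) < M := by exact_mod_cast hM
    have hL' : (p : ℝ) ≤ L * (m + 1) := by exact_mod_cast hL
    have hm : (0 : ℝ) < m + 1 := by positivity
    rw [hC]
    have e : 2 * (p / (4 * (m + 1))) * (M : ℝ)⁻¹ = (p / (m + 1)) / (2 * M) := by
      field_simp
      ring
    rw [e]
    apply div_le_div_of_nonneg_right _ (by positivity)
    rw [div_le_iff₀ hm]
    exact hL'
  linarith

/-- The gap lemma. -/
theorem gap {y : ZMod p → ℝ} {m L : ℕ} (hm : m < p) (hL0 : 0 < L) (hL : p ≤ L * (m + 1))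
    (hy : ∀ n, 0 ≤ y n) (hy1 : ∀ n, y n ≤ 1)
    (h : ∀ k : ℕ, 1 ≤ k → k ≤ m → ft y (k : ZMod p) = 0)
    (hmean : (p : ℝ) / 2 ≤ ∑ n, y n) (c : ZMod p) :
    ∃ v : ℤ, |v| ≤ 4 * L ∧ 1 / 4 ≤ y (c - (v : ZMod p)) := by
  classical
  have hp : (0 : ℝ) < p := by exact_mod_cast Nat.pos_of_ne_zero (NeZero.ne p)
  by_contra hcon
  push Not at hcon
  have h1 := fej_conv h c
  have h2 : ∑ j, fej p m j * y (c - j) ≤
      ∑ j : ZMod p, (fej p m j * (1 / 4) +
        if 4 * L < j.valMinAbs.natAbs then fej p m j else 0) := by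
    apply sum_le_sum
    intro j _
    have hf := fej_nonneg m j
    split_ifs with hj
    · nlinarith [hy1 (c - j), hy (c - j)]
    · have h3 := hcon j.valMinAbs (by rw [Int.abs_eq_natAbs]; omega)
      rw [ZMod.coe_valMinAbs] at h3
      nlinarith
  rw [sum_add_distrib, ← sum_mul, fej_sum hm, ← sum_filter] at h2
  have h3 := fej_tail (p := p) (m := m) (M := 4 * L) (L := L) (by omega) hL
  have h4 : (L : ℝ) / (2 * ((4 * L : ℕ) : ℝ)) = 1 / 8 := by
    have : (L : ℝ) ≠ 0 := by exact_mod_cast hL0.ne'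
    push_cast
    field_simp
    norm_num
  rw [h4] at h3
  rw [h1] at h2
  have h5 : (1 : ℝ) / 2 ≤ (∑ j, y j) / p := by
    rw [le_div_iff₀ hp]
    linarith
  linarith

end Pool.Agent.Helper46.MeanDim
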