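import Pool.Agent.Helper46.MeanDim.BU
import Pool.Agent.Helper46.MeanDim.Fejer

set_option autoImplicit false

/-!
The Borsuk-Ulam theorem on the space of mean zero periodic sequences of planar points.
-/

namespace Pool.Agent.Helper46.MeanDim

open Finset

/-- Periodic sequences of planar points. -/
abbrev Wp (p : ℕ) : Type := ZMod p → Fin 2 → ℝ

variable {p : ℕ} [NeZero p]

/-- The shift. -/
def sh (x : Wp p) : Wp p := fun n => x (n + 1)

theorem sum_shift {M : Type*} [AddCommMonoid M] (y : ZMod p → M) (a : ZMod p) :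
    ∑ n, y (n + a) = ∑ n, y n :=
  Equiv.sum_comp (Equiv.addRight a) y

theorem ft_shift' (y : ZMod p → ℝ) (a k : ZMod p) :
    ft (fun n => y (n + a)) k = ψc (k * a) * ft y k := by
  unfold ft
  rw [mul_sum, ← sum_shift (fun n => ψc (k * a) * ((y n : ℂ) * ψc (-(k * n)))) a]
  apply sum_congr rfl
  intro n _
  have : (-(k * n) : ZMod p) = k * a + (-(k * (n + a))) := by ring
  rw [this, AddChar.map_add_eq_mul]
  ring

/-- Mean zero sequences. -/
def Ep (p : ℕ) [NeZero p] : Submodule ℝ (Wp p) where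
  carrier := {x | ∀ c, ∑ n, x n c = 0}
  add_mem' := by
    intro x y hx hy c
    have h1 := hx c
    have h2 := hy c
    simp only [Pi.add_apply, sum_add_distrib]
    rw [h1, h2, add_zero]
  zero_mem' := by
    intro c
    simp
  smul_mem' := by
    intro a x hx c
    have h1 := hx c
    simp only [Pi.smul_apply, smul_eq_mul]
    rw [← mul_sum, h1, mul_zero]

theorem mem_Ep {x : Wp p} : x ∈ Ep p ↔ ∀ c, ∑ n, x n c = 0 := Iff.rfl

theorem norm_sh (x : Wp p) : ‖sh x‖ = ‖x‖ := by
  apply le_antisymm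
  · rw [pi_norm_le_iff_of_nonneg (norm_nonneg _)]
    intro n
    exact norm_le_pi_norm x (n + 1)
  · rw [pi_norm_le_iff_of_nonneg (norm_nonneg _)]
    intro n
    have := norm_le_pi_norm (sh x) (n - 1)
    simp only [sh, sub_add_cancel] at this
    exact this

/-- The shift as an isometry. -/
def tau (p : ℕ) [NeZero p] : Ep p →ₗᵢ[ℝ] Ep p where
  toFun x := ⟨sh x.1, by
    rw [mem_Ep]
    intro c
    have h := x.2
    rw [mem_Ep] at h
    unfold sh
    rw [sum_shift (fun n => x.1 n c) 1]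
    exact h c⟩
  map_add' x y := rfl
  map_smul' a x := rfl
  norm_map' x := norm_sh x.1

theorem tau_iterate (j : ℕ) (x : Ep p) (n : ZMod p) :
    (((tau p : Ep p → Ep p)^[j]) x).1 n = x.1 (n + j) := by
  induction j generalizing x with
  | zero => simp
  | succ j ih =>
    rw [Function.iterate_succ_apply, ih]
    change x.1 (n + j + 1) = _
    have : n + (j : ZMod p) + 1 = n + ((j + 1 : ℕ) : ZMod p) := by
      push_cast
      ring
    rw [this]

/-- Real characters. -/
noncomputable def cosk (k n : ZMod p) : ℝ := (ψc (k * n) : ℂ).re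

theorem cosk_le (k n : ZMod p) : |cosk k n| ≤ 1 := by
  unfold cosk
  have := Complex.abs_re_le_norm (ψc (k * n) : ℂ)
  rw [norm_ψc] at this
  exact this

theorem cosk_eq (k n : ZMod p) : ((cosk k n : ℝ) : ℂ) = (ψc (k * n) + ψc (-(k * n))) / 2 := by
  unfold cosk
  rw [← ψc_conj, Complex.add_conj]
  push_cast
  ring

theorem ft_cosk (k k' : ZMod p) : ft (cosk k) k' =
    ((if k = k' then (p : ℂ) else 0) + (if k = -k' then (p : ℂ) else 0)) / 2 := by
  unfold ft
  have e : ∀ n : ZMod p, ((cosk k n : ℝ) : ℂ) * ψc (-(k' * n)) =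
      (ψc (n * (k - k')) + ψc (n * (-(k + k')))) / 2 := by
    intro n
    rw [cosk_eq]
    have e1 : (n * (k - k') : ZMod p) = k * n + -(k' * n) := by ring
    have e2 : (n * (-(k + k')) : ZMod p) = -(k * n) + -(k' * n) := by ring
    rw [e1, e2, AddChar.map_add_eq_mul, AddChar.map_add_eq_mul]
    ring
  rw [sum_congr rfl (fun n _ => e n), ← sum_div, sum_add_distrib, sum_ψc, sum_ψc]
  have e3 : (k - k' = 0) ↔ (k = k') := sub_eq_zero
  have e4 : (-(k + k') = 0) ↔ (k = -k') := by rw [neg_eq_zero, add_eq_zero_iff_eq_neg]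
  simp only [e3, e4]

theorem natCast_ne_zero' {k : ℕ} (h1 : 1 ≤ k) (h2 : k < p) : (k : ZMod p) ≠ 0 := by
  intro h
  rw [ZMod.natCast_eq_zero_iff] at h
  have := Nat.le_of_dvd (by omega) h
  omega

theorem sum_cosk {k : ℕ} (h1 : 1 ≤ k) (h2 : k < p) : ∑ n, cosk (k : ZMod p) n = 0 := by
  have h3 := ft_cosk (k : ZMod p) 0
  have h4 := natCast_ne_zero' h1 h2
  rw [neg_zero, if_neg h4] at h3
  have h5 : ft (cosk (k : ZMod p)) 0 = ((∑ n, cosk (k : ZMod p) n : ℝ) : ℂ) := by
    unfold ft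
    push_cast
    apply sum_congr rfl
    intro n _
    simp
  rw [h5] at h3
  simp only [add_zero, zero_div] at h3
  exact_mod_cast h3

/-- The index set of the vertices. -/
abbrev Kv (p : ℕ) : Type := Fin ((p - 1) / 2) × Fin 2 × Fin 2

theorem Kv_lt {k : ℕ} (hk : k < (p - 1) / 2) : k + 1 < p := by omega

/-- The vertices. -/
noncomputable def ve (q : Kv p) : Ep p :=
  ⟨fun n c => if c = q.2.1 then cosk (((q.1 : ℕ) + 1 : ℕ) : ZMod p) n else 0, by
    rw [mem_Ep]
    intro c
    by_cases hc : c = q.2.1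
    · simp only [hc, if_true]
      exact sum_cosk (by omega) (Kv_lt q.1.2)
    · simp only [hc, if_false, sum_const_zero]⟩

theorem norm_ve (q : Kv p) : ‖ve q‖ ≤ 1 := by
  change ‖(ve q).1‖ ≤ 1
  rw [pi_norm_le_iff_of_nonneg zero_le_one]
  intro n
  rw [pi_norm_le_iff_of_nonneg zero_le_one]
  intro c
  rw [Real.norm_eq_abs]
  change |if c = q.2.1 then cosk (((q.1 : ℕ) + 1 : ℕ) : ZMod p) n else 0| ≤ 1
  split_ifs
  · exact cosk_le _ _
  · simp

theorem ft_ve (q : Kv p) (k : Fin ((p - 1) / 2)) (c : Fin 2) :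
    ft (fun n => (ve q).1 n c) (((k : ℕ) + 1 : ℕ) : ZMod p) =
      if q.1 = k ∧ q.2.1 = c then (p : ℂ) / 2 else 0 := by
  change ft (fun n => if c = q.2.1 then cosk (((q.1 : ℕ) + 1 : ℕ) : ZMod p) n else 0) _ = _
  by_cases hc : c = q.2.1
  · simp only [hc, if_true, and_true]
    rw [show (fun n => cosk (((q.1 : ℕ) + 1 : ℕ) : ZMod p) n) = cosk (((q.1 : ℕ) + 1 : ℕ) : ZMod p)
      from rfl, ft_cosk]
    have h1 : ((((q.1 : ℕ) + 1 : ℕ) : ZMod p) = (((k : ℕ) + 1 : ℕ) : ZMod p)) ↔ q.1 = k := by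
      constructor
      · intro h
        rw [ZMod.natCast_eq_natCast_iff'] at h
        rw [Nat.mod_eq_of_lt (Kv_lt q.1.2), Nat.mod_eq_of_lt (Kv_lt k.2)] at h
        apply Fin.ext
        omega
      · intro h
        rw [h]
    have h2 : ¬ ((((q.1 : ℕ) + 1 : ℕ) : ZMod p) = -(((k : ℕ) + 1 : ℕ) : ZMod p)) := by
      intro h
      rw [eq_neg_iff_add_eq_zero, ← Nat.cast_add] at h
      have hq := q.1.2
      have hk := k.2
      exact natCast_ne_zero' (by omega) (by omega) h
    simp only [h1, if_neg h2, add_zero]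
    split_ifs <;> simp
  · simp only [hc, if_false]
    rw [if_neg]
    · unfold ft
      simp
    · rintro ⟨_, h⟩
      exact hc h.symm

theorem two_weights (hodd : Odd p) {w0 w1 : ℝ} (h0 : 0 ≤ w0) (h1 : 0 ≤ w1) {a b : ZMod p}
    (h : (w0 : ℂ) * ψc a + (w1 : ℂ) * ψc b = 0) : w0 = 0 ∧ w1 = 0 := by
  have e1 : (w0 : ℂ) * ψc a = -((w1 : ℂ) * ψc b) := eq_neg_of_add_eq_zero_left h
  have e2 : w0 = w1 := by
    have := congrArg norm e1
    rw [norm_neg, norm_mul, norm_mul, norm_ψc, norm_ψc, Complex.norm_real, Complex.norm_real,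
      Real.norm_eq_abs, Real.norm_eq_abs, abs_of_nonneg h0, abs_of_nonneg h1] at this
    linarith
  subst e2
  by_contra hcon
  have hw : w0 ≠ 0 := by
    intro h
    exact hcon ⟨h, h⟩
  have hw' : (w0 : ℂ) ≠ 0 := by exact_mod_cast hw
  have e3 : (ψc a : ℂ) = -ψc b := by
    apply mul_left_cancel₀ hw'
    rw [e1]
    ring
  have hb : (ψc b : ℂ) ≠ 0 := by
    intro h
    have := norm_ψc b
    rw [h] at this
    simp at this
  have e4 : (ψc (a - b) : ℂ) = -1 := by
    have : (ψc (a - b) : ℂ) * ψc b = ψc a := by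
      rw [← AddChar.map_add_eq_mul, sub_add_cancel]
    rw [e3] at this
    apply mul_right_cancel₀ hb
    rw [this]
    ring
  have e5 : (ψc (a - b) : ℂ) ^ p = 1 := by
    rw [← AddChar.map_nsmul_eq_pow, nsmul_eq_mul, CharP.cast_eq_zero, zero_mul,
      AddChar.map_zero_eq_one]
  rw [e4, hodd.neg_one_pow] at e5
  norm_num at e5

/-- Convex combinations. -/
theorem mem_hull_weights {E : Type*} [AddCommGroup E] [Module ℝ E] {x : ℕ → E} {a : ℕ} {y : E}
    (h : y ∈ convexHull ℝ (x '' Set.Iic a)) :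
    ∃ w : ℕ → ℝ, (∀ j, 0 ≤ w j) ∧ ∑ j ∈ Iic a, w j = 1 ∧ ∑ j ∈ Iic a, w j • x j = y := by
  classical
  set S : Set E := {y | ∃ w : ℕ → ℝ, (∀ j, 0 ≤ w j) ∧ ∑ j ∈ Iic a, w j = 1 ∧
    ∑ j ∈ Iic a, w j • x j = y} with hS
  have hconv : Convex ℝ S := by
    intro y1 hy1 y2 hy2 s t hs ht hst
    obtain ⟨w1, h1, h2, h3⟩ := hy1
    obtain ⟨w2, h1', h2', h3'⟩ := hy2
    refine ⟨fun j => s * w1 j + t * w2 j, ?_, ?_, ?_⟩
    · intro j
      have a1 := mul_nonneg hs (h1 j)
      have a2 := mul_nonneg ht (h1' j)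
      exact add_nonneg a1 a2
    · rw [sum_add_distrib, ← mul_sum, ← mul_sum, h2, h2', mul_one, mul_one, hst]
    · rw [← h3, ← h3', smul_sum, smul_sum, ← sum_add_distrib]
      apply sum_congr rfl
      intro j _
      rw [add_smul, mul_smul, mul_smul]
  have hsub : x '' Set.Iic a ⊆ S := by
    rintro _ ⟨j, hj, rfl⟩
    refine ⟨Pi.single j 1, ?_, ?_, ?_⟩
    · intro i
      by_cases hij : i = j
      · subst hij
        simp
      · rw [Pi.single_eq_of_ne hij]
    · rw [sum_eq_single_of_mem j (by rw [mem_Iic]; exact hj)]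
      · simp
      · intro b _ hb
        rw [Pi.single_eq_of_ne hb]
    · rw [sum_eq_single_of_mem j (by rw [mem_Iic]; exact hj)]
      · simp
      · intro b _ hb
        rw [Pi.single_eq_of_ne hb, zero_smul]
  exact convexHull_min hsub hconv h

theorem sum_Iic_equiv {M : Type*} [AddCommMonoid M] {κ : Type} [Fintype κ] {c : ℕ}
    (e : κ ≃ Fin c) {a : ℕ} (ha : a < c) (F : ℕ → M) :
    ∑ j ∈ Iic a, F j = ∑ q : κ, if (e q : ℕ) ≤ a then F (e q) else 0 := by
  classical
  rw [e.sum_comp (fun j : Fin c => if (j : ℕ) ≤ a then F j else 0)]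
  rw [Fin.sum_univ_eq_sum_range (fun j : ℕ => if j ≤ a then F j else 0) c]
  rw [← sum_filter]
  apply sum_congr _ (fun _ _ => rfl)
  ext j
  rw [mem_Iic, mem_filter, mem_range]
  constructor
  · intro h
    exact ⟨by omega, h⟩
  · intro h
    exact h.2

/-- The vertices in a linear order. -/
noncomputable def vs (p : ℕ) [NeZero p] (j : ℕ) : Ep p :=
  if h : j < Fintype.card (Kv p) then ve ((Fintype.equivFin (Kv p)).symm ⟨j, h⟩) else 0

theorem norm_vs (j : ℕ) : ‖vs p j‖ ≤ 1 := by
  unfold vs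
  split_ifs
  · exact norm_ve _
  · simp

theorem vs_equiv (q : Kv p) : vs p ((Fintype.equivFin (Kv p)) q : ℕ) = ve q := by
  unfold vs
  rw [dif_pos ((Fintype.equivFin (Kv p)) q).2]
  simp

theorem zero_notMem_hull (hodd : Odd p) {a : ℕ} (ha : a < Fintype.card (Kv p)) (i : ℕ → ℕ) :
    (0 : Ep p) ∉ Hull (tau p) (vs p) i a := by
  classical
  intro h
  obtain ⟨w, hw0, hw1, hw2⟩ := mem_hull_weights h
  set e := Fintype.equivFin (Kv p) with he
  set W : Kv p → ℝ := fun q => if (e q : ℕ) ≤ a then w (e q) else 0 with hW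
  have hW0 : ∀ q, 0 ≤ W q := by
    intro q
    simp only [hW]
    split_ifs
    · exact hw0 _
    · exact le_refl _
  rw [sum_Iic_equiv e ha] at hw1 hw2
  have h3 : ∀ (n : ZMod p) (c : Fin 2), ∑ q, W q * (ve q).1 (n + ((i (e q) : ℕ) : ZMod p)) c = 0 := by
    intro n c
    have h4 : (∑ q, (if (e q : ℕ) ≤ a then
        w (e q) • ((tau p : Ep p → Ep p)^[i (e q)]) (vs p (e q)) else 0)) =
        ∑ q, W q • ((tau p : Ep p → Ep p)^[i (e q)]) (ve q) := by
      apply sum_congr rfl
      intro q _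
      simp only [hW]
      split_ifs
      · rw [he, vs_equiv q]
      · rw [zero_smul]
    rw [h4] at hw2
    have h5 := congrArg (fun x : Ep p => x.1 n c) hw2
    simp only [Submodule.coe_sum, Submodule.coe_smul, Finset.sum_apply, Pi.smul_apply,
      smul_eq_mul, tau_iterate, ZeroMemClass.coe_zero, Pi.zero_apply] at h5
    exact h5
  have h6 : ∀ q, W q = 0 := by
    have h7 : ∀ (k : Fin ((p - 1) / 2)) (c : Fin 2), W (k, c, 0) = 0 ∧ W (k, c, 1) = 0 := by
      intro k c
      set kk : ZMod p := (((k : ℕ) + 1 : ℕ) : ZMod p) with hkk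
      have h8 : ∑ q, (W q : ℂ) * (ψc (kk * ((i (e q) : ℕ) : ZMod p)) * ft (fun n => (ve q).1 n c) kk) = 0 := by
        have h9 : ∀ q : Kv p, (ψc (kk * ((i (e q) : ℕ) : ZMod p)) * ft (fun n => (ve q).1 n c) kk) =
            ft (fun n => (ve q).1 (n + ((i (e q) : ℕ) : ZMod p)) c) kk := by
          intro q
          rw [ft_shift' (fun n => (ve q).1 n c)]
        rw [sum_congr rfl (fun q _ => by rw [h9 q])]
        unfold ft
        rw [sum_congr rfl (fun q _ => mul_sum _ _ _), sum_comm]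
        apply sum_eq_zero
        intro n _
        have h10 := h3 n c
        have h11 : ∑ q, (W q : ℂ) * (((ve q).1 (n + ((i (e q) : ℕ) : ZMod p)) c : ℝ) * ψc (-(kk * n))) =
            ((∑ q, W q * (ve q).1 (n + ((i (e q) : ℕ) : ZMod p)) c : ℝ) : ℂ) * ψc (-(kk * n)) := by
          push_cast
          rw [sum_mul]
          apply sum_congr rfl
          intro q _
          ring
        rw [h11, h10]
        simp
      rw [sum_congr rfl (fun q _ => by rw [ft_ve q k c])] at h8
      rw [Fintype.sum_prod_type] at h8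
      rw [sum_eq_single_of_mem k (mem_univ _)] at h8
      swap
      · intro k' _ hk'
        apply sum_eq_zero
        intro q _
        rw [if_neg (by simp [hk'])]
        simp
      rw [Fintype.sum_prod_type] at h8
      rw [sum_eq_single_of_mem c (mem_univ _)] at h8
      swap
      · intro c' _ hc'
        apply sum_eq_zero
        intro q _
        rw [if_neg (by simp [hc'])]
        simp
      rw [Fin.sum_univ_two] at h8
      simp only [and_self, if_true] at h8
      have hp0 : (p : ℂ) / 2 ≠ 0 := by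
        have : (p : ℂ) ≠ 0 := by exact_mod_cast NeZero.ne p
        exact div_ne_zero this two_ne_zero
      have h12 : (W (k, c, 0) : ℂ) * ψc (kk * ((i (e (k, c, 0)) : ℕ) : ZMod p)) +
          (W (k, c, 1) : ℂ) * ψc (kk * ((i (e (k, c, 1)) : ℕ) : ZMod p)) = 0 := by
        apply mul_right_cancel₀ hp0
        rw [zero_mul, ← h8]
        ring
      exact two_weights hodd (hW0 _) (hW0 _) h12
    rintro ⟨k, c, b⟩
    have := h7 k c
    fin_cases b
    · exact this.1
    · exact this.2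
  have h13 : ∑ q, W q = 1 := hw1
  rw [sum_eq_zero (fun q _ => h6 q)] at h13
  exact zero_ne_one h13

theorem ζr_eq : ζr p = ψc (1 : ZMod p) := by
  have h := ZMod.stdAddChar_coe (N := p) 1
  unfold ζr ψc
  rw [Int.cast_one] at h
  rw [h]
  congr 1
  push_cast
  ring

theorem bu_zero (hp : 5 ≤ p) (hodd : Odd p) {κ : Type} [Fintype κ]
    (hκ : Fintype.card κ + 2 ≤ p) (H : Wp p → κ → ℂ) (hc : ContinuousOn H {0}ᶜ)
    (heq : ∀ x, x ≠ 0 → ∀ j, H (sh x) j = ψc (1 : ZMod p) * H x j) :
    ∃ x, x ≠ 0 ∧ (∀ c, ∑ n, x n c = 0) ∧ ∀ j, H x j = 0 := by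
  classical
  set e := Fintype.equivFin κ with he
  set h : Ep p → Fin (Fintype.card κ) → ℂ := fun x j => H x.1 (e.symm j) with hh
  have hτ : (tau p : Ep p → Ep p)^[p] = id := by
    funext x
    apply Subtype.ext
    funext n
    rw [tau_iterate]
    simp
  have hcard : 2 * Fintype.card κ < Fintype.card (Kv p) := by
    rw [Fintype.card_prod, Fintype.card_prod, Fintype.card_fin, Fintype.card_fin]
    obtain ⟨m, hm⟩ := hodd
    omega
  obtain ⟨x, hx0, hx⟩ := borsuk_ulam p hp (tau p) hτ (Fintype.card κ) (vs p) norm_vs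
    (fun i => zero_notMem_hull hodd hcard i) h (by
      have h1 : ContinuousOn (fun x : Ep p => H x.1) {0}ᶜ := by
        apply hc.comp continuous_subtype_val.continuousOn
        intro x hx hx0
        apply hx
        exact Subtype.ext hx0
      rw [continuousOn_pi]
      intro j
      exact (continuous_apply (e.symm j)).comp_continuousOn h1) (by
      intro x hx
      funext j
      rw [ζr_eq]
      change H (sh x.1) (e.symm j) = ψc (1 : ZMod p) * H x.1 (e.symm j)
      apply heq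
      intro h0
      exact hx (Subtype.ext h0))
  refine ⟨x.1, ?_, x.2, ?_⟩
  · intro h0
    exact hx0 (Subtype.ext h0)
  · intro j
    have := congrFun hx (e j)
    simp only [hh, Equiv.symm_apply_apply] at this
    exact this

/-- The squared norm. -/
def nrm2 (x : Wp p) : ℝ := ∑ n, ∑ c, x n c ^ 2

theorem nrm2_nonneg (x : Wp p) : 0 ≤ nrm2 x :=
  sum_nonneg fun _ _ => sum_nonneg fun _ _ => sq_nonneg _

theorem nrm2_pos {x : Wp p} (hx : x ≠ 0) : 0 < nrm2 x := by
  apply lt_of_le_of_ne (nrm2_nonneg x)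
  intro h
  apply hx
  funext n c
  unfold nrm2 at h
  have h1 := (sum_eq_zero_iff_of_nonneg (fun n _ =>
    sum_nonneg fun c _ => sq_nonneg (x n c))).1 h.symm n (mem_univ n)
  have h2 := (sum_eq_zero_iff_of_nonneg (fun c _ => sq_nonneg (x n c))).1 h1 c (mem_univ c)
  exact pow_eq_zero_iff (two_ne_zero) |>.1 h2

theorem nrm2_smul (a : ℝ) (x : Wp p) : nrm2 (a • x) = a ^ 2 * nrm2 x := by
  unfold nrm2
  simp only [Pi.smul_apply, smul_eq_mul, mul_pow]
  rw [mul_sum]
  apply sum_congr rfl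
  intro n _
  rw [mul_sum]

theorem nrm2_sh (x : Wp p) : nrm2 (sh x) = nrm2 x := by
  unfold nrm2 sh
  exact sum_shift (fun n => ∑ c, x n c ^ 2) 1

theorem continuous_nrm2 : Continuous (nrm2 (p := p)) := by
  unfold nrm2
  apply continuous_finsetSum
  intro n _
  apply continuous_finsetSum
  intro c _
  exact ((continuous_apply c).comp (continuous_apply n)).pow 2

theorem bu_sphere (hp : 5 ≤ p) (hodd : Odd p) {κ : Type} [Fintype κ]
    (hκ : Fintype.card κ + 2 ≤ p) (H : Wp p → κ → ℂ) (hc : Continuous H)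
    (heq : ∀ x, ∀ j, H (sh x) j = ψc (1 : ZMod p) * H x j) :
    ∃ x : Wp p, nrm2 x = p ∧ (∀ c, ∑ n, x n c = 0) ∧ ∀ j, H x j = 0 := by
  have hp0 : (0 : ℝ) < p := by exact_mod_cast Nat.pos_of_ne_zero (NeZero.ne p)
  obtain ⟨x, hx0, hx1, hx2⟩ := bu_zero hp hodd hκ (fun x => H (√(p / nrm2 x) • x)) (by
      apply hc.comp_continuousOn
      refine ContinuousOn.smul (f := fun x : Wp p => √(p / nrm2 x)) (g := fun x => x) ?_
        continuousOn_id
      apply Real.continuous_sqrt.comp_continuousOn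
      apply continuousOn_const.div continuous_nrm2.continuousOn
      intro x hx
      exact (nrm2_pos hx).ne') (by
      intro x _ j
      have e : √(p / nrm2 (sh x)) • sh x = sh (√(p / nrm2 x) • x) := by
        rw [nrm2_sh]
        rfl
      simp only [e]
      exact heq _ j)
  refine ⟨√(p / nrm2 x) • x, ?_, ?_, hx2⟩
  · have h1 := nrm2_pos hx0
    rw [nrm2_smul, Real.sq_sqrt (div_nonneg hp0.le h1.le), div_mul_cancel₀ _ h1.ne']
  · intro c
    simp only [Pi.smul_apply, smul_eq_mul]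
    rw [← mul_sum, hx1 c, mul_zero]

end Pool.Agent.Helper46.MeanDim
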