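import Pool.Agent.Helper46.MeanDim.Periodic

set_option autoImplicit false

/-!
The equivariant system of equations.
-/

namespace Pool.Agent.Helper46.MeanDim

open Finset

variable {p : ℕ} [NeZero p] [Fact p.Prime]

/-- The exponent turning the character `k` into the character `1`. -/
def lk (k : ZMod p) : ℕ := (k⁻¹ : ZMod p).val

omit [NeZero p] in
theorem lk_ne_zero {k : ZMod p} (hk : k ≠ 0) : lk k ≠ 0 := by
  unfold lk
  intro h
  rw [ZMod.val_eq_zero] at h
  exact hk (inv_eq_zero.1 h)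

theorem ψc_pow_lk {k : ZMod p} (hk : k ≠ 0) : (ψc k : ℂ) ^ (lk k) = ψc (1 : ZMod p) := by
  rw [← AddChar.map_nsmul_eq_pow, nsmul_eq_mul]
  unfold lk
  rw [ZMod.natCast_zmod_val, inv_mul_cancel₀ hk]

theorem raise {k : ZMod p} (hk : k ≠ 0) {z w : ℂ} (h : z = ψc k * w) :
    z ^ (lk k) = ψc (1 : ZMod p) * w ^ (lk k) := by
  rw [h, mul_pow, ψc_pow_lk hk]

/-- The frequency with index `k`. -/
def fq (p : ℕ) (k : ℕ) : ZMod p := ((k + 1 : ℕ) : ZMod p)

theorem fq_ne_zero {k : ℕ} (h : k + 1 < p) : fq p k ≠ 0 := natCast_ne_zero' (by omega) h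

/-- A spectral functional. -/
noncomputable def sf (F : Om → ℝ) (x : Wp p) (k : ZMod p) : ℂ := ft (fun n => F (lft x n)) k

omit [Fact p.Prime] in
theorem sf_sh (F : Om → ℝ) (x : Wp p) (k : ZMod p) : sf F (sh x) k = ψc k * sf F x k := by
  unfold sf
  simp only [lft_sh]
  exact ft_shift (fun n => F (lft x n)) k

omit [Fact p.Prime] in
theorem continuous_sf {F : Om → ℝ} (hF : Continuous F) (k : ZMod p) :
    Continuous fun x : Wp p => sf F x k := by
  unfold sf ft
  apply continuous_finsetSum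
  intro n _
  have h : Continuous fun x : Wp p => F (lft x n) := hF.comp (continuous_lft n)
  exact (Complex.continuous_ofReal.comp h).mul continuous_const

/-- The squared modulus as a functional. -/
def sqf (x : Om) : ℝ := ∑ c, x 0 c ^ 2

theorem continuous_sqf : Continuous sqf := by
  unfold sqf
  apply continuous_finsetSum
  intro c _
  exact ((continuous_apply c).comp (continuous_apply (0 : ℤ))).pow 2

omit [Fact p.Prime] in
theorem sf_sqf (x : Wp p) (k : ZMod p) : sf sqf x k = ft (fun n => ∑ c, x n c ^ 2) k := by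
  unfold sf sqf lft
  simp only [Int.cast_zero, add_zero]

/-- The index type of the equations. -/
abbrev Ke (p : ℕ) : Type :=
  (Fin (p / 16) ⊕ (Σ i : Fin p, Fin (p / Lp i))) ⊕ (Fin ((p - 1) / 2) ⊕ Fin (2 * (p / 16)))

theorem sum_Lp (p n : ℕ) : ∑ i ∈ range n, p / Lp i + p / 2 ^ (n + 4) ≤ p / 16 := by
  induction n with
  | zero => simp
  | succ n ih =>
    rw [sum_range_succ]
    have h1 : p / Lp n = p / 2 ^ (n + 4) / 2 := by
      unfold Lp
      rw [Nat.div_div_eq_div_mul, pow_succ 2 (n + 4)]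
    have h2 : p / 2 ^ (n + 1 + 4) = p / 2 ^ (n + 4) / 2 := by
      rw [Nat.div_div_eq_div_mul, ← pow_succ]
    rw [h1, h2]
    omega

theorem card_Ke (p : ℕ) (hp : 8 ≤ p) : Fintype.card (Ke p) + 2 ≤ p := by
  simp only [Fintype.card_sum, Fintype.card_sigma, Fintype.card_fin]
  have h := sum_Lp p p
  rw [← Fin.sum_univ_eq_sum_range (fun i : ℕ => p / Lp i) p] at h
  have h2 : ∑ i : Fin p, p / Lp i ≤ p / 16 := le_trans (Nat.le_add_right _ _) h
  omega

section

variable (f : Fin 2 → Om → ℝ)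

/-- Normalised Fourier coefficients. -/
noncomputable def VV (x : Wp p) (c : Fin 2) (k : ℕ) : ℂ :=
  ((√(p : ℝ) : ℝ) : ℂ)⁻¹ * sf (f c) x (fq p k)

/-- The cut-off. -/
noncomputable def gq (x : Wp p) (k : ℕ) : ℝ :=
  max 0 (‖VV f x 0 k‖ ^ 2 + ‖VV f x 1 k‖ ^ 2 - 1 / 4)

omit [Fact p.Prime] in
theorem VV_sh (x : Wp p) (c : Fin 2) (k : ℕ) : VV f (sh x) c k = ψc (fq p k) * VV f x c k := by
  unfold VV
  rw [sf_sh]
  ring

omit [Fact p.Prime] in
theorem gq_sh (x : Wp p) (k : ℕ) : gq f (sh x) k = gq f x k := by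
  unfold gq
  rw [VV_sh, VV_sh, norm_mul, norm_mul, norm_ψc, one_mul, one_mul]

variable {f}

omit [Fact p.Prime] in
theorem continuous_VV (hf : ∀ c, Continuous (f c)) (c : Fin 2) (k : ℕ) :
    Continuous fun x : Wp p => VV f x c k :=
  continuous_const.mul (continuous_sf (hf c) _)

omit [Fact p.Prime] in
theorem continuous_gq (hf : ∀ c, Continuous (f c)) (k : ℕ) :
    Continuous fun x : Wp p => gq f x k := by
  unfold gq
  have h0 := continuous_VV (p := p) hf 0 k
  have h1 := continuous_VV (p := p) hf 1 k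
  fun_prop

variable (f)

/-- The coordinate `z`. -/
noncomputable def zq (x : Wp p) (q : Fin ((p - 1) / 2) × Fin 2) : ℂ :=
  ((gq f x q.1 : ℝ) * VV f x q.2 q.1) ^ (lk (fq p q.1))

/-- The system of equations. -/
noncomputable def HH (θ : Fin ((p - 1) / 2) → ℝ) (x : Wp p) : Ke p → ℂ
  | Sum.inl (Sum.inl k) => sf sqf x (fq p k) ^ (lk (fq p k))
  | Sum.inl (Sum.inr k) => sf (ti k.1) x (fq p k.2) ^ (lk (fq p k.2))
  | Sum.inr (Sum.inl k) => (VV f x 0 k + θ k * VV f x 1 k) ^ (lk (fq p k))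
  | Sum.inr (Sum.inr j) => ∑ q, ((2 * (q.1 : ℕ) + (q.2 : ℕ) : ℕ) : ℂ) ^ (j : ℕ) * zq f x q

theorem HH_sh (hp : 64 ≤ p) (θ : Fin ((p - 1) / 2) → ℝ) (x : Wp p) (j : Ke p) :
    HH f θ (sh x) j = ψc (1 : ZMod p) * HH f θ x j := by
  rcases j with (k | k) | (k | j)
  · apply raise
    · apply fq_ne_zero
      have := k.2
      omega
    · exact sf_sh _ _ _
  · apply raise
    · apply fq_ne_zero
      have h1 := k.2.2
      have h2 : p / Lp k.1 ≤ p / 32 := Nat.div_le_div_left (Lp_ge _) (by norm_num)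
      omega
    · exact sf_sh _ _ _
  · apply raise
    · apply fq_ne_zero
      have := k.2
      omega
    · rw [VV_sh, VV_sh]
      ring
  · change ∑ q, ((2 * (q.1 : ℕ) + (q.2 : ℕ) : ℕ) : ℂ) ^ (j : ℕ) * zq f (sh x) q = ψc (1 : ZMod p) * ∑ q, ((2 * (q.1 : ℕ) + (q.2 : ℕ) : ℕ) : ℂ) ^ (j : ℕ) * zq f x q
    rw [mul_sum]
    apply sum_congr rfl
    intro q _
    have : zq f (sh x) q = ψc (1 : ZMod p) * zq f x q := by
      unfold zq
      apply raise
      · apply fq_ne_zero
        have := q.1.2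
        omega
      · rw [gq_sh, VV_sh]
        ring
    rw [this]
    ring

variable {f}

theorem continuous_HH (hf : ∀ c, Continuous (f c)) (θ : Fin ((p - 1) / 2) → ℝ) :
    Continuous fun x : Wp p => HH f θ x := by
  apply continuous_pi
  intro j
  rcases j with (k | k) | (k | j)
  · exact (continuous_sf continuous_sqf _).pow _
  · exact (continuous_sf (continuous_ti _) _).pow _
  · have h0 := continuous_VV (p := p) hf 0 k
    have h1 := continuous_VV (p := p) hf 1 k
    exact (h0.add (continuous_const.mul h1)).pow _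
  · change Continuous fun x : Wp p =>
      ∑ q, ((2 * (q.1 : ℕ) + (q.2 : ℕ) : ℕ) : ℂ) ^ (j : ℕ) * zq f x q
    apply continuous_finsetSum
    intro q _
    apply continuous_const.mul
    unfold zq
    have h0 := continuous_VV (p := p) hf q.2 q.1
    have h1 := continuous_gq (p := p) hf q.1
    exact ((Complex.continuous_ofReal.comp h1).mul h0).pow _

end

end Pool.Agent.Helper46.MeanDim
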