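import Mathlib

set_option autoImplicit false

/-!
Lipschitz approximation and finite covers on a compact space with a compatible distance.
-/

namespace Pool.Agent.Helper46.MeanDim

open Finset

variable {X : Type} [TopologicalSpace X] [CompactSpace X]

/-- A distance function compatible with the topology. -/
structure Compat (d : X → X → ℝ) : Prop where
  zero : ∀ x y, d x y = 0 ↔ x = y
  symm : ∀ x y, d x y = d y x
  tri : ∀ x y z, d x z ≤ d x y + d y z
  top : ∀ U : Set X, IsOpen U ↔ ∀ x ∈ U, ∃ r > 0, ∀ y, d x y < r → y ∈ U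

/-- The metric space. -/
@[reducible] def Compat.ms {d : X → X → ℝ} (h : Compat d) : MetricSpace X :=
  MetricSpace.ofDistTopology d (fun x => (h.zero x x).2 rfl) h.symm h.tri h.top
    (fun x y => (h.zero x y).1)

omit [CompactSpace X] in
theorem Compat.cont {d : X → X → ℝ} (h : Compat d) (x : X) : Continuous fun y => d x y := by
  let := h.ms
  have : Continuous fun y : X => dist x y := continuous_const.dist continuous_id
  exact this

theorem lip_approx {d : X → X → ℝ} (h : Compat d) {φ : X → ℝ} (hφ : Continuous φ) {M : ℝ}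
    (hM : ∀ x, |φ x| ≤ M) :
    ∃ (f : X → ℝ) (C : ℝ), 0 < C ∧ Continuous f ∧ (∀ x y, |f x - f y| ≤ C * d x y) ∧
      ∀ x, |f x - φ x| ≤ 1 / 10 := by
  let := h.ms
  have hdist : ∀ x y : X, d x y = dist x y := fun _ _ => rfl
  have hu : UniformContinuous φ := CompactSpace.uniformContinuous_of_continuous hφ
  rw [Metric.uniformContinuous_iff] at hu
  obtain ⟨δ, hδ, hu⟩ := hu (1 / 10) (by norm_num)
  set C : ℝ := (2 * |M| + 1) / δ with hC
  have hC0 : 0 < C := by positivity
  have hbd : ∀ x, BddBelow (Set.range fun y => φ y + C * d x y) := by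
    intro x
    refine ⟨-M, ?_⟩
    rintro _ ⟨y, rfl⟩
    have h1 := hM y
    rw [abs_le] at h1
    have h2 : 0 ≤ d x y := by rw [hdist]; exact dist_nonneg
    have h3 : 0 ≤ C * d x y := mul_nonneg hC0.le h2
    change -M ≤ φ y + C * d x y
    linarith [h1.1]
  set f : X → ℝ := fun x => ⨅ y, (φ y + C * d x y) with hf
  have hlip1 : ∀ x y, f x ≤ f y + C * d x y := by
    intro x y
    have : Nonempty X := ⟨x⟩
    rw [← sub_le_iff_le_add]
    apply le_ciInf
    intro z
    rw [sub_le_iff_le_add]
    have h1 : f x ≤ φ z + C * d x z := ciInf_le (hbd x) z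
    have h2 := h.tri x y z
    nlinarith
  have hlip : ∀ x y, |f x - f y| ≤ C * d x y := by
    intro x y
    rw [abs_le]
    have h1 := hlip1 x y
    have h2 := hlip1 y x
    rw [h.symm y x] at h2
    constructor <;> linarith
  refine ⟨f, C, hC0, ?_, hlip, ?_⟩
  · have : LipschitzWith (Real.toNNReal C) f := by
      apply LipschitzWith.of_dist_le_mul
      intro x y
      rw [Real.dist_eq, Real.coe_toNNReal _ hC0.le]
      exact hlip x y
    exact this.continuous
  · intro x
    have : Nonempty X := ⟨x⟩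
    rw [abs_le]
    constructor
    · rw [neg_le_sub_iff_le_add, ← sub_le_iff_le_add]
      apply le_ciInf
      intro y
      by_cases hxy : d x y < δ
      · have h1 := hu (a := x) (b := y) hxy
        rw [Real.dist_eq, abs_lt] at h1
        have h2 : 0 ≤ C * d x y := mul_nonneg hC0.le (by rw [hdist]; exact dist_nonneg)
        linarith [h1.2]
      · push Not at hxy
        have h1 := hM x
        have h2 := hM y
        rw [abs_le] at h1 h2
        have h3 : C * δ ≤ C * d x y := mul_le_mul_of_nonneg_left hxy hC0.le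
        have h4 : C * δ = 2 * |M| + 1 := by rw [hC]; field_simp
        have h5 := le_abs_self M
        linarith [h1.2, h2.1]
    · have h1 : f x ≤ φ x + C * d x x := ciInf_le (hbd x) x
      rw [(h.zero x x).2 rfl] at h1
      linarith

theorem exists_fin_cover {d : X → X → ℝ} (h : Compat d) {T : X → X} (hT : Continuous T) (n : ℕ)
    {ε : ℝ} (hε : 0 < ε) :
    ∃ k : ℕ, ∃ F : Finset (Set X), F.card = k ∧ ⋃₀ (F : Set (Set X)) = Set.univ ∧
            ∀ A ∈ F, ∀ x ∈ A, ∀ y ∈ A, ∀ i < n, d (T^[i] x) (T^[i] y) < ε := by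
  classical
  set U : X → Set X := fun x => ⋂ i ∈ range n, {y | d (T^[i] x) (T^[i] y) < ε / 2} with hU
  have hUo : ∀ x, IsOpen (U x) := by
    intro x
    apply isOpen_biInter_finset
    intro i _
    exact isOpen_lt ((h.cont (T^[i] x)).comp (hT.iterate i)) continuous_const
  have hxU : ∀ x, x ∈ U x := by
    intro x
    simp only [hU, Set.mem_iInter]
    intro i _
    change d _ _ < ε / 2
    rw [(h.zero _ _).2 rfl]
    linarith
  obtain ⟨t, ht⟩ := (isCompact_univ : IsCompact (Set.univ : Set X)).elim_finite_subcover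
    U hUo (fun x _ => Set.mem_iUnion.2 ⟨x, hxU x⟩)
  refine ⟨_, t.image U, rfl, ?_, ?_⟩
  · rw [Set.eq_univ_iff_forall]
    intro x
    have := ht (Set.mem_univ x)
    simp only [Set.mem_iUnion] at this
    obtain ⟨v, hv, hxv⟩ := this
    exact ⟨_, mem_coe.2 (mem_image_of_mem _ hv), hxv⟩
  · intro A hA x hx y hy i hi
    rw [mem_image] at hA
    obtain ⟨z, _, rfl⟩ := hA
    simp only [hU, Set.mem_iInter] at hx hy
    have h1 : d (T^[i] z) (T^[i] x) < ε / 2 := hx i (mem_range.2 hi)
    have h2 : d (T^[i] z) (T^[i] y) < ε / 2 := hy i (mem_range.2 hi)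
    have h3 := h.tri (T^[i] x) (T^[i] z) (T^[i] y)
    rw [h.symm (T^[i] x) (T^[i] z)] at h3
    linarith

end Pool.Agent.Helper46.MeanDim
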