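import Pool.Agent.Helper46.MeanDim.MainP
import Pool.Agent.Helper46.MeanDim.Lip

set_option autoImplicit false
open scoped ENNReal

/-!
The lower bound for the metric mean dimension.
-/

namespace Pool.Agent.Helper46.MeanDim

open Finset

theorem exists_ext {d : XS → XS → ℝ} (h : Compat d) (c : Fin 2) :
    ∃ (f : Om → ℝ) (C : ℝ), 0 < C ∧ Continuous f ∧
      (∀ x y : XS, |f x.1 - f y.1| ≤ C * d x y) ∧ ∀ x ∈ XX, |f x - x 0 c| ≤ 1 / 10 := by
  have h0 : Continuous fun x : Om => x (0 : ℤ) c :=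
    (continuous_apply c).comp (continuous_apply (0 : ℤ))
  have hφ : Continuous fun x : XS => x.1 0 c := h0.comp continuous_subtype_val
  obtain ⟨f, C, hC, hf, hlip, happ⟩ := lip_approx h hφ (M := 4) (fun x => x.2.1 0 c)
  obtain ⟨g, hg⟩ := ContinuousMap.exists_restrict_eq isClosed_XX (⟨f, hf⟩ : C(XX, ℝ))
  have hgf : ∀ x : XS, g x.1 = f x := by
    intro x
    have := congrArg (fun k : C(XX, ℝ) => k x) hg
    exact this
  refine ⟨g, C, hC, g.continuous, ?_, ?_⟩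
  · intro x y
    rw [hgf, hgf]
    exact hlip x y
  · intro x hx
    have := happ ⟨x, hx⟩
    rw [← hgf] at this
    exact this

theorem card_ge {d : XS → XS → ℝ} (h : Compat d) : ∃ B0 : ℕ, ∀ B : ℕ, B0 ≤ B →
    ∀ p : ℕ, p.Prime → 64 ≤ p →
      B ^ ((p / 16 + 2) / 2) ≤ sInf {k : ℕ | ∃ F : Finset (Set XS), F.card = k ∧
            ⋃₀ (F : Set (Set XS)) = Set.univ ∧
            ∀ A ∈ F, ∀ x ∈ A, ∀ y ∈ A, ∀ i < p,
              d ((⇑TS)^[i] x) ((⇑TS)^[i] y) < ((B : ℝ) ^ 2)⁻¹} := by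
  have hex := fun c : Fin 2 => exists_ext h c
  choose f C hC hf hlip happ using hex
  obtain ⟨B0, hB0⟩ := exists_nat_ge (1088 * (C 0 + C 1))
  refine ⟨max 1 B0, ?_⟩
  intro B hB p hp hp64
  have : Fact p.Prime := ⟨hp⟩
  have : NeZero p := ⟨by omega⟩
  have hB1 : 1 ≤ B := (le_max_left _ _).trans hB
  have hB2 : B0 ≤ B := (le_max_right _ _).trans hB
  have hB1' : (1 : ℝ) ≤ B := by exact_mod_cast hB1
  have hB2' : (B0 : ℝ) ≤ B := by exact_mod_cast hB2
  by_contra hcon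
  push Not at hcon
  have hne : {k : ℕ | ∃ F : Finset (Set XS), F.card = k ∧
            ⋃₀ (F : Set (Set XS)) = Set.univ ∧
            ∀ A ∈ F, ∀ x ∈ A, ∀ y ∈ A, ∀ i < p,
              d ((⇑TS)^[i] x) ((⇑TS)^[i] y) < ((B : ℝ) ^ 2)⁻¹}.Nonempty :=
    exists_fin_cover h TS.continuous p (by positivity)
  obtain ⟨F, hFc, hFu, hFd⟩ := Nat.sInf_mem hne
  rw [← hFc] at hcon
  have hCp : 0 < C 0 + C 1 := add_pos (hC 0) (hC 1)
  refine main_p hp64 hB1 hf (fun c => happ c) hFu (δ := (C 0 + C 1) * ((B : ℝ) ^ 2)⁻¹)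
    (by positivity) ?_ ?_ hcon
  · have hB0' : (0 : ℝ) < B := by linarith
    have e : (C 0 + C 1) * ((B : ℝ) ^ 2)⁻¹ * (1088 * B) = 1088 * (C 0 + C 1) / B := by
      field_simp
    rw [e, div_le_one hB0']
    linarith
  · intro A hA x hx y hy i hi c
    rw [← TS_iterate, ← TS_iterate]
    refine (hlip c _ _).trans ?_
    have h1 := (hFd A hA x hx y hy i hi).le
    have h2 : C c ≤ C 0 + C 1 := by
      fin_cases c
      · change C 0 ≤ C 0 + C 1
        linarith [hC 1]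
      · change C 1 ≤ C 0 + C 1
        linarith [hC 0]
    have h3 : 0 ≤ d ((⇑TS)^[i] x) ((⇑TS)^[i] y) := by
      have h4 := h.tri ((⇑TS)^[i] x) ((⇑TS)^[i] y) ((⇑TS)^[i] x)
      rw [(h.zero _ _).2 rfl, h.symm ((⇑TS)^[i] y)] at h4
      linarith
    calc C c * d ((⇑TS)^[i] x) ((⇑TS)^[i] y) ≤ (C 0 + C 1) * d ((⇑TS)^[i] x) ((⇑TS)^[i] y) :=
          mul_le_mul_of_nonneg_right h2 h3
      _ ≤ _ := mul_le_mul_of_nonneg_left h1 hCp.le

theorem rhs_ge {d : XS → XS → ℝ} (h : Compat d) :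
    ENNReal.ofReal (1 / 64) ≤ Filter.limsup (fun ε : ℝ =>
        Filter.limsup (fun n : ℕ =>
          ENNReal.ofReal (Real.log ((sInf {k : ℕ | ∃ F : Finset (Set XS), F.card = k ∧
            ⋃₀ (F : Set (Set XS)) = Set.univ ∧
            ∀ A ∈ F, ∀ x ∈ A, ∀ y ∈ A, ∀ i < n,
              d ((⇑TS)^[i] x) ((⇑TS)^[i] y) < ε} : ℕ) : ℝ) / (n : ℝ))) Filter.atTop
        / ENNReal.ofReal (Real.log (1 / ε)))
      (nhdsWithin 0 (Set.Ioi 0)) := by
  obtain ⟨B0, hB0⟩ := card_ge h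
  apply Filter.le_limsup_of_frequently_le'
  have htend : Filter.Tendsto (fun B : ℕ => ((B : ℝ) ^ 2)⁻¹) Filter.atTop
      (nhdsWithin 0 (Set.Ioi 0)) := by
    rw [tendsto_nhdsWithin_iff]
    refine ⟨?_, ?_⟩
    · apply Filter.Tendsto.inv_tendsto_atTop
      exact (Filter.tendsto_pow_atTop (by norm_num)).comp tendsto_natCast_atTop_atTop
    · rw [Filter.eventually_atTop]
      refine ⟨1, fun B hB => ?_⟩
      have : (0 : ℝ) < B := by exact_mod_cast hB
      change (0 : ℝ) < _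
      positivity
  apply htend.frequently
  apply Filter.Eventually.frequently
  rw [Filter.eventually_atTop]
  refine ⟨max B0 2, ?_⟩
  intro B hB
  have hB1 : B0 ≤ B := (le_max_left _ _).trans hB
  have hB2 : 2 ≤ B := (le_max_right _ _).trans hB
  have hB2' : (2 : ℝ) ≤ B := by exact_mod_cast hB2
  have hlog : 0 < Real.log B := Real.log_pos (by linarith)
  have hlog2 : Real.log (1 / ((B : ℝ) ^ 2)⁻¹) = 2 * Real.log B := by
    rw [one_div, inv_inv, Real.log_pow]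
    push_cast
    ring
  rw [hlog2]
  have hpos : ENNReal.ofReal (2 * Real.log B) ≠ 0 := by
    rw [Ne, ENNReal.ofReal_eq_zero, not_le]
    linarith
  rw [ENNReal.le_div_iff_mul_le (Or.inl hpos) (Or.inl ENNReal.ofReal_ne_top)]
  rw [← ENNReal.ofReal_mul (by norm_num)]
  have e : (1 : ℝ) / 64 * (2 * Real.log B) = Real.log B / 32 := by ring
  rw [e]
  apply Filter.le_limsup_of_frequently_le'
  rw [Filter.frequently_atTop]
  intro N
  obtain ⟨p, hpN, hp⟩ := Nat.exists_infinite_primes (max N 64)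
  have hp64 : 64 ≤ p := (le_max_right _ _).trans hpN
  refine ⟨p, (le_max_left _ _).trans hpN, ?_⟩
  apply ENNReal.ofReal_le_ofReal
  have h1 := hB0 B hB1 p hp hp64
  set k := sInf {k : ℕ | ∃ F : Finset (Set XS), F.card = k ∧
            ⋃₀ (F : Set (Set XS)) = Set.univ ∧
            ∀ A ∈ F, ∀ x ∈ A, ∀ y ∈ A, ∀ i < p,
              d ((⇑TS)^[i] x) ((⇑TS)^[i] y) < ((B : ℝ) ^ 2)⁻¹} with hk
  have hp0 : (0 : ℝ) < p := by
    have : 0 < p := by omega
    exact_mod_cast this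
  rw [le_div_iff₀ hp0]
  have h2 : (B : ℝ) ^ ((p / 16 + 2) / 2) ≤ k := by exact_mod_cast h1
  have h3 : Real.log ((B : ℝ) ^ ((p / 16 + 2) / 2)) ≤ Real.log k := by
    apply Real.log_le_log _ h2
    positivity
  rw [Real.log_pow] at h3
  have h4 : (p : ℝ) / 32 ≤ (((p / 16 + 2) / 2 : ℕ) : ℝ) := by
    have : p ≤ (p / 16 + 2) / 2 * 32 := by omega
    have h5 : (p : ℝ) ≤ (((p / 16 + 2) / 2 : ℕ) : ℝ) * 32 := by exact_mod_cast this
    linarith
  calc Real.log B / 32 * p = p / 32 * Real.log B := by ring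
    _ ≤ (((p / 16 + 2) / 2 : ℕ) : ℝ) * Real.log B := mul_le_mul_of_nonneg_right h4 hlog.le
    _ ≤ Real.log k := h3

end Pool.Agent.Helper46.MeanDim
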