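import Mathlib

set_option autoImplicit false

/-!
Fourier analysis of real functions on a finite cyclic group: Parseval, the Fejer kernel, and
two consequences for functions without low frequencies.
-/

namespace Pool.Agent.Helper46.MeanDim

open Finset

variable {p : ℕ} [NeZero p]

/-- The standard character. -/
noncomputable abbrev ψc : AddChar (ZMod p) ℂ := ZMod.stdAddChar

theorem norm_ψc (a : ZMod p) : ‖(ψc a : ℂ)‖ = 1 := by
  unfold ψc
  rw [ZMod.stdAddChar_apply]
  exact Circle.norm_coe _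

theorem ψc_conj (a : ZMod p) : (starRingEnd ℂ) (ψc a) = ψc (-a) := by
  have h1 : (ψc a : ℂ) * ψc (-a) = 1 := by
    rw [← AddChar.map_add_eq_mul]
    simp
  have h2 : (ψc a : ℂ) * (starRingEnd ℂ) (ψc a) = 1 := by
    rw [Complex.mul_conj, Complex.normSq_eq_norm_sq, norm_ψc]
    norm_num
  have h3 : (ψc a : ℂ) ≠ 0 := by
    intro h
    have := norm_ψc a
    rw [h] at this
    simp at this
  exact mul_left_cancel₀ h3 (h2.trans h1.symm)

theorem sum_ψc (b : ZMod p) : ∑ x : ZMod p, (ψc (x * b) : ℂ) = if b = 0 then (p : ℂ) else 0 := by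
  have h := AddChar.sum_mulShift b (ZMod.isPrimitive_stdAddChar p)
  rw [ZMod.card] at h
  push_cast at h
  exact h

/-- The Fourier transform. -/
noncomputable def ft (y : ZMod p → ℝ) (k : ZMod p) : ℂ := ∑ n, (y n : ℂ) * ψc (-(k * n))

theorem ft_shift (y : ZMod p → ℝ) (k : ZMod p) :
    ft (fun n => y (n + 1)) k = ψc k * ft y k := by
  unfold ft
  rw [mul_sum]
  apply Fintype.sum_bijective (fun n : ZMod p => n + 1) (AddGroup.addRight_bijective 1)
  intro n
  have : (-(k * n) : ZMod p) = k + (-(k * (n + 1))) := by ring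
  rw [this, AddChar.map_add_eq_mul]
  ring

theorem ft_neg (y : ZMod p → ℝ) (k : ZMod p) : ft y (-k) = (starRingEnd ℂ) (ft y k) := by
  unfold ft
  rw [map_sum]
  apply sum_congr rfl
  intro n _
  rw [map_mul, Complex.conj_ofReal, ψc_conj]
  congr 2
  ring

theorem ft_sub (y z : ZMod p → ℝ) (k : ZMod p) :
    ft (fun n => y n - z n) k = ft y k - ft z k := by
  unfold ft
  rw [← sum_sub_distrib]
  apply sum_congr rfl
  intro n _
  push_cast
  ring

theorem parseval (y : ZMod p → ℝ) : ∑ k, ‖ft y k‖ ^ 2 = p * ∑ n, y n ^ 2 := by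
  have h : ∀ k : ZMod p, ((‖ft y k‖ ^ 2 : ℝ) : ℂ) =
      ∑ n, ∑ n', (y n : ℂ) * (y n' : ℂ) * ψc (k * (n' - n)) := by
    intro k
    have e1 : ((‖ft y k‖ ^ 2 : ℝ) : ℂ) = ft y k * (starRingEnd ℂ) (ft y k) := by
      rw [Complex.mul_conj, Complex.normSq_eq_norm_sq]
    rw [e1]
    unfold ft
    rw [map_sum, sum_mul_sum]
    apply sum_congr rfl
    intro n _
    apply sum_congr rfl
    intro n' _
    rw [map_mul, Complex.conj_ofReal, ψc_conj]
    have : (k * (n' - n) : ZMod p) = -(k * n) + -(-(k * n')) := by ring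
    rw [this, AddChar.map_add_eq_mul]
    ring
  have h2 : ((∑ k, ‖ft y k‖ ^ 2 : ℝ) : ℂ) = ((p * ∑ n, y n ^ 2 : ℝ) : ℂ) := by
    rw [Complex.ofReal_sum]
    rw [sum_congr rfl (fun k _ => h k)]
    rw [sum_comm]
    push_cast
    rw [mul_sum]
    apply sum_congr rfl
    intro n _
    rw [sum_comm]
    have : ∀ n' : ZMod p, ∑ k : ZMod p, (y n : ℂ) * (y n' : ℂ) * ψc (k * (n' - n))
        = (y n : ℂ) * (y n' : ℂ) * (if n' = n then (p : ℂ) else 0) := by
      intro n'
      rw [← mul_sum, sum_ψc]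
      simp only [sub_eq_zero]
    rw [sum_congr rfl (fun n' _ => this n')]
    simp
    ring
  exact_mod_cast h2

/-- The Fejer kernel. -/
noncomputable def fej (p m : ℕ) [NeZero p] (j : ZMod p) : ℝ :=
  ‖∑ a ∈ range (m + 1), (ψc ((a : ZMod p) * j) : ℂ)‖ ^ 2 / (p * (m + 1))

theorem fej_nonneg (m : ℕ) (j : ZMod p) : 0 ≤ fej p m j := by
  unfold fej
  positivity

theorem fej_zero (m : ℕ) : fej p m 0 = (m + 1) / p := by
  have hp : (p : ℝ) ≠ 0 := by exact_mod_cast NeZero.ne p
  unfold fej
  simp only [mul_zero, AddChar.map_zero_eq_one, sum_const, card_range, nsmul_eq_mul, mul_one]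
  rw [Complex.norm_natCast]
  push_cast
  field_simp

theorem ft_zero_of_low {y : ZMod p → ℝ} {m : ℕ} (h : ∀ k : ℕ, 1 ≤ k → k ≤ m → ft y (k : ZMod p) = 0)
    {a b : ℕ} (ha : a ≤ m) (hb : b ≤ m) (hab : a ≠ b) : ft y ((a : ZMod p) - b) = 0 := by
  rcases lt_or_gt_of_ne hab with hlt | hgt
  · have : ((a : ZMod p) - b) = -(((b - a : ℕ)) : ZMod p) := by
      rw [Nat.cast_sub hlt.le]
      ring
    rw [this, ft_neg, h (b - a) (by omega) (by omega), map_zero]
  · have : ((a : ZMod p) - b) = (((a - b : ℕ)) : ZMod p) := by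
      rw [Nat.cast_sub hgt.le]
    rw [this, h (a - b) (by omega) (by omega)]

/-- Convolution with the Fejer kernel of a function without low frequencies is its mean. -/
theorem fej_conv {y : ZMod p → ℝ} {m : ℕ}
    (h : ∀ k : ℕ, 1 ≤ k → k ≤ m → ft y (k : ZMod p) = 0) (n : ZMod p) :
    ∑ j, fej p m j * y (n - j) = (∑ j, y j) / p := by
  have hp : (p : ℂ) ≠ 0 := by exact_mod_cast NeZero.ne p
  have hm : ((m : ℂ) + 1) ≠ 0 := by exact_mod_cast Nat.succ_ne_zero m
  have h1 : ∀ j : ZMod p, ((fej p m j : ℝ) : ℂ) =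
      (∑ a ∈ range (m + 1), ∑ b ∈ range (m + 1), (ψc (((a : ZMod p) - (b : ZMod p)) * j) : ℂ)) /
        (p * (m + 1)) := by
    intro j
    unfold fej
    push_cast
    congr 1
    have e1 : ((‖∑ a ∈ range (m + 1), (ψc ((a : ZMod p) * j) : ℂ)‖ : ℂ)) ^ 2 =
        (∑ a ∈ range (m + 1), (ψc ((a : ZMod p) * j) : ℂ)) *
        (starRingEnd ℂ) (∑ a ∈ range (m + 1), (ψc ((a : ZMod p) * j) : ℂ)) := by
      rw [Complex.mul_conj, Complex.normSq_eq_norm_sq]
      push_cast
      ring
    rw [e1, map_sum, sum_mul_sum]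
    apply sum_congr rfl
    intro a _
    apply sum_congr rfl
    intro b _
    rw [ψc_conj, ← AddChar.map_add_eq_mul]
    congr 1
    ring
  have h2 : ((∑ j, fej p m j * y (n - j) : ℝ) : ℂ) = (((∑ j, y j) / p : ℝ) : ℂ) := by
    push_cast
    have e2 : ∀ a ∈ range (m + 1), ∀ b ∈ range (m + 1),
        ∑ j : ZMod p, (ψc (((a : ZMod p) - (b : ZMod p)) * j) : ℂ) * (y (n - j) : ℂ) =
          if a = b then ∑ j, (y j : ℂ) else 0 := by
      intro a ha b hb
      rw [mem_range] at ha hb
      have e3 : ∑ j : ZMod p, (ψc (((a : ZMod p) - (b : ZMod p)) * j) : ℂ) * (y (n - j) : ℂ) =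
          ψc (((a : ZMod p) - (b : ZMod p)) * n) * ft y ((a : ZMod p) - (b : ZMod p)) := by
        unfold ft
        rw [mul_sum]
        apply Fintype.sum_bijective (fun j : ZMod p => n - j) (Equiv.subLeft n).bijective
        intro j
        have : (((a : ZMod p) - b) * j : ZMod p) =
            ((a : ZMod p) - b) * n + -(((a : ZMod p) - b) * (n - j)) := by ring
        rw [this, AddChar.map_add_eq_mul]
        ring
      rw [e3]
      split_ifs with hab
      · subst hab
        simp [ft]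
      · rw [ft_zero_of_low h (by omega) (by omega) hab, mul_zero]
    calc ∑ j : ZMod p, (fej p m j : ℂ) * (y (n - j) : ℂ)
        = ∑ j : ZMod p, (∑ a ∈ range (m + 1), ∑ b ∈ range (m + 1),
          (ψc (((a : ZMod p) - (b : ZMod p)) * j) : ℂ) * (y (n - j) : ℂ)) / (p * (m + 1)) := by
          apply sum_congr rfl
          intro j _
          rw [h1 j]
          rw [div_mul_eq_mul_div, sum_mul]
          congr 1
          apply sum_congr rfl
          intro a _
          rw [sum_mul]
      _ = (∑ a ∈ range (m + 1), ∑ b ∈ range (m + 1), ∑ j : ZMod p,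
          (ψc (((a : ZMod p) - (b : ZMod p)) * j) : ℂ) * (y (n - j) : ℂ)) / (p * (m + 1)) := by
          rw [← sum_div]
          congr 1
          rw [sum_comm]
          apply sum_congr rfl
          intro a _
          rw [sum_comm]
      _ = (∑ a ∈ range (m + 1), ∑ b ∈ range (m + 1), if a = b then ∑ j, (y j : ℂ) else 0) /
          (p * (m + 1)) := by
          congr 1
          apply sum_congr rfl
          intro a ha
          apply sum_congr rfl
          intro b hb
          exact e2 a ha b hb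
      _ = (∑ j, (y j : ℂ)) / p := by
          simp only [sum_ite_eq, mem_range]
          rw [sum_congr rfl (g := fun _ => ∑ j, (y j : ℂ))
            (fun a ha => by rw [if_pos (mem_range.1 ha)])]
          rw [sum_const, card_range, nsmul_eq_mul]
          push_cast
          field_simp
  exact_mod_cast h2

/-- Pointwise bound for nonnegative functions without low frequencies. -/
theorem le_of_low {y : ZMod p → ℝ} {m : ℕ} (hy : ∀ n, 0 ≤ y n)
    (h : ∀ k : ℕ, 1 ≤ k → k ≤ m → ft y (k : ZMod p) = 0) (n : ZMod p) :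
    y n ≤ (∑ j, y j) / (m + 1) := by
  have hp : (0 : ℝ) < p := by exact_mod_cast Nat.pos_of_ne_zero (NeZero.ne p)
  have h1 := fej_conv h n
  have h2 : fej p m 0 * y (n - 0) ≤ ∑ j, fej p m j * y (n - j) :=
    single_le_sum (f := fun j => fej p m j * y (n - j))
      (fun j _ => mul_nonneg (fej_nonneg m j) (hy _)) (mem_univ 0)
  rw [h1, fej_zero, sub_zero] at h2
  rw [le_div_iff₀ (by positivity)]
  rw [div_mul_eq_mul_div, div_le_div_iff_of_pos_right hp] at h2
  linarith

end Pool.Agent.Helper46.MeanDim
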