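import Pool.Agent.Helper46.MeanDim.Final

set_option autoImplicit false
open scoped ENNReal

/-!
The lower bound for all times and all small scales.
-/

namespace Pool.Agent.Helper46.MeanDim

open Finset

/-- `F` is a finite cover by sets of small diameter up to time `n`. -/
def IsCov {X : Type} (d : X → X → ℝ) (T : X → X) (n : ℕ) (ε : ℝ) (F : Finset (Set X)) : Prop :=
  ⋃₀ (F : Set (Set X)) = Set.univ ∧
    ∀ A ∈ F, ∀ x ∈ A, ∀ y ∈ A, ∀ i < n, d (T^[i] x) (T^[i] y) < ε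

theorem isCov_add {X : Type} {d : X → X → ℝ} {T : X → X} {m n : ℕ} {ε : ℝ}
    {F G : Finset (Set X)} (hF : IsCov d T m ε F) (hG : IsCov d T n ε G) :
    ∃ H : Finset (Set X), IsCov d T (m + n) ε H ∧ H.card ≤ F.card * G.card := by
  classical
  refine ⟨(F ×ˢ G).image (fun q => q.1 ∩ (T^[m]) ⁻¹' q.2), ⟨?_, ?_⟩, ?_⟩
  · rw [Set.eq_univ_iff_forall]
    intro x
    obtain ⟨A, hA, hxA⟩ := (Set.eq_univ_iff_forall.1 hF.1) x
    obtain ⟨A', hA', hxA'⟩ := (Set.eq_univ_iff_forall.1 hG.1) (T^[m] x)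
    refine ⟨A ∩ (T^[m]) ⁻¹' A', ?_, hxA, hxA'⟩
    rw [mem_coe, mem_image]
    exact ⟨(A, A'), mem_product.2 ⟨hA, hA'⟩, rfl⟩
  · intro A hA x hx y hy i hi
    rw [mem_image] at hA
    obtain ⟨⟨A, A'⟩, hAA', rfl⟩ := hA
    rw [mem_product] at hAA'
    by_cases him : i < m
    · exact hF.2 A hAA'.1 x hx.1 y hy.1 i him
    · obtain ⟨j, rfl⟩ : ∃ j, i = j + m := ⟨i - m, by omega⟩
      rw [Function.iterate_add_apply, Function.iterate_add_apply]
      exact hG.2 A' hAA'.2 _ hx.2 _ hy.2 j (by omega)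
  · exact card_image_le.trans (card_product _ _).le

theorem isCov_mul {X : Type} {d : X → X → ℝ} {T : X → X} {n : ℕ} {ε : ℝ}
    {F : Finset (Set X)} (hF : IsCov d T n ε F) (q : ℕ) :
    ∃ H : Finset (Set X), IsCov d T (q * n) ε H ∧ H.card ≤ F.card ^ q := by
  classical
  induction q with
  | zero =>
    refine ⟨{Set.univ}, ⟨?_, ?_⟩, ?_⟩
    · simp
    · intro A _ x _ y _ i hi
      omega
    · simp
  | succ q ih =>
    obtain ⟨H, hH, hHc⟩ := ih
    obtain ⟨H', hH', hHc'⟩ := isCov_add hH hF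
    refine ⟨H', ?_, ?_⟩
    · rw [Nat.succ_mul]
      exact hH'
    · rw [pow_succ]
      exact hHc'.trans (Nat.mul_le_mul_right _ hHc)

theorem isCov_card {d : XS → XS → ℝ} (h : Compat d) : ∃ B0 : ℕ, ∀ B : ℕ, B0 ≤ B → 2 ≤ B →
    ∀ n : ℕ, 1 ≤ n → ∀ F : Finset (Set XS), IsCov d TS n ((B : ℝ) ^ 2)⁻¹ F →
      n / 32 * Real.log B ≤ Real.log F.card := by
  obtain ⟨B0, hB0⟩ := card_ge h
  refine ⟨B0, ?_⟩
  intro B hB hB2 n hn F hF
  have hB2' : (2 : ℝ) ≤ B := by exact_mod_cast hB2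
  have hlog : 0 < Real.log B := Real.log_pos (by linarith)
  by_contra hcon
  push Not at hcon
  set a : ℝ := n / 32 * Real.log B with ha
  set b : ℝ := Real.log F.card with hb
  obtain ⟨M, hM⟩ := exists_nat_gt (b * n / (a - b))
  obtain ⟨p, hpM, hp⟩ := Nat.exists_infinite_primes (max M 64)
  have hp64 : 64 ≤ p := (le_max_right _ _).trans hpM
  have hpM' : (M : ℝ) ≤ p := by exact_mod_cast (le_max_left _ _).trans hpM
  have hp0 : (0 : ℝ) < p := by
    have : 0 < p := by omega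
    exact_mod_cast this
  obtain ⟨H, hH, hHc⟩ := isCov_mul hF (p / n + 1)
  have hpn : p ≤ (p / n + 1) * n := by
    rw [mul_comm]
    exact (Nat.lt_mul_div_succ p (by omega)).le
  have h1 := hB0 B hB p hp hp64
  have h2 : sInf {k : ℕ | ∃ F : Finset (Set XS), F.card = k ∧
            ⋃₀ (F : Set (Set XS)) = Set.univ ∧
            ∀ A ∈ F, ∀ x ∈ A, ∀ y ∈ A, ∀ i < p,
              d ((⇑TS)^[i] x) ((⇑TS)^[i] y) < ((B : ℝ) ^ 2)⁻¹} ≤ H.card := by
    apply Nat.sInf_le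
    refine ⟨H, rfl, hH.1, ?_⟩
    intro A hA x hx y hy i hi
    exact hH.2 A hA x hx y hy i (lt_of_lt_of_le hi hpn)
  have h3 : B ^ ((p / 16 + 2) / 2) ≤ F.card ^ (p / n + 1) := h1.trans (h2.trans hHc)
  have h4 : ((B : ℝ) ^ ((p / 16 + 2) / 2)) ≤ (F.card : ℝ) ^ (p / n + 1) := by exact_mod_cast h3
  have h5 : Real.log ((B : ℝ) ^ ((p / 16 + 2) / 2)) ≤ Real.log ((F.card : ℝ) ^ (p / n + 1)) := by
    apply Real.log_le_log _ h4
    positivity
  rw [Real.log_pow, Real.log_pow, ← hb] at h5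
  have h6 : (p : ℝ) / 32 ≤ (((p / 16 + 2) / 2 : ℕ) : ℝ) := by
    have : p ≤ (p / 16 + 2) / 2 * 32 := by omega
    have h7 : (p : ℝ) ≤ (((p / 16 + 2) / 2 : ℕ) : ℝ) * 32 := by exact_mod_cast this
    linarith
  have h7 : (p : ℝ) / 32 * Real.log B ≤ ((p / n + 1 : ℕ) : ℝ) * b :=
    (mul_le_mul_of_nonneg_right h6 hlog.le).trans h5
  have hb0 : 0 ≤ b := by
    have h8 : 0 < (p : ℝ) / 32 * Real.log B := by positivity
    by_contra hneg
    push Not at hneg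
    have h9 : ((p / n + 1 : ℕ) : ℝ) * b ≤ 0 :=
      mul_nonpos_of_nonneg_of_nonpos (by positivity) hneg.le
    linarith
  have hn0 : (0 : ℝ) < n := by exact_mod_cast hn
  have h8 : ((p / n + 1 : ℕ) : ℝ) ≤ p / n + 1 := by
    push_cast
    have := @Nat.cast_div_le ℝ _ _ _ p n
    linarith
  have h9 : (p : ℝ) / 32 * Real.log B ≤ (p / n + 1) * b :=
    h7.trans (mul_le_mul_of_nonneg_right h8 hb0)
  have h10 : a * p ≤ (p + n) * b := by
    have h11 : (n : ℝ) * ((p : ℝ) / 32 * Real.log B) ≤ n * ((p / n + 1) * b) :=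
      mul_le_mul_of_nonneg_left h9 hn0.le
    have e1 : (n : ℝ) * ((p : ℝ) / 32 * Real.log B) = a * p := by rw [ha]; ring
    have e2 : (n : ℝ) * ((p / n + 1) * b) = (p + n) * b := by
      field_simp
    rw [e1, e2] at h11
    exact h11
  have hab : 0 < a - b := by linarith
  rw [div_lt_iff₀ hab] at hM
  have h11 : (M : ℝ) * (a - b) ≤ p * (a - b) := mul_le_mul_of_nonneg_right hpM' hab.le
  nlinarith

/-- For small `ε` the floor of `ε ^ (-1/2)` is large. -/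
theorem floor_large {ε : ℝ} (h0 : 0 < ε) (h1 : ε ≤ 1 / 256) (B0 : ℕ)
    (h2 : ε ≤ (((B0 : ℝ) + 1) ^ 2)⁻¹) :
    ∃ B : ℕ, B0 ≤ B ∧ 2 ≤ B ∧ ε ≤ ((B : ℝ) ^ 2)⁻¹ ∧ Real.log (1 / ε) / 4 ≤ Real.log B := by
  set y : ℝ := √(1 / ε) with hy
  have hy2 : y ^ 2 = 1 / ε := Real.sq_sqrt (by positivity)
  have hy16 : 16 ≤ y := by
    rw [hy]
    apply Real.le_sqrt_of_sq_le
    rw [le_div_iff₀ h0]
    linarith
  have hyB : (B0 : ℝ) ≤ y := by
    rw [hy]
    apply Real.le_sqrt_of_sq_le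
    rw [le_div_iff₀ h0]
    have h3 : (B0 : ℝ) ^ 2 ≤ ((B0 : ℝ) + 1) ^ 2 := by
      apply pow_le_pow_left₀ (by positivity)
      linarith
    calc (B0 : ℝ) ^ 2 * ε ≤ ((B0 : ℝ) + 1) ^ 2 * (((B0 : ℝ) + 1) ^ 2)⁻¹ := by
          apply mul_le_mul h3 h2 h0.le (by positivity)
      _ = 1 := by
          apply mul_inv_cancel₀
          positivity
  refine ⟨⌊y⌋₊, ?_, ?_, ?_, ?_⟩
  · exact Nat.le_floor hyB
  · apply Nat.le_floor
    push_cast
    linarith
  · have h3 : ((⌊y⌋₊ : ℕ) : ℝ) ≤ y := Nat.floor_le (by linarith)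
    have h4 : (1 : ℝ) ≤ (⌊y⌋₊ : ℕ) := by
      have : 1 ≤ ⌊y⌋₊ := by
        apply Nat.le_floor
        push_cast
        linarith
      exact_mod_cast this
    have h5 : ((⌊y⌋₊ : ℕ) : ℝ) ^ 2 ≤ 1 / ε := by
      rw [← hy2]
      exact pow_le_pow_left₀ (by linarith) h3 2
    rw [le_inv_comm₀ h0 (by positivity), ← one_div]
    exact h5
  · have h3 : y < (⌊y⌋₊ : ℕ) + 1 := Nat.lt_floor_add_one y
    have h4 : √y ≤ (⌊y⌋₊ : ℕ) := by
      have h5 : √y ≤ y / 4 := by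
        rw [Real.sqrt_le_left (by linarith)]
        nlinarith
      linarith
    have h5 : Real.log (1 / ε) / 4 = Real.log (√y) := by
      rw [Real.log_sqrt (by linarith), ← hy2, Real.log_pow]
      push_cast
      ring
    rw [h5]
    apply Real.log_le_log _ h4
    apply Real.sqrt_pos.2
    linarith

end Pool.Agent.Helper46.MeanDim
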