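import Pool.Agent.Helper46.MeanDim.Eqs
import Pool.Agent.Helper46.MeanDim.Comb

set_option autoImplicit false

/-!
The lower bound for the size of covers, for a prime time length.
-/

namespace Pool.Agent.Helper46.MeanDim

open Finset

variable {p : ℕ} [NeZero p] [Fact p.Prime]

/-- The large frequencies. -/
noncomputable def rich (f : Fin 2 → Om → ℝ) (x : Wp p) : Finset (Fin ((p - 1) / 2)) :=
  univ.filter (fun k => 1 / 4 < ‖VV f x 0 k‖ ^ 2 + ‖VV f x 1 k‖ ^ 2)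

theorem HA_zero {f : Fin 2 → Om → ℝ} {θ : Fin ((p - 1) / 2) → ℝ} {x : Wp p}
    (h : ∀ j, HH f θ x j = 0) (k : ℕ) (h1 : 1 ≤ k) (h2 : k ≤ p / 16) :
    ft (fun n => ∑ c, x n c ^ 2) (k : ZMod p) = 0 := by
  have h3 := h (Sum.inl (Sum.inl ⟨k - 1, by omega⟩))
  change sf sqf x (fq p (k - 1)) ^ (lk (fq p (k - 1))) = 0 at h3
  have h4 := eq_zero_of_pow_eq_zero h3
  rw [sf_sqf] at h4
  unfold fq at h4
  rw [Nat.sub_add_cancel h1] at h4
  exact h4

theorem HB_zero {f : Fin 2 → Om → ℝ} {θ : Fin ((p - 1) / 2) → ℝ} {x : Wp p}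
    (h : ∀ j, HH f θ x j = 0) (i k : ℕ) (h1 : 1 ≤ k) (h2 : k ≤ p / Lp i) :
    ft (fun n => ti i (lft x n)) (k : ZMod p) = 0 := by
  have hi : i < p := by
    by_contra hcon
    push Not at hcon
    have h3 : p < Lp i := by
      unfold Lp
      calc p ≤ i + 5 := by omega
        _ < 2 ^ (i + 5) := Nat.lt_two_pow_self
    rw [Nat.div_eq_of_lt h3] at h2
    omega
  have h3 := h (Sum.inl (Sum.inr ⟨⟨i, hi⟩, ⟨k - 1, by
    change k - 1 < p / Lp i
    omega⟩⟩))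
  change sf (ti i) x (fq p (k - 1)) ^ (lk (fq p (k - 1))) = 0 at h3
  have h4 := eq_zero_of_pow_eq_zero h3
  unfold fq at h4
  rw [Nat.sub_add_cancel h1] at h4
  exact h4

theorem HC_zero {f : Fin 2 → Om → ℝ} {θ : Fin ((p - 1) / 2) → ℝ} {x : Wp p}
    (h : ∀ j, HH f θ x j = 0) (k : Fin ((p - 1) / 2)) :
    VV f x 0 k + θ k * VV f x 1 k = 0 := by
  have h3 := h (Sum.inr (Sum.inl k))
  exact eq_zero_of_pow_eq_zero h3

/-- A sequence with few large frequencies does not solve the system. -/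
theorem poor_case (hp : 64 ≤ p) {f : Fin 2 → Om → ℝ} {θ : Fin ((p - 1) / 2) → ℝ} {x : Wp p}
    (h : ∀ j, HH f θ x j = 0) {k0 : Fin ((p - 1) / 2)} (hk0 : k0 ∈ rich f x)
    (hpoor : (rich f x).card ≤ p / 16) : False := by
  classical
  set P : Finset (Fin ((p - 1) / 2) × Fin 2) := rich f x ×ˢ univ with hP
  have hPc : P.card ≤ 2 * (p / 16) := by
    rw [hP, card_product, card_univ, Fintype.card_fin]
    omega
  have hz0 : ∀ q, q ∉ P → zq f x q = 0 := by
    intro q hq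
    have h1 : q.1 ∉ rich f x := by
      intro hc
      exact hq (mem_product.2 ⟨hc, mem_univ _⟩)
    have h2 : gq f x q.1 = 0 := by
      unfold gq
      apply max_eq_left
      by_contra hc
      apply h1
      unfold rich
      rw [mem_filter]
      refine ⟨mem_univ _, ?_⟩
      linarith
    unfold zq
    rw [h2]
    simp only [Complex.ofReal_zero, zero_mul]
    apply zero_pow
    apply lk_ne_zero
    apply fq_ne_zero
    have := q.1.2
    omega
  have hv := vander P (fun q => ((2 * (q.1 : ℕ) + (q.2 : ℕ) : ℕ) : ℂ)) (zq f x) (by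
    intro q _ q' _ hqq
    have h1 : 2 * (q.1 : ℕ) + (q.2 : ℕ) = 2 * (q'.1 : ℕ) + (q'.2 : ℕ) := Nat.cast_injective hqq
    have h2 := q.2.2
    have h3 := q'.2.2
    apply Prod.ext
    · apply Fin.ext
      omega
    · apply Fin.ext
      omega) hPc (by
    intro j hj
    have h3 := h (Sum.inr (Sum.inr ⟨j, hj⟩))
    change ∑ q, ((2 * (q.1 : ℕ) + (q.2 : ℕ) : ℕ) : ℂ) ^ j * zq f x q = 0 at h3
    rw [← h3]
    apply sum_subset (subset_univ _)
    intro q _ hq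
    rw [hz0 q hq, mul_zero])
  unfold rich at hk0
  rw [mem_filter] at hk0
  have hg : (0 : ℝ) < gq f x k0 := by
    unfold gq
    apply lt_max_of_lt_right
    linarith [hk0.2]
  have hV : ∀ c, VV f x c k0 = 0 := by
    intro c
    have h1 := hv (k0, c) (mem_product.2 ⟨by
      unfold rich
      rw [mem_filter]
      exact hk0, mem_univ _⟩)
    unfold zq at h1
    have h2 := eq_zero_of_pow_eq_zero h1
    rcases mul_eq_zero.1 h2 with h3 | h3
    · exfalso
      have : gq f x k0 = 0 := by exact_mod_cast h3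
      linarith
    · exact h3
  have h4 := hk0.2
  rw [hV 0, hV 1] at h4
  norm_num at h4

omit [Fact p.Prime] in
theorem norm_VV_sq (f : Fin 2 → Om → ℝ) (x : Wp p) (c : Fin 2) (k : ℕ) :
    ‖VV f x c k‖ ^ 2 = ‖sf (f c) x (fq p k)‖ ^ 2 / p := by
  have hp : (0 : ℝ) < p := by exact_mod_cast Nat.pos_of_ne_zero (NeZero.ne p)
  unfold VV
  rw [norm_mul, norm_inv, Complex.norm_real, Real.norm_eq_abs, abs_of_nonneg (Real.sqrt_nonneg _),
    mul_pow, inv_pow, Real.sq_sqrt hp.le]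
  field_simp

omit [Fact p.Prime] in
theorem norm_VV_sub_sq (f : Fin 2 → Om → ℝ) (x x' : Wp p) (c : Fin 2) (k : ℕ) :
    ‖VV f x c k - VV f x' c k‖ ^ 2 = ‖sf (f c) x (fq p k) - sf (f c) x' (fq p k)‖ ^ 2 / p := by
  have hp : (0 : ℝ) < p := by exact_mod_cast Nat.pos_of_ne_zero (NeZero.ne p)
  unfold VV
  rw [← mul_sub, norm_mul, norm_inv, Complex.norm_real, Real.norm_eq_abs,
    abs_of_nonneg (Real.sqrt_nonneg _), mul_pow, inv_pow, Real.sq_sqrt hp.le]
  field_simp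

theorem main_p (hp : 64 ≤ p) {B : ℕ} (hB : 1 ≤ B) {f : Fin 2 → Om → ℝ}
    (hf : ∀ c, Continuous (f c)) (hfx : ∀ c, ∀ x ∈ XX, |f c x - x 0 c| ≤ 1 / 10)
    {F : Finset (Set XS)} (hF : ⋃₀ (F : Set (Set XS)) = Set.univ) {δ : ℝ} (hδ0 : 0 ≤ δ)
    (hδ : δ * (1088 * B) ≤ 1)
    (hFd : ∀ A ∈ F, ∀ x ∈ A, ∀ y ∈ A, ∀ i < p, ∀ c, |f c (tr i x.1) - f c (tr i y.1)| ≤ δ)
    (hcard : F.card < B ^ ((p / 16 + 2) / 2)) : False := by
  classical
  have hodd : Odd p := by
    rcases (Fact.out : p.Prime).eq_two_or_odd' with h | h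
    · omega
    · exact h
  have hp0 : (0 : ℝ) < p := by exact_mod_cast Nat.pos_of_ne_zero (NeZero.ne p)
  have hB' : (1 : ℝ) ≤ B := by exact_mod_cast hB
  -- rich classes
  set F' := F.filter (fun A => ∃ x : Wp p, ∃ S : Finset (Fin ((p - 1) / 2)),
    (∃ hx : lft x 0 ∈ XX, (⟨lft x 0, hx⟩ : XS) ∈ A) ∧ S ⊆ rich f x ∧ S.card = p / 16 + 1) with hF'
  have hch : ∀ A : Set XS, ∃ x : Wp p, ∃ S : Finset (Fin ((p - 1) / 2)), A ∈ F' →
      (∃ hx : lft x 0 ∈ XX, (⟨lft x 0, hx⟩ : XS) ∈ A) ∧ S ⊆ rich f x ∧ S.card = p / 16 + 1 := by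
    intro A
    by_cases hA : A ∈ F'
    · rw [hF', mem_filter] at hA
      obtain ⟨x, S, h⟩ := hA.2
      exact ⟨x, S, fun _ => h⟩
    · exact ⟨0, ∅, fun h => absurd h hA⟩
  choose xA SA hA using hch
  obtain ⟨R, hR⟩ : ∃ R : ℕ, R = 68 * B := ⟨_, rfl⟩
  have hR68 : 68 ≤ R := by omega
  obtain ⟨θ, hθ⟩ := exists_theta (κ := Fin ((p - 1) / 2)) (R := R) (B := B)
    (h := (p / 16 + 2) / 2) (M := p / 16 + 1) hR hB F' SA (fun A h => (hA A h).2.2) (by omega)
    (fun A k => univ.filter (fun t : Fin R =>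
      ‖VV f (xA A) 0 k + ((t : ℕ) / (R : ℝ) : ℝ) * VV f (xA A) 1 k‖ ≤ 2 / (R : ℝ))) (by
      intro A h k hk
      apply bad_card hR68
      have := (hA A h).2.1 hk
      unfold rich at this
      rw [mem_filter] at this
      exact this.2) (lt_of_le_of_lt (card_filter_le _ _) hcard)
  set θ' : Fin ((p - 1) / 2) → ℝ := fun k => (θ k : ℕ) / (R : ℝ) with hθ'
  obtain ⟨x, hx1, hx2, hx3⟩ := bu_sphere (by omega) hodd (card_Ke p (by omega)) (HH f θ')
    (continuous_HH hf θ') (HH_sh f hp θ')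
  have hmem : ∀ n, lft x n ∈ XX := lft_mem hx1 (HA_zero hx3) (HB_zero hx3)
  obtain ⟨k0, hk0⟩ := exists_big hodd hx1 hx2 (y := fun c n => f c (lft x n)) (by
    intro c n
    have := hfx c (lft x n) (hmem n)
    unfold lft at this ⊢
    simp only [Int.cast_zero, add_zero] at this
    exact this)
  have hk0r : k0 ∈ rich f x := by
    unfold rich
    rw [mem_filter]
    refine ⟨mem_univ _, ?_⟩
    rw [norm_VV_sq, norm_VV_sq, ← add_div, lt_div_iff₀ hp0]
    have : (p : ℝ) / 4 < ‖sf (f 0) x (fq p k0)‖ ^ 2 + ‖sf (f 1) x (fq p k0)‖ ^ 2 := hk0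
    linarith
  by_cases hpoor : (rich f x).card ≤ p / 16
  · exact poor_case hp hx3 hk0r hpoor
  push Not at hpoor
  obtain ⟨S, hS1, hS2⟩ := exists_subset_card_eq (show p / 16 + 1 ≤ (rich f x).card by omega)
  have hcov : (⟨lft x 0, hmem 0⟩ : XS) ∈ ⋃₀ (F : Set (Set XS)) := by
    rw [hF]; exact Set.mem_univ _
  obtain ⟨A, hAF, hxA⟩ := hcov
  have hAF' : A ∈ F' := by
    rw [hF', mem_filter]
    exact ⟨mem_coe.1 hAF, x, S, ⟨hmem 0, hxA⟩, hS1, hS2⟩
  obtain ⟨⟨hx0, hx0A⟩, hSr, hSc⟩ := hA A hAF'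
  set x0 := xA A with hx0def
  have hdiff : ∀ c n, |f c (lft x n) - f c (lft x0 n)| ≤ δ := by
    intro c n
    have h1 := hFd A (mem_coe.1 hAF) _ hxA _ hx0A n.val (ZMod.val_lt n) c
    simp only [tr_lft, zero_add, Int.cast_natCast, ZMod.natCast_zmod_val] at h1
    exact h1
  have hpert : ∀ c, ∑ k : Fin ((p - 1) / 2), ‖VV f x c k - VV f x0 c k‖ ^ 2 ≤ p * δ ^ 2 := by
    intro c
    have h1 := pert_sum (hdiff c)
    have h2 : ∑ k : Fin ((p - 1) / 2), ‖VV f x c k - VV f x0 c k‖ ^ 2 =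
        (∑ j : Fin ((p - 1) / 2), ‖ft (fun n => f c (lft x n)) (((j : ℕ) + 1 : ℕ) : ZMod p) -
      ft (fun n => f c (lft x0 n)) (((j : ℕ) + 1 : ℕ) : ZMod p)‖ ^ 2) / p := by
      rw [sum_div]
      apply sum_congr rfl
      intro k _
      rw [norm_VV_sub_sq]
      rfl
    rw [h2, div_le_iff₀ hp0]
    refine h1.trans (le_of_eq ?_)
    ring
  have hR0 : (0 : ℝ) < R := by
    rw [hR]
    push_cast
    linarith
  set Q : Finset (Fin ((p - 1) / 2)) := univ.filter (fun k =>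
    1 / (R : ℝ) < ‖VV f x 0 k - VV f x0 0 k‖ ∨ 1 / (R : ℝ) < ‖VV f x 1 k - VV f x0 1 k‖) with hQ
  have hQc : Q.card * 128 ≤ p := by
    have h1 : (Q.card : ℝ) * (1 / R) ^ 2 ≤ 2 * (p * δ ^ 2) := by
      calc (Q.card : ℝ) * (1 / R) ^ 2 = ∑ k ∈ Q, (1 / (R : ℝ)) ^ 2 := by
            rw [sum_const, nsmul_eq_mul]
        _ ≤ ∑ k ∈ Q, (‖VV f x 0 k - VV f x0 0 k‖ ^ 2 + ‖VV f x 1 k - VV f x0 1 k‖ ^ 2) := by
            apply sum_le_sum
            intro k hk
            rw [hQ, mem_filter] at hk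
            have h0 : (0 : ℝ) ≤ 1 / R := by positivity
            rcases hk.2 with h | h
            · have := pow_le_pow_left₀ h0 h.le 2
              have h3 : 0 ≤ ‖VV f x 1 k - VV f x0 1 k‖ ^ 2 := by positivity
              linarith
            · have := pow_le_pow_left₀ h0 h.le 2
              have h3 : 0 ≤ ‖VV f x 0 k - VV f x0 0 k‖ ^ 2 := by positivity
              linarith
        _ ≤ ∑ k : Fin ((p - 1) / 2),
            (‖VV f x 0 k - VV f x0 0 k‖ ^ 2 + ‖VV f x 1 k - VV f x0 1 k‖ ^ 2) :=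
            sum_le_sum_of_subset_of_nonneg (subset_univ _) (fun _ _ _ => by positivity)
        _ ≤ _ := by
            rw [sum_add_distrib]
            have h3 := hpert 0
            have h4 := hpert 1
            linarith
    have h2 : (δ * R) ^ 2 ≤ (1 / 16) ^ 2 := by
      apply pow_le_pow_left₀ (by positivity)
      rw [hR]
      push_cast
      linarith
    have h3 : (Q.card : ℝ) ≤ 2 * p * (δ * R) ^ 2 := by
      rw [one_div, inv_pow, ← div_eq_mul_inv, div_le_iff₀ (by positivity)] at h1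
      refine h1.trans (le_of_eq ?_)
      ring
    have h4 : (Q.card : ℝ) ≤ 2 * p * (1 / 16) ^ 2 :=
      h3.trans (mul_le_mul_of_nonneg_left h2 (by positivity))
    have h5 : ((Q.card * 128 : ℕ) : ℝ) ≤ p := by
      push_cast
      linarith
    exact_mod_cast h5
  have hθA := hθ A hAF'
  rw [← hx0def] at hθA
  set Bd := (SA A).filter (fun k : Fin ((p - 1) / 2) => θ k ∈ univ.filter (fun t : Fin R =>
      ‖VV f x0 0 k + ((t : ℕ) / (R : ℝ) : ℝ) * VV f x0 1 k‖ ≤ 2 / (R : ℝ))) with hBd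
  have hex : ∃ k ∈ SA A, k ∉ Bd ∪ Q := by
    by_contra hcon
    push Not at hcon
    have h1 : (SA A).card ≤ (Bd ∪ Q).card := card_le_card hcon
    have h2 := card_union_le Bd Q
    rw [hSc] at h1
    omega
  obtain ⟨k, hkS, hk⟩ := hex
  rw [mem_union, not_or] at hk
  have hk1 : 2 / (R : ℝ) < ‖VV f x0 0 k + (θ' k : ℝ) * VV f x0 1 k‖ := by
    by_contra hcon
    push Not at hcon
    apply hk.1
    rw [hBd, mem_filter]
    refine ⟨hkS, ?_⟩
    rw [mem_filter]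
    exact ⟨mem_univ _, hcon⟩
  have hk2 : ‖VV f x 0 k - VV f x0 0 k‖ ≤ 1 / R ∧ ‖VV f x 1 k - VV f x0 1 k‖ ≤ 1 / R := by
    have := hk.2
    rw [hQ, mem_filter] at this
    push Not at this
    exact this (mem_univ _)
  have h0 := HC_zero hx3 k
  have hθ0 : 0 ≤ θ' k := by
    rw [hθ']
    positivity
  have hθ1 : θ' k ≤ 1 := by
    rw [hθ']
    change ((θ k : ℕ) : ℝ) / (R : ℝ) ≤ 1
    rw [div_le_one hR0]
    exact_mod_cast (θ k).2.le
  have h1 : VV f x0 0 k + (θ' k : ℝ) * VV f x0 1 k =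
      -((VV f x 0 k - VV f x0 0 k) + (θ' k : ℝ) * (VV f x 1 k - VV f x0 1 k)) := by
    have : VV f x 0 k = -((θ' k : ℝ) * VV f x 1 k) := eq_neg_of_add_eq_zero_left h0
    rw [this]
    ring
  rw [h1, norm_neg] at hk1
  have h2 : ‖(VV f x 0 k - VV f x0 0 k) + (θ' k : ℝ) * (VV f x 1 k - VV f x0 1 k)‖ ≤
      1 / R + 1 / R := by
    refine (norm_add_le _ _).trans ?_
    apply add_le_add hk2.1
    rw [norm_mul, Complex.norm_real, Real.norm_eq_abs, abs_of_nonneg hθ0]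
    calc θ' k * ‖VV f x 1 k - VV f x0 1 k‖ ≤ 1 * ‖VV f x 1 k - VV f x0 1 k‖ :=
          mul_le_mul_of_nonneg_right hθ1 (norm_nonneg _)
      _ ≤ 1 / R := by rw [one_mul]; exact hk2.2
  have h3 : (2 : ℝ) / R = 1 / R + 1 / R := by ring
  linarith

end Pool.Agent.Helper46.MeanDim
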