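import Pool.Agent.Helper46.MeanDim.Covers

set_option autoImplicit false
open scoped ENNReal

/-!
The subshift has mean dimension zero.
-/

namespace Pool.Agent.Helper46.MeanDim

open Finset

theorem unif_Om {V : Set (Om × Om)} (hV : V ∈ uniformity Om) :
    ∃ (W : ℕ) (η : ℝ), 0 < η ∧
      ∀ x y : Om, (∀ m : ℤ, |m| ≤ W → ∀ c, |x m c - y m c| < η) → (x, y) ∈ V := by
  rw [Pi.uniformity] at hV
  refine Filter.iInf_sets_induct hV (p := fun V => ∃ (W : ℕ) (η : ℝ), 0 < η ∧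
      ∀ x y : Om, (∀ m : ℤ, |m| ≤ W → ∀ c, |x m c - y m c| < η) → (x, y) ∈ V) ?_ ?_
  · exact ⟨0, 1, zero_lt_one, fun _ _ _ => Set.mem_univ _⟩
  · intro i s₁ s₂ h₁ h₂
    obtain ⟨W, η, hη, h⟩ := h₂
    rw [Filter.mem_comap] at h₁
    obtain ⟨t, ht, hts⟩ := h₁
    rw [Metric.mem_uniformity_dist] at ht
    obtain ⟨η', hη', h'⟩ := ht
    refine ⟨max W i.natAbs, min η η', lt_min hη hη', ?_⟩
    intro x y hxy
    refine ⟨?_, ?_⟩
    · apply hts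
      change (x i, y i) ∈ t
      apply h'
      rw [dist_pi_lt_iff hη']
      intro c
      rw [Real.dist_eq]
      apply lt_of_lt_of_le (hxy i _ c) (min_le_right _ _)
      rw [Int.abs_eq_natAbs]
      exact_mod_cast le_max_right _ _
    · apply h
      intro m hm c
      apply lt_of_lt_of_le (hxy m _ c) (min_le_left _ _)
      apply hm.trans
      exact_mod_cast le_max_left _ _

theorem leb {α : Finset (Set XS)} (hα : (∀ U ∈ α, IsOpen U) ∧ ⋃₀ (α : Set (Set XS)) = Set.univ) :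
    ∃ (W i0 : ℕ), ∀ i, i0 ≤ i → ∀ A : Set XS, A.Nonempty →
      (∀ x ∈ A, ∀ x' ∈ A, ∀ m : ℤ, |m| ≤ W → ∀ c, |x.1 m c - x'.1 m c| * 2 ^ i < 4) →
      ∃ U ∈ α, A ⊆ U := by
  obtain ⟨V, hV, hVU⟩ := lebesgue_number_lemma (U := fun U : α => (U : Set XS))
    (isCompact_univ : IsCompact (Set.univ : Set XS)) (fun U => hα.1 U U.2) (by
      intro x _
      have : x ∈ ⋃₀ (α : Set (Set XS)) := by rw [hα.2]; exact Set.mem_univ x
      obtain ⟨U, hU, hx⟩ := this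
      exact Set.mem_iUnion.2 ⟨⟨U, hU⟩, hx⟩)
  rw [uniformity_subtype, Filter.mem_comap] at hV
  obtain ⟨V', hV', hVV'⟩ := hV
  obtain ⟨W, η, hη, h⟩ := unif_Om hV'
  obtain ⟨i0, hi0⟩ := pow_unbounded_of_one_lt (4 / η) (one_lt_two : (1 : ℝ) < 2)
  refine ⟨W, i0, ?_⟩
  intro i hi A hA hAd
  obtain ⟨x, hx⟩ := hA
  obtain ⟨U, hU⟩ := hVU x (Set.mem_univ x)
  refine ⟨U, U.2, ?_⟩
  intro y hy
  apply hU
  change (x, y) ∈ V
  apply hVV'
  change (x.1, y.1) ∈ V'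
  apply h
  intro m hm c
  have h1 := hAd x hx y hy m hm c
  have h2 : (0 : ℝ) < 2 ^ i := by positivity
  have h3 : (2 : ℝ) ^ i0 ≤ 2 ^ i := pow_le_pow_right₀ one_le_two hi
  rw [← lt_div_iff₀ h2] at h1
  apply lt_of_lt_of_le h1
  rw [div_le_iff₀ h2]
  rw [div_lt_iff₀ hη] at hi0
  nlinarith

/-- The dimension count. -/
theorem dim_le {α : Finset (Set XS)} {W i0 : ℕ}
    (h : ∀ i, i0 ≤ i → ∀ A : Set XS, A.Nonempty →
      (∀ x ∈ A, ∀ x' ∈ A, ∀ m : ℤ, |m| ≤ W → ∀ c, |x.1 m c - x'.1 m c| * 2 ^ i < 4) →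
      ∃ U ∈ α, A ⊆ U) {i : ℕ} (hi : i0 ≤ i) (n : ℕ) :
    sInf {k : ℕ | ∃ β : Finset (Set XS), (∀ V ∈ β, IsOpen V) ∧
            ⋃₀ (β : Set (Set XS)) = Set.univ ∧
            (∀ V ∈ β, ∀ i < n, ∃ U ∈ α, V ⊆ (⇑TS)^[i] ⁻¹' U) ∧
            ∀ x : XS, Set.ncard {V | V ∈ β ∧ x ∈ V} ≤ k + 1} ≤
      4 * ((n + 2 * W) / Dp i + 1) * Gp i := by
  classical
  apply Nat.sInf_le
  obtain ⟨β, h1, h2, h3, h4⟩ := exists_cover i ((n + 2 * W) / Dp i + 1) (-(W : ℤ) - Gp i)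
  refine ⟨β.filter (fun V => V.Nonempty), ?_, ?_, ?_, ?_⟩
  · intro V hV
    exact h1 V (mem_filter.1 hV).1
  · rw [Set.eq_univ_iff_forall] at h2 ⊢
    intro x
    obtain ⟨V, hV, hx⟩ := h2 x
    exact ⟨V, mem_coe.2 (mem_filter.2 ⟨mem_coe.1 hV, ⟨x, hx⟩⟩), hx⟩
  · intro V hV k hk
    rw [mem_filter] at hV
    obtain ⟨U, hU, hVU⟩ := h i hi ((⇑TS)^[k] '' V) (hV.2.image _) (by
      rintro _ ⟨x, hx, rfl⟩ _ ⟨x', hx', rfl⟩ m hm c
      rw [TS_iterate, TS_iterate]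
      apply h3 V hV.1 x hx x' hx'
      · rw [abs_le] at hm
        omega
      · rw [abs_le] at hm
        have hD := Dp_pos i
        have h5 : n + 2 * W < ((n + 2 * W) / Dp i + 1) * Dp i :=
          Nat.lt_div_mul_add hD |>.trans_eq (by ring)
        have h6 : ((n : ℤ) + 2 * W) < (((n + 2 * W) / Dp i + 1 : ℕ) : ℤ) * (Dp i : ℤ) := by
          exact_mod_cast h5
        omega)
    refine ⟨U, hU, ?_⟩
    intro x hx
    exact hVU (Set.mem_image_of_mem _ hx)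
  · intro x
    refine le_trans (Set.ncard_le_ncard ?_ ?_) (h4 x)
    · rintro V ⟨hV, hxV⟩
      exact ⟨(mem_filter.1 hV).1, hxV⟩
    · exact (Finset.finite_toSet β).subset (fun V hV => hV.1)

theorem limsup_zero {α : Finset (Set XS)}
    (hα : (∀ U ∈ α, IsOpen U) ∧ ⋃₀ (α : Set (Set XS)) = Set.univ) :
    Filter.limsup (fun n : ℕ =>
        (((sInf {k : ℕ | ∃ β : Finset (Set XS), (∀ V ∈ β, IsOpen V) ∧
            ⋃₀ (β : Set (Set XS)) = Set.univ ∧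
            (∀ V ∈ β, ∀ i < n, ∃ U ∈ α, V ⊆ (⇑TS)^[i] ⁻¹' U) ∧
            ∀ x : XS, Set.ncard {V | V ∈ β ∧ x ∈ V} ≤ k + 1} : ℕ) : ℝ≥0∞) / (n : ℝ≥0∞)))
        Filter.atTop = 0 := by
  obtain ⟨W, i0, h⟩ := leb hα
  have key : ∀ i, i0 ≤ i → Filter.limsup (fun n : ℕ =>
        (((sInf {k : ℕ | ∃ β : Finset (Set XS), (∀ V ∈ β, IsOpen V) ∧
            ⋃₀ (β : Set (Set XS)) = Set.univ ∧
            (∀ V ∈ β, ∀ i < n, ∃ U ∈ α, V ⊆ (⇑TS)^[i] ⁻¹' U) ∧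
            ∀ x : XS, Set.ncard {V | V ∈ β ∧ x ∈ V} ≤ k + 1} : ℕ) : ℝ≥0∞) / (n : ℝ≥0∞)))
        Filter.atTop ≤ 2 * 2⁻¹ ^ i := by
    intro i hi
    apply Filter.limsup_le_of_le (h := ?_)
    rw [Filter.eventually_atTop]
    refine ⟨2 * W + 2 ^ i * 4 * Gp i + 1, ?_⟩
    intro n hn
    have h1 := dim_le h hi n
    set k := sInf {k : ℕ | ∃ β : Finset (Set XS), (∀ V ∈ β, IsOpen V) ∧
            ⋃₀ (β : Set (Set XS)) = Set.univ ∧
            (∀ V ∈ β, ∀ i < n, ∃ U ∈ α, V ⊆ (⇑TS)^[i] ⁻¹' U) ∧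
            ∀ x : XS, Set.ncard {V | V ∈ β ∧ x ∈ V} ≤ k + 1} with hk
    have h2 : k * 2 ^ i ≤ 2 * n := by
      have h3 : 2 ^ i * 4 * Gp i ≤ Dp i := by
        unfold Dp
        apply Nat.mul_le_mul_right
        have : 1 ≤ 2 ^ i := Nat.one_le_two_pow
        omega
      have h4 : (n + 2 * W) / Dp i * Dp i ≤ n + 2 * W := Nat.div_mul_le_self _ _
      calc k * 2 ^ i ≤ 4 * ((n + 2 * W) / Dp i + 1) * Gp i * 2 ^ i := Nat.mul_le_mul_right _ h1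
        _ = (n + 2 * W) / Dp i * (2 ^ i * 4 * Gp i) + 2 ^ i * 4 * Gp i := by ring
        _ ≤ (n + 2 * W) / Dp i * Dp i + 2 ^ i * 4 * Gp i :=
          Nat.add_le_add_right (Nat.mul_le_mul_left _ h3) _
        _ ≤ n + 2 * W + 2 ^ i * 4 * Gp i := Nat.add_le_add_right h4 _
        _ ≤ 2 * n := by omega
    have hn0 : (n : ℝ≥0∞) ≠ 0 := by
      have : n ≠ 0 := by omega
      exact_mod_cast this
    rw [ENNReal.div_le_iff hn0 (ENNReal.natCast_ne_top n)]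
    have h5 : ((2 : ℝ≥0∞) ^ i) ≠ 0 := by positivity
    have h6 : ((2 : ℝ≥0∞) ^ i) ≠ ⊤ := ENNReal.pow_ne_top (by norm_num)
    have h7 : (k : ℝ≥0∞) * 2 ^ i ≤ 2 * n := by exact_mod_cast h2
    calc (k : ℝ≥0∞) ≤ 2 * n / 2 ^ i := by
          rw [ENNReal.le_div_iff_mul_le (Or.inl h5) (Or.inl h6)]
          exact h7
      _ = 2 * 2⁻¹ ^ i * n := by
          rw [ENNReal.div_eq_inv_mul, ← ENNReal.inv_pow]
          ring
  by_contra hne
  set L := Filter.limsup (fun n : ℕ =>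
        (((sInf {k : ℕ | ∃ β : Finset (Set XS), (∀ V ∈ β, IsOpen V) ∧
            ⋃₀ (β : Set (Set XS)) = Set.univ ∧
            (∀ V ∈ β, ∀ i < n, ∃ U ∈ α, V ⊆ (⇑TS)^[i] ⁻¹' U) ∧
            ∀ x : XS, Set.ncard {V | V ∈ β ∧ x ∈ V} ≤ k + 1} : ℕ) : ℝ≥0∞) / (n : ℝ≥0∞)))
        Filter.atTop with hL
  obtain ⟨m, hm⟩ := ENNReal.exists_inv_two_pow_lt (ENNReal.half_pos hne).ne'
  have h1 := key (max m i0) (le_max_right _ _)
  have h2 : (2⁻¹ : ℝ≥0∞) ^ (max m i0) ≤ 2⁻¹ ^ m := by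
    apply pow_le_pow_of_le_one (zero_le) _ (le_max_left _ _)
    exact ENNReal.inv_le_one.2 (by norm_num)
  have h3 : L < L := by
    calc L ≤ 2 * 2⁻¹ ^ (max m i0) := h1
      _ ≤ 2 * 2⁻¹ ^ m := by gcongr
      _ < 2 * (L / 2) := by
        rw [ENNReal.mul_lt_mul_iff_right (by norm_num) (by norm_num)]
        exact hm
      _ = L := ENNReal.mul_div_cancel (by norm_num) (by norm_num)
  exact lt_irrefl _ h3

end Pool.Agent.Helper46.MeanDim
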