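import Mathlib

set_option autoImplicit false

/-!
The subshift and its elementary properties.
-/

namespace Pool.Agent.Helper46.MeanDim

open Finset

/-- The ambient space: bi-infinite sequences of planar points. -/
abbrev Om : Type := ℤ → Fin 2 → ℝ

/-- A trapezoidal bump on `(0, 1/r)`, made 1-periodic. -/
noncomputable def rho (r : ℕ) (y : ℝ) : ℝ :=
  max 0 (min 1 (min (3 * r * Int.fract y) (3 - 3 * r * Int.fract y)))

/-- A steep staircase. -/
noncomputable def gam (r : ℕ) (y : ℝ) : ℝ :=
  ⌊y⌋ + max 0 (min 1 (3 * r * Int.fract y - 1))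

theorem rho_nonneg (r : ℕ) (y : ℝ) : 0 ≤ rho r y := le_max_left _ _

theorem rho_le_one (r : ℕ) (y : ℝ) : rho r y ≤ 1 := by
  unfold rho
  apply max_le zero_le_one
  exact min_le_left _ _

theorem continuous_rho {r : ℕ} (hr : 1 ≤ r) : Continuous (rho r) := by
  have hr' : (1 : ℝ) ≤ r := by exact_mod_cast hr
  have h : Continuous ((fun f : ℝ => max 0 (min 1 (min (3 * r * f) (3 - 3 * r * f)))) ∘
      (Int.fract : ℝ → ℝ)) := by
    apply ContinuousOn.comp_fract''
    · apply Continuous.continuousOn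
      fun_prop
    · have e0 : min (1 : ℝ) (min (3 * r * 0) (3 - 3 * r * 0)) = 0 := by norm_num
      rw [e0, max_self]
      have e1 : min (1 : ℝ) (min (3 * r * 1) (3 - 3 * r * 1)) ≤ 0 :=
        (min_le_right _ _).trans ((min_le_right _ _).trans (by linarith))
      rw [max_eq_left e1]
  exact h

theorem rho_pos {r : ℕ} {y : ℝ} (h : rho r y ≠ 0) : 0 < r * Int.fract y ∧ r * Int.fract y < 1 := by
  unfold rho at h
  by_contra hcon
  apply h
  apply max_eq_left
  rw [not_and_or] at hcon
  rcases hcon with hc | hc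
  · exact (min_le_right _ _).trans ((min_le_left _ _).trans (by linarith))
  · exact (min_le_right _ _).trans ((min_le_right _ _).trans (by linarith))

theorem sum_rho_le_one {r : ℕ} (hr : 1 ≤ r) (y : ℝ) :
    ∑ n ∈ range r, rho r (y - n / r) ≤ 1 := by
  have hr' : (0 : ℝ) < r := by exact_mod_cast hr
  have key : ∀ n ∈ range r, rho r (y - n / r) ≠ 0 → (n : ℤ) = ⌊(r : ℝ) * y⌋ % r := by
    intro n hn h
    obtain ⟨h1, h2⟩ := rho_pos h
    set k := ⌊y - n / r⌋ with hk
    have h3 : Int.fract (y - n / r) = y - n / r - k := by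
      rw [hk]; exact (Int.self_sub_floor _).symm
    rw [h3] at h1 h2
    have e : (r : ℝ) * (y - n / r - k) = r * y - (n + r * k) := by
      field_simp
      ring
    rw [e] at h1 h2
    have h4 : ⌊(r : ℝ) * y⌋ = (n : ℤ) + r * k := by
      rw [Int.floor_eq_iff]
      push_cast
      constructor <;> linarith
    rw [h4, Int.add_mul_emod_self_left]
    rw [mem_range] at hn
    rw [Int.emod_eq_of_lt] <;> omega
  by_cases hex : ∃ n ∈ range r, rho r (y - n / r) ≠ 0
  · obtain ⟨n, hn, h⟩ := hex
    rw [sum_eq_single_of_mem n hn]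
    · exact rho_le_one _ _
    · intro b hb hbn
      by_contra hb0
      apply hbn
      have h1 := key n hn h
      have h2 := key b hb hb0
      rw [← h1] at h2
      exact_mod_cast h2
  · push Not at hex
    rw [sum_eq_zero hex]
    exact zero_le_one

theorem continuous_gam {r : ℕ} (hr : 1 ≤ r) : Continuous (gam r) := by
  have hr' : (1 : ℝ) ≤ r := by exact_mod_cast hr
  have h : Continuous ((fun f : ℝ => max 0 (min 1 (3 * r * f - 1)) - f) ∘
      (Int.fract : ℝ → ℝ)) := by
    apply ContinuousOn.comp_fract''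
    · apply Continuous.continuousOn
      fun_prop
    · have e0 : min (1 : ℝ) (3 * r * 0 - 1) ≤ 0 := (min_le_right _ _).trans (by norm_num)
      have e1 : min (1 : ℝ) (3 * r * 1 - 1) = 1 := min_eq_left (by linarith)
      change max 0 (min 1 (3 * (r : ℝ) * 0 - 1)) - 0 = max 0 (min 1 (3 * (r : ℝ) * 1 - 1)) - 1
      rw [max_eq_left e0, e1]
      norm_num
  have e : gam r = fun y => y + ((fun f : ℝ => max 0 (min 1 (3 * r * f - 1)) - f) ∘
      (Int.fract : ℝ → ℝ)) y := by
    funext y
    unfold gam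
    simp only [Function.comp_apply]
    have := Int.floor_add_fract y
    linarith
  rw [e]
  exact continuous_id.add h

theorem abs_gam_sub_le (r : ℕ) (y : ℝ) : |gam r y - y| ≤ 1 := by
  have h1 := Int.floor_add_fract y
  have h2 := Int.fract_nonneg y
  have h3 := Int.fract_lt_one y
  unfold gam
  set c := max 0 (min 1 (3 * (r : ℝ) * Int.fract y - 1)) with hc
  have h4 : 0 ≤ c := le_max_left _ _
  have h5 : c ≤ 1 := max_le zero_le_one (min_le_left _ _)
  rw [abs_le]
  constructor <;> linarith

theorem rho_eq_one_of_gam {r : ℕ} {y : ℝ} (h : ∀ k : ℤ, gam r y ≠ k) : rho r y = 1 := by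
  unfold gam at h
  set f := 3 * (r : ℝ) * Int.fract y with hf
  have h1 : 0 < f - 1 := by
    by_contra hcon
    apply h ⌊y⌋
    rw [max_eq_left ((min_le_right _ _).trans (not_lt.1 hcon)), add_zero]
  have h2 : f - 1 < 1 := by
    by_contra hcon
    apply h (⌊y⌋ + 1)
    rw [min_eq_left (not_lt.1 hcon), max_eq_right zero_le_one]
    push_cast
    ring
  unfold rho
  rw [← hf]
  rw [min_eq_left (le_min (by linarith) (by linarith)), max_eq_right zero_le_one]

/-- The counting functional. -/
noncomputable def uu (r : ℕ) (e : ℝ) (x : Om) : ℝ :=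
  ∑ n ∈ range r, ∑ c : Fin 2, rho r (x n c * e - n / r)

/-- The test functional. -/
noncomputable def tt (r : ℕ) (e : ℝ) (x : Om) : ℝ := max 0 (1 - uu r e x / 4)

theorem uu_nonneg (r : ℕ) (e : ℝ) (x : Om) : 0 ≤ uu r e x :=
  sum_nonneg fun _ _ => sum_nonneg fun _ _ => rho_nonneg _ _

theorem tt_nonneg (r : ℕ) (e : ℝ) (x : Om) : 0 ≤ tt r e x := le_max_left _ _

theorem tt_le_one (r : ℕ) (e : ℝ) (x : Om) : tt r e x ≤ 1 := by
  unfold tt
  apply max_le zero_le_one
  have := uu_nonneg r e x
  linarith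

theorem continuous_tt {r : ℕ} (hr : 1 ≤ r) (e : ℝ) : Continuous (tt r e) := by
  unfold tt uu
  have h := continuous_rho hr
  have h2 : ∀ (n : ℕ) (c : Fin 2), Continuous fun x : Om => rho r (x n c * e - n / r) := by
    intro n c
    apply h.comp
    have : Continuous fun x : Om => x (n : ℤ) c :=
      (continuous_apply c).comp (continuous_apply (n : ℤ))
    fun_prop
  apply continuous_const.max
  apply continuous_const.sub
  apply Continuous.div_const
  apply continuous_finsetSum
  intro n _
  apply continuous_finsetSum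
  intro c _
  exact h2 n c

/-- The parameters. -/
def Lp (i : ℕ) : ℕ := 2 ^ (i + 5)
/-- The gap lengths. -/
def Gp (i : ℕ) : ℕ := 8 * Lp i + 1
/-- The window lengths. -/
def rp (i : ℕ) : ℕ := 2 ^ i * 8 * Gp i

theorem one_le_Gp (i : ℕ) : 1 ≤ Gp i := by unfold Gp; omega

theorem one_le_rp (i : ℕ) : 1 ≤ rp i := by
  unfold rp
  have h1 : 1 ≤ 2 ^ i := Nat.one_le_two_pow
  have h2 := one_le_Gp i
  calc 1 = 1 * 1 * 1 := rfl
    _ ≤ 2 ^ i * 8 * Gp i := by
      apply Nat.mul_le_mul _ h2
      apply Nat.mul_le_mul h1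
      norm_num

/-- The level `i` test functional. -/
noncomputable def ti (i : ℕ) : Om → ℝ := tt (rp i) (2 ^ i)

theorem continuous_ti (i : ℕ) : Continuous (ti i) := continuous_tt (one_le_rp i) _

theorem ti_nonneg (i : ℕ) (x : Om) : 0 ≤ ti i x := tt_nonneg _ _ _

theorem ti_le_one (i : ℕ) (x : Om) : ti i x ≤ 1 := tt_le_one _ _ _

/-- The translation by `s`. -/
def tr (s : ℤ) (x : Om) : Om := fun m => x (m + s)

theorem continuous_tr (s : ℤ) : Continuous (tr s) := by
  unfold tr
  exact continuous_pi fun m => continuous_apply (m + s)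

theorem tr_tr (s s' : ℤ) (x : Om) : tr s (tr s' x) = tr (s + s') x := by
  funext m
  simp only [tr]
  rw [add_assoc]

theorem tr_zero (x : Om) : tr 0 x = x := by
  funext m
  simp only [tr, add_zero]

/-- The subshift as a subset of the ambient space. -/
def XX : Set Om :=
  {x | (∀ n c, |x n c| ≤ 4) ∧
    ∀ (i : ℕ) (n : ℤ), ∃ s : ℤ, n ≤ s ∧ s < n + Gp i ∧ 1 / 4 ≤ ti i (tr s x)}

theorem mem_XX {x : Om} : x ∈ XX ↔ (∀ n c, |x n c| ≤ 4) ∧
    ∀ (i : ℕ) (n : ℤ), ∃ s : ℤ, n ≤ s ∧ s < n + Gp i ∧ 1 / 4 ≤ ti i (tr s x) := Iff.rfl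

theorem tr_mem {x : Om} (hx : x ∈ XX) (s : ℤ) : tr s x ∈ XX := by
  rw [mem_XX] at hx ⊢
  refine ⟨fun n c => hx.1 _ _, ?_⟩
  intro i n
  obtain ⟨s', h1, h2, h3⟩ := hx.2 i (n + s)
  refine ⟨s' - s, by omega, by omega, ?_⟩
  rw [tr_tr, sub_add_cancel]
  exact h3

theorem isClosed_XX : IsClosed XX := by
  have e : XX = (⋂ n : ℤ, ⋂ c : Fin 2, {x : Om | |x n c| ≤ 4}) ∩
      ⋂ i : ℕ, ⋂ n : ℤ, ⋃ s ∈ Finset.Ico n (n + Gp i), {x : Om | 1 / 4 ≤ ti i (tr s x)} := by
    ext x
    rw [mem_XX]
    simp only [Set.mem_inter_iff, Set.mem_iInter, Set.mem_iUnion, Set.mem_ofPred_eq,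
      Finset.mem_Ico, exists_prop, and_assoc]
  rw [e]
  apply IsClosed.inter
  · apply isClosed_iInter
    intro n
    apply isClosed_iInter
    intro c
    have : Continuous fun x : Om => x n c := (continuous_apply c).comp (continuous_apply n)
    exact isClosed_le this.abs continuous_const
  · apply isClosed_iInter
    intro i
    apply isClosed_iInter
    intro n
    apply isClosed_biUnion_finset
    intro s _
    exact isClosed_le continuous_const ((continuous_ti i).comp (continuous_tr s))

theorem isCompact_XX : IsCompact XX := by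
  have h : IsCompact (Set.univ.pi fun _ : ℤ => Set.univ.pi fun _ : Fin 2 => Set.Icc (-4 : ℝ) 4) :=
    isCompact_univ_pi fun _ => isCompact_univ_pi fun _ => isCompact_Icc
  apply h.of_isClosed_subset isClosed_XX
  intro x hx n _ c _
  have := hx.1 n c
  rw [abs_le] at this
  exact this

/-- The subshift as a type. -/
abbrev XS : Type := XX

instance : CompactSpace XS := isCompact_iff_compactSpace.1 isCompact_XX

instance : TopologicalSpace.MetrizableSpace XS := inferInstance

/-- The shift. -/
def TS : XS ≃ₜ XS where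
  toFun x := ⟨tr 1 x.1, tr_mem x.2 1⟩
  invFun x := ⟨tr (-1) x.1, tr_mem x.2 (-1)⟩
  left_inv x := by
    apply Subtype.ext
    change tr (-1) (tr 1 x.1) = x.1
    rw [tr_tr]
    exact tr_zero _
  right_inv x := by
    apply Subtype.ext
    change tr 1 (tr (-1) x.1) = x.1
    rw [tr_tr]
    exact tr_zero _
  continuous_toFun := by
    apply Continuous.subtype_mk
    exact (continuous_tr 1).comp continuous_subtype_val
  continuous_invFun := by
    apply Continuous.subtype_mk
    exact (continuous_tr (-1)).comp continuous_subtype_val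

theorem TS_iterate (i : ℕ) (x : XS) : ((⇑TS)^[i] x).1 = tr i x.1 := by
  induction i generalizing x with
  | zero =>
    simp only [Function.iterate_zero, id_eq, Nat.cast_zero]
    exact (tr_zero _).symm
  | succ i ih =>
    rw [Function.iterate_succ_apply, ih]
    change tr i (tr 1 x.1) = _
    rw [tr_tr]
    push_cast
    rfl

end Pool.Agent.Helper46.MeanDim
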