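import Pool.Agent.Helper46.MeanDim.Cyc
import Pool.Agent.Helper46.MeanDim.Space

set_option autoImplicit false

/-!
Periodic points of the subshift.
-/

namespace Pool.Agent.Helper46.MeanDim

open Finset

variable {p : ℕ} [NeZero p]

/-- The lift of a periodic sequence, based at `n`. -/
def lft (x : Wp p) (n : ZMod p) : Om := fun m => x (n + (m : ZMod p))

omit [NeZero p] in
theorem continuous_lft (n : ZMod p) : Continuous fun x : Wp p => lft x n := by
  unfold lft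
  exact continuous_pi fun m => continuous_apply _

omit [NeZero p] in
theorem lft_sh (x : Wp p) (n : ZMod p) : lft (sh x) n = lft x (n + 1) := by
  funext m
  unfold lft sh
  have : n + (m : ZMod p) + 1 = n + 1 + m := by ring
  rw [this]

omit [NeZero p] in
theorem tr_lft (s : ℤ) (x : Wp p) (n : ZMod p) : tr s (lft x n) = lft x (n + (s : ZMod p)) := by
  funext m
  change x (n + ((m + s : ℤ) : ZMod p)) = x (n + (s : ZMod p) + (m : ZMod p))
  have : n + ((m + s : ℤ) : ZMod p) = n + (s : ZMod p) + (m : ZMod p) := by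
    push_cast
    ring
  rw [this]

theorem sum_uu_le {r : ℕ} (hr : 1 ≤ r) (e : ℝ) (x : Wp p) :
    ∑ n, uu r e (lft x n) ≤ 2 * p := by
  have h1 : ∑ n, uu r e (lft x n) =
      ∑ c : Fin 2, ∑ n : ZMod p, ∑ m ∈ range r, rho r (x n c * e - m / r) := by
    unfold uu
    rw [sum_comm]
    have h2 : ∀ m ∈ range r, ∑ n : ZMod p, ∑ c : Fin 2, rho r (lft x n m c * e - m / r) =
        ∑ c : Fin 2, ∑ n : ZMod p, rho r (x n c * e - m / r) := by
      intro m _
      rw [sum_comm]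
      apply sum_congr rfl
      intro c _
      rw [← sum_shift (fun n : ZMod p => rho r (x n c * e - m / r)) ((m : ℤ) : ZMod p)]
      rfl
    rw [sum_congr rfl h2, sum_comm]
    apply sum_congr rfl
    intro c _
    rw [sum_comm]
  rw [h1]
  calc ∑ c : Fin 2, ∑ n : ZMod p, ∑ m ∈ range r, rho r (x n c * e - m / r)
      ≤ ∑ c : Fin 2, ∑ n : ZMod p, (1 : ℝ) := by
        apply sum_le_sum
        intro c _
        apply sum_le_sum
        intro n _
        exact sum_rho_le_one hr _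
    _ = 2 * p := by
        simp [ZMod.card]

theorem sum_ti_ge (i : ℕ) (x : Wp p) : (p : ℝ) / 2 ≤ ∑ n, ti i (lft x n) := by
  have h1 := sum_uu_le (one_le_rp i) (2 ^ i) x
  calc (p : ℝ) / 2 ≤ p - (∑ n, uu (rp i) (2 ^ i) (lft x n)) / 4 := by linarith
    _ = ∑ n, (1 - uu (rp i) (2 ^ i) (lft x n) / 4) := by
        rw [sum_sub_distrib, ← sum_div]
        simp [ZMod.card]
    _ ≤ ∑ n, ti i (lft x n) := by
        apply sum_le_sum
        intro n _
        exact le_max_right _ _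

theorem Lp_ge (i : ℕ) : 32 ≤ Lp i := by
  unfold Lp
  calc 32 = 2 ^ 5 := by norm_num
    _ ≤ 2 ^ (i + 5) := Nat.pow_le_pow_right (by norm_num) (by omega)

theorem lft_mem {x : Wp p} (hx : nrm2 x = p)
    (hA : ∀ k : ℕ, 1 ≤ k → k ≤ p / 16 → ft (fun n => ∑ c, x n c ^ 2) (k : ZMod p) = 0)
    (hB : ∀ i : ℕ, ∀ k : ℕ, 1 ≤ k → k ≤ p / Lp i →
      ft (fun n => ti i (lft x n)) (k : ZMod p) = 0) (n : ZMod p) : lft x n ∈ XX := by
  have hp : 0 < p := Nat.pos_of_ne_zero (NeZero.ne p)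
  rw [mem_XX]
  refine ⟨?_, ?_⟩
  · intro m c
    have h1 := le_of_low (y := fun n => ∑ c, x n c ^ 2)
      (fun n => sum_nonneg fun c _ => sq_nonneg _) hA (n + (m : ZMod p))
    have h2 : ∑ j : ZMod p, ∑ c, x j c ^ 2 = p := hx
    rw [h2] at h1
    have h3 : x (n + (m : ZMod p)) c ^ 2 ≤ ∑ c, x (n + (m : ZMod p)) c ^ 2 :=
      single_le_sum (f := fun c => x (n + (m : ZMod p)) c ^ 2) (fun c _ => sq_nonneg _) (mem_univ c)
    have h4 : (p : ℝ) / (((p / 16 : ℕ) : ℝ) + 1) ≤ 16 := by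
      rw [div_le_iff₀ (by positivity)]
      have : p < 16 * (p / 16 + 1) := by omega
      exact_mod_cast this.le
    have h5 : x (n + (m : ZMod p)) c ^ 2 ≤ 4 ^ 2 := by
      refine h3.trans (h1.trans (h4.trans ?_))
      norm_num
    exact abs_le_of_sq_le_sq h5 (by norm_num)
  · intro i n0
    have hL := Lp_ge i
    have h1 : p ≤ Lp i * (p / Lp i + 1) := (Nat.lt_mul_div_succ p (by omega)).le
    have h2 : p / Lp i < p := Nat.div_lt_self hp (by omega)
    obtain ⟨v, hv1, hv2⟩ := gap (y := fun n => ti i (lft x n)) h2 (by omega) h1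
      (fun n => ti_nonneg _ _) (fun n => ti_le_one _ _) (hB i) (sum_ti_ge i x)
      (n + ((n0 + 4 * Lp i : ℤ) : ZMod p))
    refine ⟨n0 + 4 * Lp i - v, ?_, ?_, ?_⟩
    · rw [abs_le] at hv1
      omega
    · rw [abs_le] at hv1
      unfold Gp
      omega
    · rw [tr_lft]
      have : n + ((n0 + 4 * Lp i - v : ℤ) : ZMod p) =
          n + ((n0 + 4 * Lp i : ℤ) : ZMod p) - (v : ZMod p) := by
        push_cast
        ring
      rw [this]
      exact hv2

theorem sum_zmod_range (φ : ZMod p → ℝ) : ∑ k, φ k = ∑ j ∈ range p, φ (j : ZMod p) := by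
  apply Finset.sum_nbij' (fun k : ZMod p => k.val) (fun j : ℕ => (j : ZMod p))
  · intro k _
    rw [mem_range]
    exact ZMod.val_lt k
  · intro j _
    exact mem_univ _
  · intro k _
    exact ZMod.natCast_zmod_val k
  · intro j hj
    exact ZMod.val_cast_of_lt (mem_range.1 hj)
  · intro k _
    rw [ZMod.natCast_zmod_val]

theorem half_sum (hodd : Odd p) {φ : ZMod p → ℝ} (hφ : ∀ k, φ (-k) = φ k) :
    ∑ k, φ k = φ 0 + 2 * ∑ j : Fin ((p - 1) / 2), φ (((j : ℕ) + 1 : ℕ) : ZMod p) := by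
  obtain ⟨K, hK⟩ := hodd
  have hK2 : (p - 1) / 2 = K := by omega
  rw [sum_zmod_range, Fin.sum_univ_eq_sum_range (fun j : ℕ => φ ((j + 1 : ℕ) : ZMod p)), hK2]
  have e1 : range p = range (K + K + 1) := by rw [hK]; congr 1; ring
  rw [e1, sum_range_succ', sum_range_add]
  have e2 : ∑ x ∈ range K, φ ((K + x + 1 : ℕ) : ZMod p) = ∑ x ∈ range K, φ ((x + 1 : ℕ) : ZMod p) := by
    rw [← sum_range_reflect]
    apply sum_congr rfl
    intro j hj
    rw [mem_range] at hj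
    rw [← hφ]
    congr 1
    have : (K + (K - 1 - j) + 1) = p - (j + 1) := by omega
    rw [this, Nat.cast_sub (by omega), CharP.cast_eq_zero]
    ring
  rw [e2]
  push_cast
  ring

theorem exists_big (hodd : Odd p) {x : Wp p} (hx : nrm2 x = p) (hmean : ∀ c, ∑ n, x n c = 0)
    {y : Fin 2 → ZMod p → ℝ} (hy : ∀ c n, |y c n - x n c| ≤ 1 / 10) :
    ∃ k : Fin ((p - 1) / 2), (p : ℝ) / 4 <
      ‖ft (y 0) (((k : ℕ) + 1 : ℕ) : ZMod p)‖ ^ 2 + ‖ft (y 1) (((k : ℕ) + 1 : ℕ) : ZMod p)‖ ^ 2 := by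
  have hp : (1 : ℝ) ≤ p := by
    have : 1 ≤ p := Nat.pos_of_ne_zero (NeZero.ne p)
    exact_mod_cast this
  by_contra hcon
  push Not at hcon
  have h1 : ∑ k, (‖ft (y 0) k‖ ^ 2 + ‖ft (y 1) k‖ ^ 2) = p * ∑ n, ∑ c, y c n ^ 2 := by
    rw [sum_add_distrib, parseval, parseval, ← mul_add, ← sum_add_distrib]
    congr 1
    apply sum_congr rfl
    intro n _
    rw [Fin.sum_univ_two]
  have h2 := half_sum hodd (φ := fun k => ‖ft (y 0) k‖ ^ 2 + ‖ft (y 1) k‖ ^ 2) (by
    intro k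
    simp only [ft_neg, RCLike.norm_conj])
  rw [h1] at h2
  have h3 : ∀ c, ‖ft (y c) 0‖ ^ 2 ≤ (p / 10) ^ 2 := by
    intro c
    apply pow_le_pow_left₀ (norm_nonneg _)
    have e1 : ft (y c) 0 = ((∑ n, (y c n - x n c) : ℝ) : ℂ) := by
      rw [sum_sub_distrib, hmean c, sub_zero]
      unfold ft
      push_cast
      apply sum_congr rfl
      intro n _
      simp
    rw [e1, Complex.norm_real, Real.norm_eq_abs]
    refine (abs_sum_le_sum_abs _ _).trans ?_
    refine (sum_le_sum (fun n _ => hy c n)).trans ?_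
    rw [sum_const, card_univ, ZMod.card, nsmul_eq_mul]
    linarith
  have h4 : (22 : ℝ) / 30 * p ≤ ∑ n, ∑ c, y c n ^ 2 := by
    have h5 : ∀ n c, x n c ^ 2 ≤ 6 / 5 * y c n ^ 2 + 6 / 100 := by
      intro n c
      have h6 := hy c n
      have h7 : (y c n - x n c) ^ 2 ≤ (1 / 10) ^ 2 := by
        rw [← sq_abs]
        exact pow_le_pow_left₀ (abs_nonneg _) h6 2
      nlinarith [sq_nonneg (x n c + 6 * (y c n - x n c))]
    have h8 : nrm2 x ≤ ∑ n : ZMod p, ∑ c : Fin 2, (6 / 5 * y c n ^ 2 + 6 / 100) := by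
      unfold nrm2
      apply sum_le_sum
      intro n _
      apply sum_le_sum
      intro c _
      exact h5 n c
    have h9 : ∑ n : ZMod p, ∑ c : Fin 2, (6 / 5 * y c n ^ 2 + 6 / 100) =
        6 / 5 * ∑ n, ∑ c, y c n ^ 2 + 12 / 100 * p := by
      simp only [sum_add_distrib, mul_sum, sum_const, card_univ, ZMod.card, Fintype.card_fin,
        nsmul_eq_mul]
      push_cast
      ring
    rw [hx, h9] at h8
    linarith
  have h5 : ∑ j : Fin ((p - 1) / 2), (‖ft (y 0) (((j : ℕ) + 1 : ℕ) : ZMod p)‖ ^ 2 +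
      ‖ft (y 1) (((j : ℕ) + 1 : ℕ) : ZMod p)‖ ^ 2) ≤ p / 2 * (p / 4) := by
    refine (sum_le_sum (fun j _ => hcon j)).trans ?_
    rw [sum_const, card_univ, Fintype.card_fin, nsmul_eq_mul]
    apply mul_le_mul_of_nonneg_right _ (by positivity)
    have : (p - 1) / 2 * 2 ≤ p := by omega
    have h6 : (((p - 1) / 2 : ℕ) : ℝ) * 2 ≤ p := by exact_mod_cast this
    linarith
  have h6 := h3 0
  have h7 := h3 1
  have h8 : (p : ℝ) * (22 / 30 * p) ≤ p * ∑ n, ∑ c, y c n ^ 2 :=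
    mul_le_mul_of_nonneg_left h4 (by linarith)
  nlinarith

theorem pert_sum {y z : ZMod p → ℝ} {δ : ℝ} (h : ∀ n, |y n - z n| ≤ δ) :
    ∑ j : Fin ((p - 1) / 2), ‖ft y (((j : ℕ) + 1 : ℕ) : ZMod p) -
      ft z (((j : ℕ) + 1 : ℕ) : ZMod p)‖ ^ 2 ≤ p * (p * δ ^ 2) := by
  classical
  have h1 := parseval (fun n => y n - z n)
  have h2 : ∑ n, (y n - z n) ^ 2 ≤ p * δ ^ 2 := by
    calc ∑ n, (y n - z n) ^ 2 ≤ ∑ n : ZMod p, δ ^ 2 := by
          apply sum_le_sum
          intro n _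
          rw [← sq_abs]
          exact pow_le_pow_left₀ (abs_nonneg _) (h n) 2
      _ = p * δ ^ 2 := by rw [sum_const, card_univ, ZMod.card, nsmul_eq_mul]
  have h3 : ∑ j : Fin ((p - 1) / 2), ‖ft y (((j : ℕ) + 1 : ℕ) : ZMod p) -
      ft z (((j : ℕ) + 1 : ℕ) : ZMod p)‖ ^ 2 =
      ∑ k ∈ univ.image (fun j : Fin ((p - 1) / 2) => (((j : ℕ) + 1 : ℕ) : ZMod p)),
        ‖ft (fun n => y n - z n) k‖ ^ 2 := by
    rw [sum_image]
    · apply sum_congr rfl
      intro j _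
      rw [ft_sub]
    · intro j _ j' _ hjj
      change (((j : ℕ) + 1 : ℕ) : ZMod p) = (((j' : ℕ) + 1 : ℕ) : ZMod p) at hjj
      rw [ZMod.natCast_eq_natCast_iff'] at hjj
      rw [Nat.mod_eq_of_lt (Kv_lt j.2), Nat.mod_eq_of_lt (Kv_lt j'.2)] at hjj
      apply Fin.ext
      omega
  rw [h3]
  calc _ ≤ ∑ k, ‖ft (fun n => y n - z n) k‖ ^ 2 :=
        sum_le_sum_of_subset_of_nonneg (subset_univ _) (fun _ _ _ => by positivity)
    _ = p * ∑ n, (y n - z n) ^ 2 := h1
    _ ≤ _ := mul_le_mul_of_nonneg_left h2 (by positivity)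

end Pool.Agent.Helper46.MeanDim
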